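import Pool.Agent.J4H78.GP.Stm2
import Pool.Agent.H38R2.CG.NB

/-!
# Project GP (helper78): the set of all primes is dense
-/

set_option autoImplicit false

open Filter Topology

namespace Pool.Agent.J4H78.GP

lemma card_aux (y : ℕ) (d : DecidablePred fun q : ℕ => q.Prime ∧ q ∈ (Set.univ : Set ℕ)) :
    (Pool.Agent.H38R2.CG.PP y).card ≤
      (@Finset.filter ℕ (fun q : ℕ => q.Prime ∧ q ∈ (Set.univ : Set ℕ)) d
        (Finset.Ioc y (2 * y))).card := by
  have h : @Finset.filter ℕ (fun q : ℕ => q.Prime ∧ q ∈ (Set.univ : Set ℕ)) d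
      (Finset.Ioc y (2 * y)) = (Finset.Ioc y (2 * y)).filter Nat.Prime := by
    have : (fun q : ℕ => q.Prime ∧ q ∈ (Set.univ : Set ℕ)) = Nat.Prime := by
      funext q
      simp
    congr!
    simp
  rw [h]
  exact le_rfl

theorem dense_univ {κ : ℝ} (hκ : 0 < κ) : Dense Set.univ κ := by
  obtain ⟨y₀, hy₀⟩ := Pool.Agent.H38R2.CG.NBh.part2
  have h1 : ∀ᶠ z : ℝ in atTop, Real.log z ≤ (9 / 10 : ℝ) * z ^ κ := by
    have h4 := (isLittleO_log_rpow_atTop hκ).bound (show (0 : ℝ) < 9 / 10 by norm_num)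
    filter_upwards [h4, eventually_ge_atTop (1 : ℝ)] with z hz hz1
    rw [Real.norm_of_nonneg (Real.log_nonneg hz1),
      Real.norm_of_nonneg (Real.rpow_nonneg (by linarith) _)] at hz
    exact hz
  have h2 := (tendsto_natCast_atTop_atTop (R := ℝ)).eventually h1
  obtain ⟨y₁, hy₁⟩ := eventually_atTop.mp (h2.and (eventually_ge_atTop (max y₀ 2)))
  refine ⟨y₁, fun y hy => ?_⟩
  obtain ⟨h3, h4⟩ := hy₁ y hy
  have hy2 : (2 : ℝ) ≤ y := by exact_mod_cast (le_max_right _ _).trans h4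
  have hy0 : (0 : ℝ) < y := by linarith
  have hlog : 0 < Real.log y := Real.log_pos (by linarith)
  have h5 := (hy₀ y ((le_max_left _ _).trans h4)).1
  refine le_trans (le_trans ?_ h5) (Nat.cast_le.mpr (card_aux y _))
  rw [le_div_iff₀ hlog]
  calc (y : ℝ) ^ (1 - κ) * Real.log y ≤ (y : ℝ) ^ (1 - κ) * ((9 / 10 : ℝ) * (y : ℝ) ^ κ) := by
        gcongr
    _ = (9 / 10 : ℝ) * ((y : ℝ) ^ (1 - κ) * (y : ℝ) ^ κ) := by ring
    _ = (9 / 10 : ℝ) * y := by
        rw [← Real.rpow_add hy0, sub_add_cancel, Real.rpow_one]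

end Pool.Agent.J4H78.GP
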