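import Pool.Agent.Y773.HK.Hf2
import Pool.Agent.Y773.HK.Mel
import Pool.Agent.Y773.HK.Cls

/-!
# Project GP (helper78), row MP_d0fd9b_nt: statements

THEOREM.  For every `δ > 0` there are `A`, `C` such that for all but at most `C x ^ δ` primes `p ≤ x` the
classes of the prime ideals of `ℚ(√p)` whose norm is a prime number `≤ (log p) ^ A` generate the class
group of `ℚ(√p)`.

Every `def S_... : Prop` is a part; a proof of it is a theorem `t_... : S_...` in a file of its own.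
-/

set_option autoImplicit false

open NumberField Complex Filter Topology MeasureTheory
open Pool.Agent.Y773 (VM cc hf FT PIdl gen)

namespace Pool.Agent.J4H78.GP

/-! ## Definitions -/

/-- `η` is a character of the ideal class group, as a function on the ideals (`η ⊥ = 0`) -/
def IsCl (K : Type) [Field K] [NumberField K] (η : Ideal (𝓞 K) →*₀ ℂ) : Prop :=
  ∀ x : 𝓞 K, x ≠ 0 → η (Ideal.span {x}) = 1

/-- `η` is not trivial -/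
def NonTriv {K : Type} [Field K] [NumberField K] (η : Ideal (𝓞 K) →*₀ ℂ) : Prop :=
  ∃ 𝔞 : Ideal (𝓞 K), 𝔞 ≠ ⊥ ∧ η 𝔞 ≠ 1

/-- the square of `η` is not trivial -/
def NonTriv2 {K : Type} [Field K] [NumberField K] (η : Ideal (𝓞 K) →*₀ ℂ) : Prop :=
  ∃ 𝔞 : Ideal (𝓞 K), 𝔞 ≠ ⊥ ∧ η 𝔞 ^ 2 ≠ 1

/-- the weight function of the theta series of totally real fields of degree four -/
noncomputable def W (u : ℝ) : ℝ :=
  ∫ y : Fin 3 → ℝ, Real.exp (-Real.pi * (u ^ (1 / 2 : ℝ) *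
    (Real.exp (y 0) + Real.exp (y 1) + Real.exp (y 2) + Real.exp (-(y 0 + y 1 + y 2)))))

open Classical in
/-- the indicator function of an ideal -/
noncomputable def ind {K : Type} [Field K] [NumberField K] (𝔟 : Ideal (𝓞 K)) (x : 𝓞 K) : ℂ :=
  if x ∈ 𝔟 then 1 else 0

/-- the restriction of `η` to the ideals prime to `M` -/
noncomputable def res {K : Type} [Field K] [NumberField K] (M : ℕ) (η : Ideal (𝓞 K) →*₀ ℂ) :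
    Ideal (𝓞 K) →*₀ ℂ where
  toFun 𝔞 := if (Ideal.absNorm 𝔞).Coprime M then η 𝔞 else 0
  map_zero' := by rw [map_zero, map_zero]; split_ifs <;> rfl
  map_one' := by rw [map_one, map_one, if_pos (Nat.coprime_one_left M)]
  map_mul' 𝔞 𝔟 := by
    have h : (Ideal.absNorm (𝔞 * 𝔟)).Coprime M ↔
        (Ideal.absNorm 𝔞).Coprime M ∧ (Ideal.absNorm 𝔟).Coprime M := by
      rw [map_mul, Nat.coprime_mul_iff_left]
    by_cases h1 : (Ideal.absNorm 𝔞).Coprime M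
    · by_cases h2 : (Ideal.absNorm 𝔟).Coprime M
      · rw [if_pos (h.mpr ⟨h1, h2⟩), if_pos h1, if_pos h2, map_mul]
      · rw [if_neg (fun h3 => h2 (h.mp h3).2), if_neg h2, mul_zero]
    · rw [if_neg (fun h3 => h1 (h.mp h3).1), if_neg h1, zero_mul]

/-- the complex conjugate of `η` -/
noncomputable def cj {K : Type} [Field K] [NumberField K] (η : Ideal (𝓞 K) →*₀ ℂ) :
    Ideal (𝓞 K) →*₀ ℂ where
  toFun 𝔞 := (starRingEnd ℂ) (η 𝔞)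
  map_zero' := by rw [map_zero, map_zero]
  map_one' := by rw [map_one, map_one]
  map_mul' 𝔞 𝔟 := by rw [map_mul, map_mul]

/-- `K = ℚ(√p)` -/
structure QD (p : ℕ) (K : Type) [Field K] [NumberField K] : Prop where
  deg : Module.finrank ℚ K = 2
  root : ∃ s : K, s ^ 2 = (p : K)

/-- `p ≠ p'` are primes, `K = ℚ(√p)`, `K' = ℚ(√p')`, and `L` is a field of degree four that contains both
of them (so `L = ℚ(√p, √p')`) -/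
structure BQ (p p' : ℕ) (K K' L : Type) [Field K] [NumberField K] [Field K'] [NumberField K']
    [Field L] [NumberField L] [Algebra K L] [Algebra K' L] : Prop where
  hp : p.Prime
  hp' : p'.Prime
  hne : p ≠ p'
  qK : QD p K
  qK' : QD p' K'
  deg : Module.finrank ℚ L = 4

/-- the character `𝔄 ↦ ψ(N_{L/K} 𝔄) ψ'(N_{L/K'} 𝔄)` -/
noncomputable def eta {K K' L : Type} [Field K] [NumberField K] [Field K'] [NumberField K']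
    [Field L] [NumberField L] [Algebra K L] [Algebra K' L]
    (ψ : Ideal (𝓞 K) →*₀ ℂ) (ψ' : Ideal (𝓞 K') →*₀ ℂ) : Ideal (𝓞 L) →*₀ ℂ where
  toFun 𝔄 := ψ (Ideal.relNorm (𝓞 K) 𝔄) * ψ' (Ideal.relNorm (𝓞 K') 𝔄)
  map_zero' := by rw [map_zero, map_zero, zero_mul]
  map_one' := by rw [map_one, map_one, map_one, map_one, one_mul]
  map_mul' 𝔞 𝔟 := by simp only [map_mul]; ring

/-- `a` is the sequence of the coefficients of the Dirichlet series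
`exp (∑ Λ(d) G(d) / log d · d ^ (-s))` -/
def IsCf (G a : ℕ → ℂ) : Prop :=
  a 0 = 0 ∧ a 1 = 1 ∧ ∀ n : ℕ, 1 ≤ n → a n * (Real.log n : ℂ) =
    ∑ d ∈ n.divisors, (ArithmeticFunction.vonMangoldt d : ℂ) * G d * a (n / d)

/-- the coefficients `g(d)`, `d` prime to `2 p` -/
noncomputable def gg {K : Type} [Field K] [NumberField K] (p : ℕ) (ψ : Ideal (𝓞 K) →*₀ ℂ) (d : ℕ) : ℂ :=
  if d.Coprime (2 * p) then cc ψ d else 0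

/-- there is a character `ψ` of the class group of `ℚ(√p)`, `ψ² ≠ 1`, with `ψ(𝔮) = 1` for all prime ideals
`𝔮` whose norm is a prime number `≤ B` -/
def Exc (p : ℕ) (B : ℝ) : Prop :=
  ∃ (K : Type) (_ : Field K) (_ : NumberField K), QD p K ∧ ∃ ψ : Ideal (𝓞 K) →*₀ ℂ,
    IsCl K ψ ∧ NonTriv2 ψ ∧ ∀ 𝔮 : Ideal (𝓞 K), (Ideal.absNorm 𝔮).Prime →
      ((Ideal.absNorm 𝔮 : ℕ) : ℝ) ≤ B → ψ 𝔮 = 1

/-- the classes of the prime ideals of `ℚ(√p)` whose norm is a prime number `≤ B` generate the class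
group -/
def Gen (p : ℕ) (B : ℝ) : Prop :=
  ∀ (K : Type) [Field K] [NumberField K], QD p K →
    Subgroup.closure {c : ClassGroup (𝓞 K) | ∃ 𝔮 : nonZeroDivisors (Ideal (𝓞 K)),
      (Ideal.absNorm (𝔮 : Ideal (𝓞 K))).Prime ∧ ((Ideal.absNorm (𝔮 : Ideal (𝓞 K)) : ℕ) : ℝ) ≤ B ∧
      ClassGroup.mk0 𝔮 = c} = ⊤

/-- `q` is an odd prime which splits in `ℚ(√p)` -/
def Spl (p q : ℕ) : Prop := q.Prime ∧ ¬ q ∣ 2 * p ∧ IsSquare ((p : ℕ) : ZMod q)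

/-! ## Analysis -/

/-- **W**: properties of the weight.  (2): `exp (-z) ≤ C z ^ (-2 s)` for `z = π √u Σ`, where
`Σ = e^(y 0) + ... ≥ exp (max |y i| / 3)`, so `W u ≤ C' u ^ (-s) ∫ Σ ^ (-2 s)`, and `∫ Σ ^ (-2 s) < ∞`.  (3): `W` is
decreasing and `W 1 > 0`. -/
def S_W : Prop := (∀ u : ℝ, 0 ≤ W u) ∧
  (∀ s : ℝ, 0 < s → ∃ C : ℝ, 0 < C ∧ ∀ u : ℝ, 0 < u → W u ≤ C * u ^ (-s)) ∧
  ∃ w₀ : ℝ, 0 < w₀ ∧ ∀ u : ℝ, 0 < u → u ≤ 1 → w₀ ≤ W u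

/-- **UNF**: unfolding of the integral of the theta series over the unit cube (compare `Y773/HK/Unf2.lean`,
`Unf3.lean` (`unfold_P`, `unfold_J`, `xE`, `Fx_unit`) and `Mel.lean`, where the same is done after a Mellin
transform).  `hf 0 Ψ t = ∫_{θ ∈ [0,1)^3} ∑_x Ψ(x) exp (-π ∑_w e^(el(τ,θ)_w) |x|_w²)`, `e^τ = √t`; the term `x = 0`
gives `Ψ 0`; the other `x` are `u · gen J` with units `u = ζ ∏ ε_i ^ m_i`, and the sum over `m` unfolds the cube to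
`ℝ³`; `|gen J|_w² e^(el(τ,θ)_w) = √(N J t) e^(z_w)` with `∑ z_w = 0`, and `θ ↦ (z_w)` is, up to a translation, a
linear bijection onto the hyperplane, so that the integral is a constant times `W (N J t)`;
`c = #torsion / |det|`. -/
def S_UNF : Prop := ∀ (L : Type) [Field L] [NumberField L] [IsTotallyReal L],
  Module.finrank ℚ L = 4 → ∃ c : ℝ, 0 < c ∧
    ∀ (Ψ : 𝓞 L → ℂ) (B : ℝ), (∀ x, ‖Ψ x‖ ≤ B) → (∀ (u : (𝓞 L)ˣ) (x : 𝓞 L), Ψ (u * x) = Ψ x) →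
      ∀ t : ℝ, 0 < t →
        (Summable fun J : PIdl L => Ψ (gen J) * ((W ((Ideal.absNorm J.1 : ℝ) * t) : ℝ) : ℂ)) ∧
        hf (fun _ => 0) Ψ t = Ψ 0 +
          c * ∑' J : PIdl L, Ψ (gen J) * ((W ((Ideal.absNorm J.1 : ℝ) * t) : ℝ) : ℂ)

/-- **FTB**: the finite Fourier transform of the indicator function of an ideal.  If `x ∈ 𝔟'` then all traces
`Tr(x r)` are divisible by `D` and `Tr(x r) ∈ m D ℤ` for `r ∈ 𝔟`, and `#(𝔟 / m) = m ^ n / N𝔟`; if `x ∉ 𝔟'` and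
`D ∣ Tr(x r)` for all `r`, then `r ↦ e(Tr(x r) / (m D))` is a nontrivial character of `𝔟 / m` (compare
`Y773/HK/Gss.lean`, `Gss2.lean`, `Sq.lean`). -/
def S_FTB : Prop := ∀ (L : Type) [Field L] [NumberField L] [IsTotallyReal L]
  (𝔟 𝔟' : Ideal (𝓞 L)) (m D : ℕ), 0 < m → 0 < D →
    𝔟' * (𝔟 * differentIdeal ℤ (𝓞 L)) = Ideal.span {((m * D : ℕ) : 𝓞 L)} →
    (m : 𝓞 L) ∈ 𝔟 → (D : 𝓞 L) ∈ differentIdeal ℤ (𝓞 L) → ∀ x : 𝓞 L,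
      FT D m (ind 𝔟) x = ((m : ℂ) ^ (Module.finrank ℚ L) / (Ideal.absNorm 𝔟 : ℂ)) * ind 𝔟' x

/-- **FEB** (from `S_FTB` and `Y773.hf_fe`, with `e = 0`, `t = N𝔟 X`; `N(𝔡) = |discr|`).  The constant `V` of
`hf_fe` satisfies `V² = |discr|`: apply the formula twice, to `1` and to `ind 𝔟'`, and use
`hf 0 (ind (k)) t = hf 0 1 (k ^ n t)` and `hf 0 1 t > 0`. -/
def S_FEB : Prop := ∀ (L : Type) [Field L] [NumberField L] [IsTotallyReal L] (𝔟 𝔟' : Ideal (𝓞 L))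
  (k : ℕ), 0 < k → 𝔟' * (𝔟 * differentIdeal ℤ (𝓞 L)) = Ideal.span {(k : 𝓞 L)} →
    ∀ X : ℝ, 0 < X → hf (fun _ => 0) (ind 𝔟) (1 / ((Ideal.absNorm 𝔟 : ℝ) * X)) =
      (((Real.sqrt |(discr L : ℝ)|)⁻¹ * X : ℝ) : ℂ) *
        hf (fun _ => 0) (ind 𝔟') (X / ((Ideal.absNorm 𝔟' : ℝ) * |(discr L : ℝ)|))

/-- **ZB**: the number of ideals of norm `n` is at most the number of factorizations `n = a b c d`. -/
def S_ZB : Prop := ∃ C : ℝ, 0 < C ∧ ∀ (L : Type) [Field L] [NumberField L],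
  Module.finrank ℚ L = 4 →
    (Summable fun 𝔞 : {𝔞 : Ideal (𝓞 L) // 𝔞 ≠ ⊥} => (Ideal.absNorm 𝔞.1 : ℝ) ^ (-2 : ℝ)) ∧
    ∑' 𝔞 : {𝔞 : Ideal (𝓞 L) // 𝔞 ≠ ⊥}, (Ideal.absNorm 𝔞.1 : ℝ) ^ (-2 : ℝ) ≤ C

/-- **T** (from `S_W`, `S_UNF`, `S_FEB`, `S_ZB`).  Take representatives `𝔟_c` of the classes and `𝔟'_c` with
`𝔟'_c 𝔟_c 𝔡 = (k)`.  The ideals `𝔞` with `𝔞 𝔟_c` principal correspond to the principal `J ⊆ 𝔟_c`, `J = 𝔞 𝔟_c`, and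
`η 𝔞 = η(𝔟_c)⁻¹`; since `∑_c η(𝔟_c)⁻¹ = 0` the constant terms of `S_UNF` cancel on both sides:
`c T(1/X) = ∑_c η(𝔟_c)⁻¹ hf (ind 𝔟_c) (1 / (N𝔟_c X)) = |discr|^(-1/2) X ∑_c η(𝔟_c)⁻¹ hf (ind 𝔟'_c) (X / (N𝔟'_c |discr|))`,
so `|T(1/X)| ≤ X ∑_𝔞 W(N𝔞 X / |discr|) ≤ C |discr|² / X` (`W u ≤ C u⁻²`, `S_ZB`). -/
def S_T : Prop := ∃ C : ℝ, 0 < C ∧ ∀ (L : Type) [Field L] [NumberField L] [IsTotallyReal L],
  Module.finrank ℚ L = 4 → ∀ η : Ideal (𝓞 L) →*₀ ℂ, IsCl L η → NonTriv η → ∀ X : ℝ, 0 < X →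
    ‖∑' 𝔞 : Ideal (𝓞 L), η 𝔞 * ((W ((Ideal.absNorm 𝔞 : ℝ) / X) : ℝ) : ℂ)‖ ≤
      C * |(discr L : ℝ)| ^ 2 / X

/-- **RES** (from `S_T`, `S_W`).  Remove the prime ideals `𝔮` that divide `M` one after the other: for a finite
set `Q` of prime ideals let `T_Q(X)` be the sum over the `𝔞` prime to `Q`; then
`T_{Q ∪ 𝔮}(X) = T_Q(X) - η(𝔮) T_Q(X / N𝔮)`, so `|T_Q(X)| ≤ C |discr|² ∏_{𝔮 ∈ Q} (1 + N𝔮) / X`, and
`∏_{𝔮 ∣ M} (1 + N𝔮) ≤ ∏ N𝔮² ≤ N(M)² = M ^ 8`.  (`(N𝔞).Coprime M` iff no prime `𝔮 ∣ M` divides `𝔞`.) -/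
def S_RES : Prop := ∃ C : ℝ, 0 < C ∧ ∀ (L : Type) [Field L] [NumberField L] [IsTotallyReal L],
  Module.finrank ℚ L = 4 → ∀ η : Ideal (𝓞 L) →*₀ ℂ, IsCl L η → NonTriv η →
    ∀ M : ℕ, 1 ≤ M → ∀ X : ℝ, 0 < X →
    ‖∑' 𝔞 : Ideal (𝓞 L), res M η 𝔞 * ((W ((Ideal.absNorm 𝔞 : ℝ) / X) : ℝ) : ℂ)‖ ≤
      C * |(discr L : ℝ)| ^ 2 * (M : ℝ) ^ 8 / X

/-! ## Algebraic number theory -/

/-- **LOC**: `cc η (q ^ r) = ∑_{𝔔 ∣ q, f ∣ r} f η(𝔔) ^ (r / f)`, `f` the residue degree of `𝔔` (`N𝔔 = q ^ f`), and for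
`f ∣ r` there are exactly `f` ring homomorphisms `𝓞 F → 𝔽_{q^r}` with kernel `𝔔` (`f` embeddings of `𝓞 F / 𝔔` into
`𝔽_{q^r}`); every kernel is such a `𝔔`.  (`cc` and `VM` are defined in `Y773/HK/Defs.lean`; see also
`Y773/HK/Eul.lean`.) -/
def S_LOC : Prop := ∀ (F : Type) [Field F] [NumberField F] (η : Ideal (𝓞 F) →*₀ ℂ) (q r : ℕ)
  [Fact q.Prime], 1 ≤ r → Finite (𝓞 F →+* GaloisField q r) ∧
    cc η (q ^ r) = ∑ᶠ φ : 𝓞 F →+* GaloisField q r,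
      η (RingHom.ker φ) ^ (r / Nat.log q (Ideal.absNorm (RingHom.ker φ)))

/-- **HOM**: for `q ∤ 2 p p'` the homomorphisms of `𝓞 L` into a field `k` of characteristic `q` are the pairs of
homomorphisms of `𝓞 K` and `𝓞 K'`.  (For `x = a + b√p + c√p' + d√(pp') ∈ 𝓞 L` the traces of
`x, x√p, x√p', x√(pp')` are the integers `4a, 4pb, 4p'c, 4pp'd`, so `4 p p' x ∈ ℤ[√p, √p']`; a homomorphism of
`𝓞 L` into `k` is determined by the images `s, s'` of the roots, and every pair with `s² = p`, `s'² = p'`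
occurs.) -/
def S_HOM : Prop := ∀ (p p' : ℕ) (K K' L : Type) [Field K] [NumberField K] [Field K'] [NumberField K']
  [Field L] [NumberField L] [Algebra K L] [Algebra K' L], BQ p p' K K' L →
    ∀ (q r : ℕ) [Fact q.Prime], 1 ≤ r → ¬ q ∣ 2 * p * p' →
      Function.Bijective (fun φ : 𝓞 L →+* GaloisField q r =>
        (φ.comp (algebraMap (𝓞 K) (𝓞 L)), φ.comp (algebraMap (𝓞 K') (𝓞 L))))

/-- **MULT** (from `S_LOC`, `S_HOM`): for `φ : 𝓞 L → 𝔽_{q^r}` with kernel `𝔔`, the kernel of the restriction to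
`𝓞 K` is `𝔮 = 𝔔 ∩ 𝓞 K`, `N_{L/K} 𝔔 = 𝔮 ^ f(𝔔/𝔮)` (`Ideal.relNorm_eq_pow_of_isMaximal`), `f(𝔔) = f(𝔮) f(𝔔/𝔮)`, so
`ψ(N_{L/K} 𝔔) ^ (r / f(𝔔)) = ψ(𝔮) ^ (r / f(𝔮))`. -/
def S_MULT : Prop := ∀ (p p' : ℕ) (K K' L : Type) [Field K] [NumberField K] [Field K'] [NumberField K']
  [Field L] [NumberField L] [Algebra K L] [Algebra K' L], BQ p p' K K' L →
    ∀ (ψ : Ideal (𝓞 K) →*₀ ℂ) (ψ' : Ideal (𝓞 K') →*₀ ℂ) (q r : ℕ), q.Prime → 1 ≤ r →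
      ¬ q ∣ 2 * p * p' → cc (eta (L := L) ψ ψ') (q ^ r) = cc ψ (q ^ r) * cc ψ' (q ^ r)

/-- **CH**: `η = eta ψ ψ'` is a character of the class group of `L` (`Ideal.relNorm_singleton`), and it is not
trivial if `ψ'² ≠ 1`: for `𝔟 ⊆ 𝓞 K'`, `N_{L/K'}(𝔟 𝓞 L) = 𝔟²` and `N_{L/K}(𝔟 𝓞 L) = (N𝔟) 𝓞 K` is principal
(`Ideal.relNorm_algebraMap`, `Ideal.relNorm_algebraMap'` or: `𝔟 σ(𝔟) = (N𝔟)` and the nontrivial automorphism
of `L / K` restricts to `σ` on `K'`). -/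
def S_CH : Prop := ∀ (p p' : ℕ) (K K' L : Type) [Field K] [NumberField K] [Field K'] [NumberField K']
  [Field L] [NumberField L] [Algebra K L] [Algebra K' L], BQ p p' K K' L →
    ∀ (ψ : Ideal (𝓞 K) →*₀ ℂ) (ψ' : Ideal (𝓞 K') →*₀ ℂ), IsCl K ψ → IsCl K' ψ' →
      IsCl L (eta (L := L) ψ ψ') ∧ (NonTriv2 ψ' → NonTriv (eta (L := L) ψ ψ'))

/-- **FLD**: existence of the composite `L`; it is totally real, and `|discr L| ≤ 256 p² p'²` (the discriminant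
of the basis `1, √p, √p', √(pp')` is `256 p² p'²`). -/
def S_FLD : Prop := ∀ (p p' : ℕ) (K K' : Type) [Field K] [NumberField K] [Field K'] [NumberField K'],
  p.Prime → p'.Prime → p ≠ p' → QD p K → QD p' K' →
    ∃ (L : Type) (_ : Field L) (_ : NumberField L) (_ : Algebra K L) (_ : Algebra K' L),
      BQ p p' K K' L ∧ IsTotallyReal L ∧ |(discr L : ℝ)| ≤ 256 * (p : ℝ) ^ 2 * (p' : ℝ) ^ 2

/-- **REC**: `log N𝔞 = ∑_{𝔟 ∣ 𝔞} VM 𝔟`, so the coefficients of the Dirichlet series of a completely multiplicative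
function on the ideals satisfy the recurrence. -/
def S_REC : Prop := ∀ (F : Type) [Field F] [NumberField F] (η : Ideal (𝓞 F) →*₀ ℂ),
  IsCf (cc η) (fun n => ∑ᶠ 𝔞 ∈ {𝔞 : Ideal (𝓞 F) | Ideal.absNorm 𝔞 = n}, η 𝔞)

/-- **SPL**: if `p` is a square modulo the odd prime `q ∤ p` then `ℚ(√p)` has a prime ideal of norm `q`. -/
def S_SPL : Prop := ∀ (p q : ℕ) (K : Type) [Field K] [NumberField K], p.Prime → QD p K → Spl p q →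
  ∃ 𝔮 : Ideal (𝓞 K), Ideal.absNorm 𝔮 = q

/-- **ODD** (genus theory): the class number of `ℚ(√p)`, `p` prime, is odd.  If `c² = 1` then `σ(c) = c`
(`c σ(c) = 1`), `𝔞 = (α) σ(𝔞)`, `N(α) = ±1`; if `N(α) = -1` multiply by a unit of norm `-1` for `p = 2` or
`p ≡ 1 mod 4` (it exists); for `p ≡ 3 mod 4` this does not occur (`-1` is not a square mod `p`).  Hilbert 90:
`α = σ(β) / β`, `𝔞 β` is invariant, a product of a rational ideal and of ramified primes; these are principal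
(for the prime above `2`, `p ≡ 3 mod 4`: `ε = β / σ(β)` for the fundamental unit `ε`, which has norm `1`). -/
def S_ODD : Prop := ∀ (p : ℕ) (K : Type) [Field K] [NumberField K], p.Prime → QD p K →
  Odd (Nat.card (ClassGroup (𝓞 K)))

/-! ## The large sieve -/

/-- **EX**: existence and uniqueness of the coefficients (strong induction on `n`). -/
def S_EX : Prop := ∀ G : ℕ → ℂ, ∃! a : ℕ → ℂ, IsCf G a

/-- **SQF**: for squarefree `n` the coefficient is `∏_{q ∣ n} G q` (induction on `n`: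
`a n log n = ∑_{q ∣ n} log q G q a (n / q)`). -/
def S_SQF : Prop := ∀ G a : ℕ → ℂ, IsCf G a → ∀ n : ℕ, Squarefree n →
  a n = ∏ q ∈ n.primeFactors, G q

/-- **PSD**: the matrices `(a_ij(n))` are positive semidefinite (strong induction on `n`:
`log n · a_ij(n) = ∑_{d ∣ n} Λ(d) g_i(d) conj(g_j(d)) a_ij(n/d)`, and with `(a_ij)` also
`(g_i conj(g_j) a_ij)` is positive semidefinite). -/
def S_PSD : Prop := ∀ (ι : Type) [Fintype ι] (g : ι → ℕ → ℂ) (a : ι → ι → ℕ → ℂ),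
  (∀ i j, IsCf (fun d => g i d * (starRingEnd ℂ) (g j d)) (a i j)) → ∀ (u : ι → ℂ) (n : ℕ),
    0 ≤ (∑ i, ∑ j, u i * (starRingEnd ℂ) (u j) * a i j n).re

/-- **LS** (from `S_PSD`, `S_SQF`): the large sieve.  `S_i = ∑_{n ∈ S} ∏ g_i(q)`, `u_i = conj S_i`:
`∑ |S_i|² = ∑_{n ∈ S} ∑_i u_i ∏ g_i(q) ≤ (#S)^(1/2) (∑_{n ∈ S} |∑_i u_i ∏ g_i(q)|²)^(1/2)` and
`∑_{n ∈ S} |..|² = ∑_{n ∈ S} ∑_{i,j} u_i conj(u_j) a_ij(n) ≤ w₀⁻¹ ∑_{i,j} u_i conj(u_j) ∑_n w(n) a_ij(n) ≤ w₀⁻¹ Δ ∑ |u_i|²`. -/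
def S_LS : Prop := ∀ (ι : Type) [Fintype ι] (g : ι → ℕ → ℂ) (a : ι → ι → ℕ → ℂ),
  (∀ i j, IsCf (fun d => g i d * (starRingEnd ℂ) (g j d)) (a i j)) →
  ∀ w : ℕ → ℝ, (∀ n, 0 ≤ w n) → (∀ i j, Summable fun n => ((w n : ℝ) : ℂ) * a i j n) →
  ∀ Δ : ℝ, 0 ≤ Δ → (∀ i, ∑ j, ‖∑' n, ((w n : ℝ) : ℂ) * a i j n‖ ≤ Δ) →
  (∀ j, ∑ i, ‖∑' n, ((w n : ℝ) : ℂ) * a i j n‖ ≤ Δ) →
  ∀ (S : Finset ℕ) (w₀ : ℝ), 0 < w₀ → (∀ n ∈ S, Squarefree n ∧ w₀ ≤ w n) →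
    w₀ * ∑ i, ‖∑ n ∈ S, ∏ q ∈ n.primeFactors, g i q‖ ^ 2 ≤ Δ * S.card

/-- **BD**: `|a n| ≤ d₄(n)` by comparison with `ζ⁴` (`d₄ log = 4 Λ * d₄`), and the divisor bound. -/
def S_BD : Prop := ∀ ε : ℝ, 0 < ε → ∃ C : ℝ, 0 < C ∧ ∀ G a : ℕ → ℂ, IsCf G a → (∀ d, ‖G d‖ ≤ 4) →
  ∀ n : ℕ, 1 ≤ n → ‖a n‖ ≤ C * (n : ℝ) ^ ε

/-- **PAIR** (from `S_FLD`, `S_CH`, `S_MULT`, `S_REC`, `S_RES`, `S_EX`): take `ψ'' = cj ψ'`, `η = res (2 p p') (eta ψ ψ'')`;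
by uniqueness `a n = ∑_{N𝔞 = n} η 𝔞` (`cc (res M η) d = cc η d` for `d` prime to `M` and `= 0` otherwise, for prime powers
`d`; `conj (cc ψ' d) = cc (cj ψ') d`).  `|discr|² M ^ 8 ≤ 2 ^ 24 (p p') ^ 12`. -/
def S_PAIR : Prop := ∃ C : ℝ, 0 < C ∧ ∀ (p p' : ℕ) (K K' : Type) [Field K] [NumberField K]
  [Field K'] [NumberField K'], p.Prime → p'.Prime → p ≠ p' → QD p K → QD p' K' →
  ∀ (ψ : Ideal (𝓞 K) →*₀ ℂ) (ψ' : Ideal (𝓞 K') →*₀ ℂ), IsCl K ψ → IsCl K' ψ' → NonTriv2 ψ' →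
  ∀ a : ℕ → ℂ, IsCf (fun d => gg p ψ d * (starRingEnd ℂ) (gg p' ψ' d)) a → ∀ X : ℝ, 0 < X →
    ‖∑' n : ℕ, ((W ((n : ℝ) / X) : ℝ) : ℂ) * a n‖ ≤ C * ((p : ℝ) * p') ^ 12 / X

/-- **BAS** (from `S_PAIR`, `S_LS`, `S_BD`, `S_W`, `S_EX`, `S_SPL`): the basic inequality.  `S` is the set of the
products of `k` different elements of `Q`, `w n = W (n / X)` (`≥ w₀` for `1 ≤ n ≤ X`), `g_p = gg p ψ_p`
(`‖cc ψ d‖ ≤ 2`); for `p ∈ E` and `q ∈ Q`, `gg p ψ q` is the number of the prime ideals of norm `q` if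
`q ∤ 2 p` (`cc ψ q = ∑_{N𝔮 = q} ψ 𝔮`, part of `StDirK`, proved in `Y772/DK/Main.lean`), so it is `≥ 0`, and `≥ 1` if
`Spl p q`; so `S_p ≥ s.choose k`.  `Δ = C (X ^ (1 + ε) + #E x ^ 24 / X)`. -/
def S_BAS : Prop := ∀ ε : ℝ, 0 < ε → ∃ C : ℝ, 0 < C ∧ ∀ (x k s : ℕ) (X B : ℝ) (Q E : Finset ℕ),
  1 ≤ X → (∀ q ∈ Q, q.Prime ∧ (q : ℝ) ≤ B) → B ^ k ≤ X →
  (∀ p ∈ E, p.Prime ∧ p ≤ x ∧ Exc p B ∧ s ≤ {q ∈ (Q : Set ℕ) | Spl p q}.ncard) →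
    (E.card : ℝ) * (s.choose k : ℝ) ^ 2 ≤
      C * (X ^ (1 + ε) + E.card * (x : ℝ) ^ 24 / X) * (Q.card.choose k : ℝ)

/-- **LOW**: all but very few primes `p ≤ x` have many split primes `≤ (log x) ^ A` (from
`Pool.Agent.N614.SP.t_LOW : E_LOW`, see `Pool/Agent/N71/SP/Stm.lean`; `D = p` or `4 p` or `8`, `Q = ` all primes in
`(y, 2 y]`, `y = ⌊(log x) ^ A / 2⌋`). -/
def S_LOW : Prop := ∀ δ : ℝ, 0 < δ → ∃ A₀ : ℝ, 1 ≤ A₀ ∧ ∀ A : ℝ, A₀ ≤ A → ∃ C : ℝ, 0 < C ∧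
  ∃ x₀ : ℕ, 2 ≤ x₀ ∧ ∀ x : ℕ, x₀ ≤ x → ∃ Q : Finset ℕ, (∀ q ∈ Q, q.Prime ∧ (q : ℝ) ≤ (Real.log x) ^ A) ∧
    (Real.log x) ^ A ≤ C * (Q.card : ℝ) * Real.log (Real.log x + 2) ∧
    (({p ∈ Finset.Icc 1 x | p.Prime ∧
      ((100 : ℝ) * ({q ∈ (Q : Set ℕ) | Spl p q}.ncard : ℝ) < Q.card)} : Finset ℕ).card : ℝ) ≤
      C * (x : ℝ) ^ δ

/-- **CNT** (from `S_BAS`, `S_LOW`; parameters `A` large, `B = (log x) ^ A`, `k = ⌈25 log x / log B⌉`, `X = B ^ k`). -/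
def S_CNT : Prop := ∀ δ : ℝ, 0 < δ → ∃ A C : ℝ, 0 < A ∧ 0 < C ∧ ∀ x : ℕ, 2 ≤ x → ∀ E : Finset ℕ,
  (∀ p ∈ E, p.Prime ∧ p ≤ x ∧ Exc p ((Real.log x) ^ A)) → (E.card : ℝ) ≤ C * (x : ℝ) ^ δ

/-- **CHR** (from `S_ODD`): if the classes do not generate the class group, which has odd order, there is a character `ψ` of the
class group with `ψ² ≠ 1` that is trivial on them; extend it to the ideals. -/
def S_CHR : Prop := ∀ (p : ℕ) (B : ℝ), p.Prime → ¬ Gen p B → Exc p B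

/-- **FIN** (from `S_CNT`, `S_CHR`): the theorem. -/
def S_FIN : Prop := ∀ δ : ℝ, 0 < δ → ∃ A C : ℝ, 0 < A ∧ 0 < C ∧ ∀ x : ℕ, 1 ≤ x →
  ({p : ℕ | p.Prime ∧ p ≤ x ∧ ¬ Gen p ((Real.log p) ^ A)}.ncard : ℝ) ≤ C * (x : ℝ) ^ δ

end Pool.Agent.J4H78.GP
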