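import Pool.Agent.J4H78.GP.Stm
import Pool.Agent.Y772.DK.Cc

/-!
# Project GP (helper78): the part PAIR
-/

set_option autoImplicit false

open NumberField Complex Filter Topology MeasureTheory
open Pool.Agent.Y773 (VM cc hf FT PIdl gen)

namespace Pool.Agent.J4H78.GP

variable {K : Type} [Field K] [NumberField K]

lemma fib_finite (K : Type) [Field K] [NumberField K] (n : ℕ) :
    {𝔞 : Ideal (𝓞 K) | Ideal.absNorm 𝔞 = n}.Finite := Ideal.finite_setOfPred_absNorm_eq n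

lemma isCl_norm {η : Ideal (𝓞 K) →*₀ ℂ} (h : IsCl K η) (𝔞 : Ideal (𝓞 K)) : ‖η 𝔞‖ ≤ 1 := by
  by_cases h0 : 𝔞 = ⊥
  · rw [h0, ← Ideal.zero_eq_bot, map_zero, norm_zero]
    exact zero_le_one
  · have h1 : 𝔞 ∈ nonZeroDivisors (Ideal (𝓞 K)) := by
      rw [mem_nonZeroDivisors_iff_ne_zero]
      exact h0
    have h2 : (ClassGroup.mk0 (⟨𝔞, h1⟩ : nonZeroDivisors (Ideal (𝓞 K)))) ^
        Fintype.card (ClassGroup (𝓞 K)) = 1 := pow_card_eq_one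
    rw [← map_pow, ClassGroup.mk0_eq_one_iff] at h2
    obtain ⟨x, hx⟩ := h2.principal
    have hx' : 𝔞 ^ Fintype.card (ClassGroup (𝓞 K)) = Ideal.span {x} := by
      rw [← Ideal.submodule_span_eq, ← hx]
      rfl
    have hx0 : x ≠ 0 := by
      rintro rfl
      rw [Ideal.span_singleton_eq_bot.mpr rfl] at hx'
      exact h0 (pow_eq_zero_iff (Fintype.card_ne_zero) |>.mp hx')
    have h3 : η 𝔞 ^ Fintype.card (ClassGroup (𝓞 K)) = 1 := by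
      rw [← map_pow, hx', h x hx0]
    have h4 : ‖η 𝔞‖ ^ Fintype.card (ClassGroup (𝓞 K)) = 1 := by
      rw [← norm_pow, h3, norm_one]
    have h5 : ‖η 𝔞‖ = 1 := (pow_eq_one_iff_of_nonneg (norm_nonneg _) Fintype.card_ne_zero).mp h4
    exact h5.le

lemma res_norm {η : Ideal (𝓞 K) →*₀ ℂ} (h : ∀ 𝔞, ‖η 𝔞‖ ≤ 1) (M : ℕ) (𝔞 : Ideal (𝓞 K)) :
    ‖res M η 𝔞‖ ≤ 1 := by
  change ‖if (Ideal.absNorm 𝔞).Coprime M then η 𝔞 else 0‖ ≤ 1
  split_ifs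
  · exact h 𝔞
  · rw [norm_zero]
    exact zero_le_one

lemma res_apply (η : Ideal (𝓞 K) →*₀ ℂ) (M : ℕ) (𝔞 : Ideal (𝓞 K)) :
    res M η 𝔞 = if (Ideal.absNorm 𝔞).Coprime M then η 𝔞 else 0 := rfl

lemma cj_apply (η : Ideal (𝓞 K) →*₀ ℂ) (𝔞 : Ideal (𝓞 K)) : cj η 𝔞 = (starRingEnd ℂ) (η 𝔞) := rfl

lemma isCl_cj {η : Ideal (𝓞 K) →*₀ ℂ} (h : IsCl K η) : IsCl K (cj η) := by
  intro x hx
  rw [cj_apply, h x hx, map_one]

lemma nonTriv2_cj {η : Ideal (𝓞 K) →*₀ ℂ} (h : NonTriv2 η) : NonTriv2 (cj η) := by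
  obtain ⟨𝔞, h0, h1⟩ := h
  refine ⟨𝔞, h0, fun h2 => h1 ?_⟩
  rw [cj_apply, ← map_pow] at h2
  have h3 := congrArg (starRingEnd ℂ) h2
  rw [Complex.conj_conj, map_one] at h3
  exact h3

lemma cc_eq_sum (η : Ideal (𝓞 K) →*₀ ℂ) (n : ℕ) : cc η n =
    (∑ 𝔞 ∈ (fib_finite K n).toFinset, (VM 𝔞 : ℂ) * η 𝔞) /
      (ArithmeticFunction.vonMangoldt n : ℂ) := by
  unfold cc
  rw [finsum_mem_eq_finite_toFinset_sum _ (fib_finite K n)]

lemma cc_cj (η : Ideal (𝓞 K) →*₀ ℂ) (n : ℕ) : cc (cj η) n = (starRingEnd ℂ) (cc η n) := by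
  rw [cc_eq_sum, cc_eq_sum, map_div₀, map_sum, Complex.conj_ofReal]
  congr 1
  refine Finset.sum_congr rfl fun 𝔞 _ => ?_
  rw [map_mul, Complex.conj_ofReal, cj_apply]

lemma cc_res (η : Ideal (𝓞 K) →*₀ ℂ) (M n : ℕ) :
    cc (res M η) n = if n.Coprime M then cc η n else 0 := by
  rw [cc_eq_sum, cc_eq_sum]
  split_ifs with h
  · congr 1
    refine Finset.sum_congr rfl fun 𝔞 h1 => ?_
    rw [Set.Finite.mem_toFinset] at h1
    have h2 : Ideal.absNorm 𝔞 = n := h1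
    rw [res_apply, if_pos (by rw [h2]; exact h)]
  · rw [Finset.sum_eq_zero, zero_div]
    intro 𝔞 h1
    rw [Set.Finite.mem_toFinset] at h1
    have h2 : Ideal.absNorm 𝔞 = n := h1
    rw [res_apply, if_neg (by rw [h2]; exact h), mul_zero]

/-- `IsCf` depends only on the values at the prime powers -/
lemma isCf_congr {G G' a : ℕ → ℂ} (h : ∀ d, IsPrimePow d → G d = G' d) (ha : IsCf G a) :
    IsCf G' a := by
  refine ⟨ha.1, ha.2.1, fun n hn => ?_⟩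
  rw [ha.2.2 n hn]
  refine Finset.sum_congr rfl fun d _ => ?_
  by_cases hd : IsPrimePow d
  · rw [h d hd]
  · rw [ArithmeticFunction.vonMangoldt_eq_zero_iff.mpr hd]
    simp

lemma norm_W (hW : S_W) (u : ℝ) : ‖((W u : ℝ) : ℂ)‖ = W u := by
  rw [Complex.norm_real, Real.norm_of_nonneg (hW.1 u)]

lemma sum_ideal_W (hW : S_W) (hZB : S_ZB) {L : Type} [Field L] [NumberField L]
    (hL : Module.finrank ℚ L = 4) {η : Ideal (𝓞 L) →*₀ ℂ} (hη : ∀ 𝔞, ‖η 𝔞‖ ≤ 1) {X : ℝ} (hX : 0 < X) :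
    Summable fun 𝔞 : Ideal (𝓞 L) => η 𝔞 * ((W ((Ideal.absNorm 𝔞 : ℝ) / X) : ℝ) : ℂ) := by
  obtain ⟨C₀, hC₀, hZ⟩ := hZB
  obtain ⟨C, hC, hC2⟩ := hW.2.1 2 two_pos
  have h1 := (hZ L hL).1
  have h2 : Summable fun 𝔞 : Ideal (𝓞 L) =>
      Set.indicator {𝔞 : Ideal (𝓞 L) | 𝔞 ≠ ⊥} (fun 𝔞 => (Ideal.absNorm 𝔞 : ℝ) ^ (-2 : ℝ)) 𝔞 :=
    (summable_subtype_iff_indicator (f := fun 𝔞 : Ideal (𝓞 L) => (Ideal.absNorm 𝔞 : ℝ) ^ (-2 : ℝ))
      (s := {𝔞 : Ideal (𝓞 L) | 𝔞 ≠ ⊥})).mp h1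
  refine Summable.of_norm_bounded (h2.mul_left (C * X ^ (2 : ℝ))) fun 𝔞 => ?_
  by_cases h0 : 𝔞 = ⊥
  · rw [h0, ← Ideal.zero_eq_bot, map_zero, zero_mul, norm_zero]
    refine mul_nonneg (mul_nonneg hC.le (Real.rpow_nonneg hX.le _)) ?_
    exact Set.indicator_nonneg (fun _ _ => Real.rpow_nonneg (Nat.cast_nonneg _) _) _
  · have hN : 0 < (Ideal.absNorm 𝔞 : ℝ) := by
      have : Ideal.absNorm 𝔞 ≠ 0 := by rwa [Ne, Ideal.absNorm_eq_zero_iff]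
      exact_mod_cast Nat.pos_of_ne_zero this
    rw [norm_mul, norm_W hW, Set.indicator_of_mem (show 𝔞 ∈ {𝔞 : Ideal (𝓞 L) | 𝔞 ≠ ⊥} from h0)]
    have h3 := hC2 ((Ideal.absNorm 𝔞 : ℝ) / X) (by positivity)
    have h4 : ((Ideal.absNorm 𝔞 : ℝ) / X) ^ (-2 : ℝ) =
        X ^ (2 : ℝ) * (Ideal.absNorm 𝔞 : ℝ) ^ (-2 : ℝ) := by
      rw [Real.div_rpow hN.le hX.le, Real.rpow_neg hX.le, div_inv_eq_mul, mul_comm]
    calc ‖η 𝔞‖ * W ((Ideal.absNorm 𝔞 : ℝ) / X)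
        ≤ 1 * W ((Ideal.absNorm 𝔞 : ℝ) / X) := mul_le_mul_of_nonneg_right (hη 𝔞) (hW.1 _)
      _ = W ((Ideal.absNorm 𝔞 : ℝ) / X) := one_mul _
      _ ≤ C * ((Ideal.absNorm 𝔞 : ℝ) / X) ^ (-2 : ℝ) := h3
      _ = C * X ^ (2 : ℝ) * (Ideal.absNorm 𝔞 : ℝ) ^ (-2 : ℝ) := by rw [h4]; ring

/-- the sum over the ideals as a sum over the norms -/
lemma tsum_fib {L : Type} [Field L] [NumberField L] (η : Ideal (𝓞 L) →*₀ ℂ) (w : ℕ → ℂ)
    (h : Summable fun 𝔞 : Ideal (𝓞 L) => η 𝔞 * w (Ideal.absNorm 𝔞)) :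
    HasSum (fun n => w n * ∑ᶠ 𝔞 ∈ {𝔞 : Ideal (𝓞 L) | Ideal.absNorm 𝔞 = n}, η 𝔞)
      (∑' 𝔞 : Ideal (𝓞 L), η 𝔞 * w (Ideal.absNorm 𝔞)) := by
  have h1 := h.hasSum.tsum_fiberwise (fun 𝔞 => Ideal.absNorm 𝔞)
  have key : (fun n => w n * ∑ᶠ 𝔞 ∈ {𝔞 : Ideal (𝓞 L) | Ideal.absNorm 𝔞 = n}, η 𝔞) = fun n : ℕ =>
      ∑' b : ((fun 𝔞 : Ideal (𝓞 L) => Ideal.absNorm 𝔞) ⁻¹' {n} : Set (Ideal (𝓞 L))),
        η b.1 * w (Ideal.absNorm b.1) := by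
    funext n
    have h2 : ((fun 𝔞 : Ideal (𝓞 L) => Ideal.absNorm 𝔞) ⁻¹' {n}) =
        ((fib_finite L n).toFinset : Set (Ideal (𝓞 L))) := by
      ext 𝔞
      simp
    rw [finsum_mem_eq_finite_toFinset_sum _ (fib_finite L n), h2,
      Finset.tsum_subtype' (fib_finite L n).toFinset
        (fun b : Ideal (𝓞 L) => η b * w (Ideal.absNorm b)), Finset.mul_sum]
    refine Finset.sum_congr rfl fun 𝔞 h3 => ?_
    rw [Set.Finite.mem_toFinset] at h3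
    have h4 : Ideal.absNorm 𝔞 = n := h3
    rw [h4, mul_comm]
  rw [key]
  exact h1

theorem PAIR_of (hFLD : S_FLD) (hCH : S_CH) (hMULT : S_MULT) (hREC : S_REC) (hRES : S_RES)
    (hEX : S_EX) (hW : S_W) (hZB : S_ZB) : ∃ C : ℝ, 0 < C ∧ ∀ (p p' : ℕ) (K K' : Type) [Field K] [NumberField K]
  [Field K'] [NumberField K'], p.Prime → p'.Prime → p ≠ p' → QD p K → QD p' K' →
  ∀ (ψ : Ideal (𝓞 K) →*₀ ℂ) (ψ' : Ideal (𝓞 K') →*₀ ℂ), IsCl K ψ → IsCl K' ψ' → NonTriv2 ψ' →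
  ∀ a : ℕ → ℂ, IsCf (fun d => gg p ψ d * (starRingEnd ℂ) (gg p' ψ' d)) a → ∀ X : ℝ, 0 < X →
    (Summable fun n : ℕ => ((W ((n : ℝ) / X) : ℝ) : ℂ) * a n) ∧
    ‖∑' n : ℕ, ((W ((n : ℝ) / X) : ℝ) : ℂ) * a n‖ ≤ C * ((p : ℝ) * p') ^ 12 / X := by
  obtain ⟨C, hC, hR⟩ := hRES
  refine ⟨C * 2 ^ 24, by positivity, ?_⟩
  intro p p' K K' _ _ _ _ hp hp' hne hK hK' ψ ψ' hψ hψ' hnt a ha X hX
  obtain ⟨L, _, _, _, _, hBQ, hTR, hdisc⟩ := hFLD p p' K K' hp hp' hne hK hK'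
  have hη := hCH p p' K K' L hBQ ψ (cj ψ') hψ (isCl_cj hψ')
  set η := eta (L := L) ψ (cj ψ') with hηdef
  have hcl : IsCl L η := hη.1
  have hnt' : NonTriv η := hη.2 (nonTriv2_cj hnt)
  have hM : 1 ≤ 2 * p * p' := by
    have := hp.pos
    have := hp'.pos
    exact Nat.succ_le_of_lt (by positivity)
  have hb := hREC L (res (2 * p * p') η)
  have hb' : IsCf (fun d => gg p ψ d * (starRingEnd ℂ) (gg p' ψ' d))
      (fun n => ∑ᶠ 𝔞 ∈ {𝔞 : Ideal (𝓞 L) | Ideal.absNorm 𝔞 = n}, res (2 * p * p') η 𝔞) := by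
    refine isCf_congr (fun d hd => ?_) hb
    obtain ⟨q, r, hq, hr, rfl⟩ := hd
    have hq' : q.Prime := hq.nat_prime
    rw [cc_res]
    by_cases hdv : q ∣ 2 * p * p'
    · rw [if_neg]
      · have h1 : ¬ (q ^ r).Coprime (2 * p) ∨ ¬ (q ^ r).Coprime (2 * p') := by
          rcases (hq'.dvd_mul.mp hdv) with h2 | h2
          · left
            rw [Nat.coprime_pow_left_iff hr, hq'.coprime_iff_not_dvd]
            exact fun h3 => h3 h2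
          · right
            rw [Nat.coprime_pow_left_iff hr, hq'.coprime_iff_not_dvd]
            exact fun h3 => h3 (dvd_mul_of_dvd_right h2 2)
        rcases h1 with h2 | h2
        · simp only [gg]
          rw [if_neg h2, zero_mul]
        · simp only [gg]
          rw [if_neg h2, map_zero, mul_zero]
      · rw [Nat.coprime_pow_left_iff hr, hq'.coprime_iff_not_dvd]
        exact fun h3 => h3 hdv
    · rw [if_pos]
      · have h1 : (q ^ r).Coprime (2 * p) := by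
          rw [Nat.coprime_pow_left_iff hr, hq'.coprime_iff_not_dvd]
          exact fun h3 => hdv (dvd_mul_of_dvd_left h3 p')
        have h2 : (q ^ r).Coprime (2 * p') := by
          rw [Nat.coprime_pow_left_iff hr, hq'.coprime_iff_not_dvd]
          intro h3
          apply hdv
          rcases (hq'.dvd_mul.mp h3) with h4 | h4
          · exact dvd_mul_of_dvd_left (dvd_mul_of_dvd_left h4 p) p'
          · exact dvd_mul_of_dvd_right h4 _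
        simp only [gg]
        rw [if_pos h1, if_pos h2, ← cc_cj]
        exact hMULT p p' K K' L hBQ ψ (cj ψ') q r hq' hr hdv
      · rw [Nat.coprime_pow_left_iff hr, hq'.coprime_iff_not_dvd]
        exact hdv
  have hab : a = (fun n => ∑ᶠ 𝔞 ∈ {𝔞 : Ideal (𝓞 L) | Ideal.absNorm 𝔞 = n}, res (2 * p * p') η 𝔞) :=
    (hEX _).unique ha hb'
  have hsum := sum_ideal_W hW hZB hBQ.deg (res_norm (isCl_norm hcl) (2 * p * p')) hX
  have hfib := tsum_fib (res (2 * p * p') η) (fun n => ((W ((n : ℝ) / X) : ℝ) : ℂ)) hsum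
  rw [hab]
  refine ⟨hfib.summable, ?_⟩
  rw [hfib.tsum_eq]
  refine (hR L hBQ.deg η hcl hnt' (2 * p * p') hM X hX).trans ?_
  have hd2 : |(discr L : ℝ)| ^ 2 ≤ (256 * (p : ℝ) ^ 2 * (p' : ℝ) ^ 2) ^ 2 :=
    pow_le_pow_left₀ (abs_nonneg _) hdisc 2
  rw [div_le_div_iff_of_pos_right hX]
  push_cast
  calc C * |(discr L : ℝ)| ^ 2 * (2 * (p : ℝ) * p') ^ 8
      ≤ C * (256 * (p : ℝ) ^ 2 * (p' : ℝ) ^ 2) ^ 2 * (2 * (p : ℝ) * p') ^ 8 := by gcongr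
    _ = C * 2 ^ 24 * ((p : ℝ) * p') ^ 12 := by ring

theorem t_PAIR (hFLD : S_FLD) (hCH : S_CH) (hMULT : S_MULT) (hREC : S_REC) (hRES : S_RES)
    (hEX : S_EX) (hW : S_W) (hZB : S_ZB) : S_PAIR := by
  obtain ⟨C, hC, h⟩ := PAIR_of hFLD hCH hMULT hREC hRES hEX hW hZB
  exact ⟨C, hC, fun p p' K K' _ _ _ _ hp hp' hne hK hK' ψ ψ' hψ hψ' hnt a ha X hX =>
    (h p p' K K' hp hp' hne hK hK' ψ ψ' hψ hψ' hnt a ha X hX).2⟩

end Pool.Agent.J4H78.GP
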