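import Pool.Agent.J4H78.GP.Stm2

/-!
# Project GP, third part (helper78), row MP_d0fd9b_nt: explicit exponents

THEOREM.  Let `A > 1`, `η > 0`, `θ = 1/A + 2 η < 1`, `ε > 0`.  There is `c > 0` such that for every set `P` and all but
`C x ^ (2 θ / (1 - θ) + ε)` primes `p ≤ x`: `|∑_{N𝔮 ∈ P, N𝔮 ≤ y} χ(𝔮)| ≤ y ^ (1 - η)` for every character `χ ≠ 1` of the class
group of `ℚ(√p)` and all `(log p) ^ A ≤ y ≤ p ^ c`; and for dense `P` and all but `C x ^ (2 / (A - 1) + ε)` primes `p ≤ x`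
the products of `m ≥ C log p / log log p` classes of prime ideals of norm in `P` and `≤ (log p) ^ A` are
equidistributed in the class group.  So for almost all `p` the class group is generated by the primes
`≤ (log p) ^ (3 + ε)`.
-/

set_option autoImplicit false

open NumberField Complex Filter Topology MeasureTheory
open Pool.Agent.Y773 (VM cc)

namespace Pool.Agent.J4H78.GP

/-- **ZB3**: as `S_ZB`, for every `s > 1` (adapt `J4H57/GP/Zb.lean`; the sum is `≤ ζ(s) ^ 4`). -/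
def S_ZB3 : Prop := ∀ s : ℝ, 1 < s → ∃ C : ℝ, 0 < C ∧ ∀ (L : Type) [Field L] [NumberField L],
  Module.finrank ℚ L = 4 →
    (Summable fun 𝔞 : {𝔞 : Ideal (𝓞 L) // 𝔞 ≠ ⊥} => (Ideal.absNorm 𝔞.1 : ℝ) ^ (-s)) ∧
    ∑' 𝔞 : {𝔞 : Ideal (𝓞 L) // 𝔞 ≠ ⊥}, (Ideal.absNorm 𝔞.1 : ℝ) ^ (-s) ≤ C

/-- **T3** (from `S_W`, `S_UNF`, `S_FEB`, `S_ZB3`): as `S_T`, but keep the factor `|discr| ^ (-1/2)` and use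
`W u ≤ C u ^ (-s)` (adapt `J4H57/GP/T.lean`): `|T(X)| ≤ X |discr| ^ (-1/2) ∑_𝔞 W(N𝔞 X / |discr|)`. -/
def S_T3 : Prop := ∀ s : ℝ, 1 < s → ∃ C : ℝ, 0 < C ∧ ∀ (L : Type) [Field L] [NumberField L]
  [IsTotallyReal L], Module.finrank ℚ L = 4 → ∀ η : Ideal (𝓞 L) →*₀ ℂ, IsCl L η → NonTriv η →
    ∀ X : ℝ, 0 < X →
    ‖∑' 𝔞 : Ideal (𝓞 L), η 𝔞 * ((W ((Ideal.absNorm 𝔞 : ℝ) / X) : ℝ) : ℂ)‖ ≤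
      C * |(discr L : ℝ)| ^ (s - 1 / 2) * X ^ (1 - s)

/-- **RES3** (from `S_T3` with `s = 1 + ε`, `S_W`; adapt `J4H57/GP/Res.lean`): every prime ideal `𝔮 ∣ M` costs a factor
`1 + N𝔮 ^ ε ≤ 2 N𝔮 ^ ε`; there are at most `12` of them, and `∏ N𝔮 ≤ M ^ 4`; `X ^ (-ε) ≤ 1`. -/
def S_RES3 : Prop := ∀ ε : ℝ, 0 < ε → ∃ C : ℝ, 0 < C ∧ ∀ (L : Type) [Field L] [NumberField L]
  [IsTotallyReal L], Module.finrank ℚ L = 4 → ∀ η : Ideal (𝓞 L) →*₀ ℂ, IsCl L η → NonTriv η →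
    ∀ M : ℕ, 1 ≤ M → M.primeFactors.card ≤ 3 → ∀ X : ℝ, 1 ≤ X →
    ‖∑' 𝔞 : Ideal (𝓞 L), res M η 𝔞 * ((W ((Ideal.absNorm 𝔞 : ℝ) / X) : ℝ) : ℂ)‖ ≤
      C * |(discr L : ℝ)| ^ (1 / 2 + ε) * (M : ℝ) ^ (4 * ε)

/-- **PAIR3** (from `S_FLD`, `S_CH`, `S_MULT`, `S_REC`, `S_RES3`, `S_EX`, `S_W`, `S_ZB`): as `S_PAIR`. -/
def S_PAIR3 : Prop := ∀ ε : ℝ, 0 < ε → ∃ C : ℝ, 0 < C ∧ ∀ (p p' : ℕ) (K K' : Type) [Field K]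
  [NumberField K] [Field K'] [NumberField K'], p.Prime → p'.Prime → p ≠ p' → QD p K → QD p' K' →
  ∀ (ψ : Ideal (𝓞 K) →*₀ ℂ) (ψ' : Ideal (𝓞 K') →*₀ ℂ), IsCl K ψ → IsCl K' ψ' → NonTriv2 ψ' →
  ∀ a : ℕ → ℂ, IsCf (fun d => gg p ψ d * (starRingEnd ℂ) (gg p' ψ' d)) a → ∀ X : ℝ, 1 ≤ X →
    ‖∑' n : ℕ, ((W ((n : ℝ) / X) : ℝ) : ℂ) * a n‖ ≤ C * ((p : ℝ) * p') ^ (1 + ε)

/-- **BAS3** (from `S_PAIR3`, `S_LS2`, `S_BD`, `S_W`, `S_EX`): as `S_BAS2`. -/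
def S_BAS3 : Prop := ∀ ε : ℝ, 0 < ε → ∃ C : ℝ, 0 < C ∧ ∀ (x k : ℕ) (X B T : ℝ) (Q E : Finset ℕ),
  1 ≤ X → 0 ≤ T → (∀ q ∈ Q, q.Prime ∧ (q : ℝ) ≤ B) → B ^ k ≤ X →
  (∀ p ∈ E, p.Prime ∧ p ≤ x ∧ Big p Q T) →
    (E.card : ℝ) * T ^ (2 * k) ≤
      C * (X ^ (1 + ε) + E.card * (x : ℝ) ^ (2 + ε)) * (k.factorial * (Q.card : ℝ) ^ k)

/-- the exponent `2 θ / (1 - θ)`, `θ = 1/A + 2 η` -/
noncomputable def ex (A η : ℝ) : ℝ := 2 * (1 / A + 2 * η) / (1 - (1 / A + 2 * η))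

/-- **CNT3** (from `S_BAS3`; adapt `J4H57/GP/Cnt2.lean`).  Let `e > 0` be small.  For `p > x ^ e` and `x` large,
`y ≥ (e log x) ^ A`, so `log log x ≤ (1/A + e) log y`; `y ≤ x ^ c`, `c = e`.  For each such `y` let `X = y ^ k`,
`k = ⌈K log x / log y⌉`, `K = (2 + 2 e) / (1 - θ - 2 e)`, so `x ^ K ≤ X ≤ x ^ (K + c)`; `k ≤ log x`, so
`k! ≤ k ^ k ≤ (log x) ^ k ≤ X ^ (1/A + e)`; `#Q ≤ y`.  `S_BAS3` gives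
`#E_y X ^ (2 (1 - η)) ≤ C (X ^ (1 + e) + #E_y x ^ (2 + e)) X ^ (1 + 1/A + e)`, i.e.
`#E_y X ^ (1 - θ - e) ≤ C (X ^ (1 + e) + #E_y x ^ (2 + e))`; the last term is `≤` half of the left hand side, so
`#E_y ≤ 2 C X ^ (θ + 2 e) ≤ 2 C x ^ ((K + c) (θ + 2 e))`; sum over the `y ≤ x ^ c`. -/
def S_CNT3 : Prop := ∀ A η ε : ℝ, 1 < A → 0 < η → 1 / A + 2 * η < 1 → 0 < ε →
  ∃ c C : ℝ, 0 < c ∧ c < 1 ∧ 0 < C ∧ ∀ (P : Set ℕ) (x : ℕ), 1 ≤ x → ∀ E : Finset ℕ,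
    (∀ p ∈ E, p.Prime ∧ p ≤ x ∧ Bad P A η c p) → (E.card : ℝ) ≤ C * (x : ℝ) ^ (ex A η + ε)

/-- **LOW3** (from `E_LOW`; adapt `J4H2/GP/Low2.lean`): `C i! (3 y / #Q) ^ i ≤ x ^ (2/A' + 2 κ + o(1))` for
`y = ⌊(log x) ^ A' / 2⌋`, `i = ⌈2 log (8 x) / log (2 y)⌉`, `A'` slightly less than `A`; and `2/A < 2/(A - 1)`. -/
def S_LOW3 : Prop := ∀ A ε η : ℝ, 1 < A → 0 < ε → 0 < η → η < 1 → ∃ κ : ℝ, 0 < κ ∧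
  ∀ P : Set ℕ, Dense P κ → ∃ C : ℝ, 0 < C ∧ ∀ x : ℕ, 1 ≤ x →
    ({p : ℕ | p ≤ x ∧ p.Prime ∧ (({q : ℕ | q ∈ P ∧ Spl p q ∧ (q : ℝ) ≤ (Real.log p) ^ A}.ncard : ℕ) : ℝ) <
      ((Real.log p) ^ A) ^ (1 - η)}.ncard : ℝ) ≤ C * (x : ℝ) ^ (2 / (A - 1) + ε)

/-- **GAP3** (from `S_CNT3`, `S_ODD`; adapt `J4H57/GP/Gap.lean`): use `S_CNT3` with `A'` slightly less than `A`, `η'`
slightly larger than `η` and `ε / 2`, `ex A' η' ≤ ex A η + ε / 2` (continuity). -/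
def S_GAP3 : Prop := ∀ A η ε : ℝ, 1 < A → 0 < η → 1 / A + 2 * η < 1 → 0 < ε →
  ∃ c C : ℝ, 0 < c ∧ 0 < C ∧ ∀ (P : Set ℕ) (x : ℕ), 1 ≤ x →
    ({p : ℕ | p.Prime ∧ p ≤ x ∧ ¬ GA P A η c p}.ncard : ℝ) ≤ C * (x : ℝ) ^ (ex A η + ε)

/-- **FIN3** (from `S_GAP3`, `S_LOW3`, `S_HB`, `S_MIX`, `S_SPL`): as `S_FIN2`. -/
def S_FIN3 : Prop := ∀ A ε : ℝ, 1 < A → 0 < ε → ∃ κ : ℝ, 0 < κ ∧ ∀ P : Set ℕ, Dense P κ →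
  ∃ C : ℝ, 0 < C ∧ ∀ x : ℕ, 1 ≤ x →
    ({p : ℕ | p.Prime ∧ p ≤ x ∧ ¬ GB P A C p}.ncard : ℝ) ≤ C * (x : ℝ) ^ (2 / (A - 1) + ε)

end Pool.Agent.J4H78.GP
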