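import Pool.Agent.J4H78.GP.Stm2
import Pool.Agent.J4H57.GP.Gap

/-!
# Project GP (helper78): the part FIN2
-/

set_option autoImplicit false

open NumberField Filter Topology
open Pool.Agent.J4H57.GP (Sm_finite)

namespace Pool.Agent.J4H78.GP

lemma card_Sm (hSPL : S_SPL) (P : Set ℕ) {p : ℕ} {K : Type} [Field K] [NumberField K]
    (hp : p.Prime) (hK : QD p K) (B : ℝ) :
    {q : ℕ | q ∈ P ∧ Spl p q ∧ (q : ℝ) ≤ B}.ncard ≤ Nat.card (Sm P K B) := by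
  have hsub : {q : ℕ | q ∈ P ∧ Spl p q ∧ (q : ℝ) ≤ B} ⊆
      (fun 𝔮 : nonZeroDivisors (Ideal (𝓞 K)) => Ideal.absNorm (𝔮 : Ideal (𝓞 K))) ''
        (Sm P K B) := by
    rintro q ⟨hqP, hs, hqB⟩
    obtain ⟨𝔮, h𝔮⟩ := hSPL p q K hp hK hs
    have h0 : 𝔮 ≠ 0 := by
      rintro rfl
      rw [map_zero] at h𝔮
      exact hs.1.ne_zero h𝔮.symm
    refine ⟨⟨𝔮, mem_nonZeroDivisors_of_ne_zero h0⟩, ⟨?_, ?_, ?_⟩, h𝔮⟩
    · show (Ideal.absNorm 𝔮).Prime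
      rw [h𝔮]
      exact hs.1
    · show Ideal.absNorm 𝔮 ∈ P
      rw [h𝔮]
      exact hqP
    · show ((Ideal.absNorm 𝔮 : ℕ) : ℝ) ≤ B
      rw [h𝔮]
      exact hqB
  calc _ ≤ ((fun 𝔮 : nonZeroDivisors (Ideal (𝓞 K)) => Ideal.absNorm (𝔮 : Ideal (𝓞 K))) ''
        (Sm P K B)).ncard := Set.ncard_le_ncard hsub ((Sm_finite P K B).image _)
    _ ≤ (Sm P K B).ncard := Set.ncard_image_le (Sm_finite P K B)
    _ = Nat.card (Sm P K B) := (Nat.card_coe_set_eq _).symm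

lemma gb_of (hMIX : S_MIX) (hSPL : S_SPL) {P : Set ℕ} {A η c C CH : ℝ} {p : ℕ} (hp : p.Prime)
    (hA : 0 < A) (hη : 0 < η) (hη1 : η < 1)
    (hHB : ∀ (K : Type) [Field K] [NumberField K], QD p K →
      (Nat.card (ClassGroup (𝓞 K)) : ℝ) ≤ CH * (p : ℝ) ^ 2)
    (hCH : CH ≤ p) (hlog : 1 < Real.log p) (hrange : (Real.log p) ^ A ≤ (p : ℝ) ^ c)
    (hC : 8 / (A * η) ≤ C) (hGA : GA P A η c p)
    (hlow : ((Real.log p) ^ A) ^ (1 - η / 2) ≤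
      (({q : ℕ | q ∈ P ∧ Spl p q ∧ (q : ℝ) ≤ (Real.log p) ^ A}.ncard : ℕ) : ℝ)) : GB P A C p := by
  intro K _ _ hK
  set B : ℝ := (Real.log p) ^ A with hB
  have hlog0 : 0 < Real.log p := by linarith
  have hB0 : 0 < B := Real.rpow_pos_of_pos hlog0 _
  have hB1 : 1 ≤ B := Real.one_le_rpow hlog.le hA.le
  set N : ℕ := Nat.card (Sm P K B) with hN
  have hNB : B ^ (1 - η / 2) ≤ (N : ℝ) :=
    hlow.trans (by exact_mod_cast card_Sm hSPL P hp hK B)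
  have hN1 : (1 : ℝ) ≤ N := (Real.one_le_rpow hB1 (by linarith)).trans hNB
  refine ⟨by exact_mod_cast hN1, fun m hm z => ?_⟩
  have hfin : Finite (Sm P K B) := (Sm_finite P K B).to_subtype
  let hft : Fintype (Sm P K B) := Fintype.ofFinite _
  have hT : ∀ χ : ClassGroup (𝓞 K) →* ℂˣ, χ ≠ 1 →
      ‖∑ i : Sm P K B, ((χ (ClassGroup.mk0 i.1) : ℂˣ) : ℂ)‖ ≤ B ^ (1 - η) := by
    intro χ hχ
    have h1 := hGA K hK χ hχ B le_rfl hrange
    rw [← finsum_set_coe_eq_finsum_mem, finsum_eq_sum_of_fintype] at h1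
    exact h1
  have hmix := hMIX (ClassGroup (𝓞 K)) (Sm P K B) (fun i => ClassGroup.mk0 i.1) (B ^ (1 - η))
    (by positivity) hT m z
  have hcard : (Fintype.card (Sm P K B) : ℝ) = (N : ℝ) := by
    rw [hN, Nat.card_eq_fintype_card]
  rw [hcard] at hmix
  refine hmix.trans ?_
  -- the numbers
  have hp1 : (1 : ℝ) < p := by exact_mod_cast hp.one_lt
  have hp0 : (0 : ℝ) < p := by linarith
  have hll : 0 < Real.log (Real.log p) := Real.log_pos hlog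
  have hh : (Nat.card (ClassGroup (𝓞 K)) : ℝ) * p ≤ (p : ℝ) ^ 4 := by
    have h1 := hHB K hK
    calc (Nat.card (ClassGroup (𝓞 K)) : ℝ) * p ≤ (CH * (p : ℝ) ^ 2) * p := by gcongr
      _ ≤ (p * (p : ℝ) ^ 2) * p := by gcongr
      _ = (p : ℝ) ^ 4 := by ring
  have hq : (p : ℝ) ^ 4 ≤ (B ^ (η / 2)) ^ m := by
    have h1 : (p : ℝ) ^ 4 = Real.exp (4 * Real.log p) := by
      rw [mul_comm, Real.exp_mul, Real.exp_log hp0]
      norm_cast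
    have h2 : (B ^ (η / 2)) ^ m = Real.exp (Real.log (Real.log p) * A * (η / 2) * m) := by
      rw [hB, ← Real.rpow_natCast, ← Real.rpow_mul hlog0.le, ← Real.rpow_mul hlog0.le,
        Real.rpow_def_of_pos hlog0]
      ring_nf
    rw [h1, h2, Real.exp_le_exp]
    have h3 : 8 / (A * η) * Real.log p / Real.log (Real.log p) ≤ m := by
      refine le_trans ?_ hm
      gcongr
    have h4 : 0 < A * η := by positivity
    rw [div_mul_eq_mul_div, div_div, div_le_iff₀ (by positivity)] at h3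
    nlinarith
  have hpow : (B ^ (1 - η)) ^ m * (B ^ (η / 2)) ^ m ≤ (N : ℝ) ^ m := by
    rw [← mul_pow, ← Real.rpow_add hB0]
    refine pow_le_pow_left₀ (by positivity) ?_ m
    rw [show 1 - η + η / 2 = 1 - η / 2 by ring]
    exact hNB
  rw [le_div_iff₀ hp0]
  calc (Nat.card (ClassGroup (𝓞 K)) : ℝ) * (B ^ (1 - η)) ^ m * p
      = (B ^ (1 - η)) ^ m * ((Nat.card (ClassGroup (𝓞 K)) : ℝ) * p) := by ring
    _ ≤ (B ^ (1 - η)) ^ m * (B ^ (η / 2)) ^ m := by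
        refine mul_le_mul_of_nonneg_left (hh.trans hq) (by positivity)
    _ ≤ (N : ℝ) ^ m := hpow

theorem t_FIN2 (hGAP : S_GAP) (hLOW : S_LOW2) (hSPL : S_SPL) (hHB : S_HB) (hMIX : S_MIX) :
    S_FIN2 := by
  intro δ hδ
  obtain ⟨A₁, η, c, C₁, hA₁, hη, hη1, hc, hC₁, hG⟩ := hGAP δ hδ
  obtain ⟨κ, A₀, hκ, hA₀, hL⟩ := hLOW δ (η / 2) hδ (by linarith) (by linarith)
  obtain ⟨CH, hCH, hH⟩ := hHB
  set A : ℝ := max A₁ A₀ with hA
  have hA1 : 1 ≤ A := hA₁.trans (le_max_left _ _)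
  have hA0 : 0 < A := by linarith
  -- large primes
  obtain ⟨p₀, hp₀⟩ : ∃ p₀ : ℕ, ∀ p : ℕ, p₀ ≤ p → 1 < Real.log p ∧ CH ≤ p ∧
      (Real.log p) ^ A ≤ (p : ℝ) ^ c := by
    have h1 : ∀ᶠ p : ℕ in atTop, 1 < Real.log p :=
      (Real.tendsto_log_atTop.comp tendsto_natCast_atTop_atTop).eventually_gt_atTop 1
    have h2 : ∀ᶠ p : ℕ in atTop, CH ≤ (p : ℝ) := tendsto_natCast_atTop_atTop.eventually_ge_atTop CH
    have h3 : ∀ᶠ y : ℝ in atTop, (Real.log y) ^ A ≤ y ^ c := by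
      have h4 := (isLittleO_log_rpow_rpow_atTop A hc).bound one_pos
      filter_upwards [h4, eventually_ge_atTop (1 : ℝ)] with y hy hy1
      rw [one_mul, Real.norm_of_nonneg (Real.rpow_nonneg (Real.log_nonneg hy1) _),
        Real.norm_of_nonneg (Real.rpow_nonneg (by linarith) _)] at hy
      exact hy
    have h5 := tendsto_natCast_atTop_atTop.eventually h3
    exact eventually_atTop.mp (h1.and (h2.and h5))
  refine ⟨A, η, c, κ, hA0, hη, hc, hκ, fun P => ?_⟩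
  -- the constant of `LOW2`
  obtain ⟨C₂, hC₂, hL2⟩ : ∃ C₂ : ℝ, 0 < C₂ ∧ (Dense P κ → ∀ x : ℕ, 1 ≤ x →
      ({p : ℕ | p ≤ x ∧ p.Prime ∧
        (({q : ℕ | q ∈ P ∧ Spl p q ∧ (q : ℝ) ≤ (Real.log p) ^ A}.ncard : ℕ) : ℝ) <
        ((Real.log p) ^ A) ^ (1 - η / 2)}.ncard : ℝ) ≤ C₂ * (x : ℝ) ^ δ) := by
    by_cases hd : Dense P κ
    · obtain ⟨C₂, h1, h2⟩ := hL A (le_max_right _ _) P hd
      exact ⟨C₂, h1, fun _ => h2⟩
    · exact ⟨1, one_pos, fun h => absurd h hd⟩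
  set C : ℝ := p₀ + C₁ + C₂ + 8 / (A * η) with hCdef
  have hC0 : 0 < C := by positivity
  refine ⟨C, hC0, fun x hx => ?_⟩
  have hx1 : (1 : ℝ) ≤ x := by exact_mod_cast hx
  have hxδ : (1 : ℝ) ≤ (x : ℝ) ^ δ := Real.one_le_rpow hx1 hδ.le
  have hGA : ∀ p : ℕ, p₀ ≤ p → GA P A₁ η c p → GA P A η c p := by
    intro p hp h K _ _ hK χ hχ y hy hy2
    refine h K hK χ hχ y (le_trans ?_ hy) hy2
    exact Real.rpow_le_rpow_of_exponent_le (hp₀ p hp).1.le (le_max_left _ _)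
  have hfin1 : {p : ℕ | p.Prime ∧ p ≤ x ∧ ¬ GA P A₁ η c p}.Finite :=
    (Set.finite_Iic x).subset fun p hp => hp.2.1
  have hfin0 : (Set.Iio p₀ : Set ℕ).Finite := Set.finite_Iio p₀
  have hcard0 : (Set.Iio p₀ : Set ℕ).ncard = p₀ := by
    rw [← Finset.coe_Iio, Set.ncard_coe_finset, Nat.card_Iio]
  have hfin2 : {p : ℕ | p ≤ x ∧ p.Prime ∧
      (({q : ℕ | q ∈ P ∧ Spl p q ∧ (q : ℝ) ≤ (Real.log p) ^ A}.ncard : ℕ) : ℝ) <
      ((Real.log p) ^ A) ^ (1 - η / 2)}.Finite := (Set.finite_Iic x).subset fun p hp => hp.1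
  have hp₀x : (p₀ : ℝ) ≤ p₀ * (x : ℝ) ^ δ := le_mul_of_one_le_right (Nat.cast_nonneg _) hxδ
  have hG' := hG P x hx
  have hxpos : 0 < (x : ℝ) ^ δ := by linarith
  constructor
  · have hsub : {p : ℕ | p.Prime ∧ p ≤ x ∧ ¬ GA P A η c p} ⊆
        (Set.Iio p₀ : Set ℕ) ∪ {p : ℕ | p.Prime ∧ p ≤ x ∧ ¬ GA P A₁ η c p} := by
      intro p hp
      by_cases h1 : p < p₀
      · exact Or.inl h1
      · exact Or.inr ⟨hp.1, hp.2.1, fun h2 => hp.2.2 (hGA p (not_lt.mp h1) h2)⟩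
    have h1 := (Set.ncard_le_ncard hsub (hfin0.union hfin1)).trans (Set.ncard_union_le _ _)
    rw [hcard0] at h1
    calc ({p : ℕ | p.Prime ∧ p ≤ x ∧ ¬ GA P A η c p}.ncard : ℝ)
        ≤ (p₀ : ℝ) + ({p : ℕ | p.Prime ∧ p ≤ x ∧ ¬ GA P A₁ η c p}.ncard : ℝ) := by
          exact_mod_cast h1
      _ ≤ p₀ * (x : ℝ) ^ δ + C₁ * (x : ℝ) ^ δ := add_le_add hp₀x hG'
      _ ≤ C * (x : ℝ) ^ δ := by
          rw [hCdef]
          have h2 : 0 ≤ (C₂ + 8 / (A * η)) * (x : ℝ) ^ δ := by positivity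
          linarith
  · intro hd
    have hL3 := hL2 hd x hx
    have hsub : {p : ℕ | p.Prime ∧ p ≤ x ∧ ¬ GB P A C p} ⊆
        ((Set.Iio p₀ : Set ℕ) ∪ {p : ℕ | p.Prime ∧ p ≤ x ∧ ¬ GA P A₁ η c p}) ∪
          {p : ℕ | p ≤ x ∧ p.Prime ∧
          (({q : ℕ | q ∈ P ∧ Spl p q ∧ (q : ℝ) ≤ (Real.log p) ^ A}.ncard : ℕ) : ℝ) <
          ((Real.log p) ^ A) ^ (1 - η / 2)} := by
      intro p hp
      by_cases h1 : p < p₀
      · exact Or.inl (Or.inl h1)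
      · by_cases h2 : GA P A₁ η c p
        · by_cases h3 : (({q : ℕ | q ∈ P ∧ Spl p q ∧ (q : ℝ) ≤ (Real.log p) ^ A}.ncard : ℕ) : ℝ) <
              ((Real.log p) ^ A) ^ (1 - η / 2)
          · exact Or.inr ⟨hp.2.1, hp.1, h3⟩
          · exfalso
            apply hp.2.2
            obtain ⟨g1, g2, g3⟩ := hp₀ p (not_lt.mp h1)
            refine gb_of hMIX hSPL (CH := CH) hp.1 hA0 hη hη1 (fun K _ _ hK => hH p K hp.1 hK) g2 g1 g3 ?_
              (hGA p (not_lt.mp h1) h2) (not_lt.mp h3)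
            rw [hCdef]
            have : 0 ≤ (p₀ : ℝ) + C₁ + C₂ := by positivity
            linarith
        · exact Or.inl (Or.inr ⟨hp.1, hp.2.1, h2⟩)
    have h1 := (Set.ncard_le_ncard hsub ((hfin0.union hfin1).union hfin2)).trans
      ((Set.ncard_union_le _ _).trans (Nat.add_le_add_right (Set.ncard_union_le _ _) _))
    rw [hcard0] at h1
    calc ({p : ℕ | p.Prime ∧ p ≤ x ∧ ¬ GB P A C p}.ncard : ℝ)
        ≤ (p₀ : ℝ) + ({p : ℕ | p.Prime ∧ p ≤ x ∧ ¬ GA P A₁ η c p}.ncard : ℝ) +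
          ({p : ℕ | p ≤ x ∧ p.Prime ∧
          (({q : ℕ | q ∈ P ∧ Spl p q ∧ (q : ℝ) ≤ (Real.log p) ^ A}.ncard : ℕ) : ℝ) <
          ((Real.log p) ^ A) ^ (1 - η / 2)}.ncard : ℝ) := by exact_mod_cast h1
      _ ≤ p₀ * (x : ℝ) ^ δ + C₁ * (x : ℝ) ^ δ + C₂ * (x : ℝ) ^ δ :=
          add_le_add (add_le_add hp₀x hG') hL3
      _ ≤ C * (x : ℝ) ^ δ := by
          rw [hCdef]
          have h2 : 0 ≤ (8 / (A * η)) * (x : ℝ) ^ δ := by positivity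
          linarith

end Pool.Agent.J4H78.GP
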