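import Pool.Agent.J4H78.GP.Stm3
import Pool.Agent.J4H78.GP.Fin2

/-!
# Project GP (helper78): the part FIN3
-/

set_option autoImplicit false

open NumberField Filter Topology

namespace Pool.Agent.J4H78.GP

/-- a small `η` with `ex A η ≤ 2 / (A - 1) + ε` -/
lemma exists_eta {A ε : ℝ} (hA : 1 < A) (hε : 0 < ε) : ∃ η : ℝ, 0 < η ∧ η < 1 ∧
    1 / A + 2 * η < 1 ∧ ex A η ≤ 2 / (A - 1) + ε := by
  have hA0 : 0 < A := by linarith
  have h1 : 1 / A < 1 := by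
    rw [div_lt_one hA0]
    exact hA
  have hc : ContinuousAt (fun η : ℝ => ex A η) 0 := by
    unfold ex
    refine ContinuousAt.div (by fun_prop) (by fun_prop) ?_
    simp only [mul_zero, add_zero]
    linarith [h1]
  have h0 : ex A 0 = 2 / (A - 1) := by
    unfold ex
    have h2 : A - 1 ≠ 0 := by linarith
    have h3 : 1 - 1 / A ≠ 0 := by
      intro h
      linarith
    have h4 : 1 - (1 / A + 2 * 0) = (A - 1) / A := by
      field_simp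
      ring
    rw [h4]
    field_simp
    ring
  have h2 : ∀ᶠ η in 𝓝 (0 : ℝ), ex A η < 2 / (A - 1) + ε := by
    have := hc.eventually_lt continuousAt_const (show ex A 0 < 2 / (A - 1) + ε by rw [h0]; linarith)
    exact this
  have h3 : ∀ᶠ η in 𝓝 (0 : ℝ), 1 / A + 2 * η < 1 := by
    have h4 : ContinuousAt (fun η : ℝ => 1 / A + 2 * η) 0 := by fun_prop
    exact h4.eventually_lt continuousAt_const (by simpa using h1)
  have h5 : ∀ᶠ η in 𝓝 (0 : ℝ), η < 1 := eventually_lt_nhds one_pos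
  have h6 := ((h2.and (h3.and h5)).filter_mono nhdsWithin_le_nhds).and
    (self_mem_nhdsWithin : Set.Ioi (0 : ℝ) ∈ 𝓝[>] (0 : ℝ))
  obtain ⟨η, ⟨g1, g2, g3⟩, g4⟩ := h6.exists
  exact ⟨η, g4, g3, g2, g1.le⟩

theorem t_FIN3 (hGAP : S_GAP3) (hLOW : S_LOW3) (hSPL : S_SPL) (hHB : S_HB) (hMIX : S_MIX) :
    S_FIN3 := by
  intro A ε hA hε
  obtain ⟨η, hη, hη1, hθ, hex⟩ := exists_eta hA (half_pos hε)
  obtain ⟨c, C₁, hc, hC₁, hG⟩ := hGAP A η (ε / 2) hA hη hθ (half_pos hε)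
  obtain ⟨κ, hκ, hL⟩ := hLOW A ε (η / 2) hA hε (by linarith) (by linarith)
  obtain ⟨CH, hCH, hH⟩ := hHB
  have hA0 : 0 < A := by linarith
  -- large primes
  obtain ⟨p₀, hp₀⟩ : ∃ p₀ : ℕ, ∀ p : ℕ, p₀ ≤ p → 1 < Real.log p ∧ CH ≤ p ∧
      (Real.log p) ^ A ≤ (p : ℝ) ^ c := by
    have h1 : ∀ᶠ p : ℕ in atTop, 1 < Real.log p :=
      (Real.tendsto_log_atTop.comp tendsto_natCast_atTop_atTop).eventually_gt_atTop 1
    have h2 : ∀ᶠ p : ℕ in atTop, CH ≤ (p : ℝ) := tendsto_natCast_atTop_atTop.eventually_ge_atTop CH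
    have h3 : ∀ᶠ y : ℝ in atTop, (Real.log y) ^ A ≤ y ^ c := by
      have h4 := (isLittleO_log_rpow_rpow_atTop A hc).bound one_pos
      filter_upwards [h4, eventually_ge_atTop (1 : ℝ)] with y hy hy1
      rw [one_mul, Real.norm_of_nonneg (Real.rpow_nonneg (Real.log_nonneg hy1) _),
        Real.norm_of_nonneg (Real.rpow_nonneg (by linarith) _)] at hy
      exact hy
    have h5 := tendsto_natCast_atTop_atTop.eventually h3
    exact eventually_atTop.mp (h1.and (h2.and h5))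
  refine ⟨κ, hκ, fun P hd => ?_⟩
  obtain ⟨C₂, hC₂, hL2⟩ := hL P hd
  set C : ℝ := p₀ + C₁ + C₂ + 8 / (A * η) with hCdef
  have hC0 : 0 < C := by positivity
  refine ⟨C, hC0, fun x hx => ?_⟩
  set δ : ℝ := 2 / (A - 1) + ε with hδdef
  have hδ : 0 < δ := by
    have : 0 < A - 1 := by linarith
    positivity
  have hx1 : (1 : ℝ) ≤ x := by exact_mod_cast hx
  have hxδ : (1 : ℝ) ≤ (x : ℝ) ^ δ := Real.one_le_rpow hx1 hδ.le
  have hfin1 : {p : ℕ | p.Prime ∧ p ≤ x ∧ ¬ GA P A η c p}.Finite :=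
    (Set.finite_Iic x).subset fun p hp => hp.2.1
  have hfin0 : (Set.Iio p₀ : Set ℕ).Finite := Set.finite_Iio p₀
  have hcard0 : (Set.Iio p₀ : Set ℕ).ncard = p₀ := by
    rw [← Finset.coe_Iio, Set.ncard_coe_finset, Nat.card_Iio]
  have hfin2 : {p : ℕ | p ≤ x ∧ p.Prime ∧
      (({q : ℕ | q ∈ P ∧ Spl p q ∧ (q : ℝ) ≤ (Real.log p) ^ A}.ncard : ℕ) : ℝ) <
      ((Real.log p) ^ A) ^ (1 - η / 2)}.Finite := (Set.finite_Iic x).subset fun p hp => hp.1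
  have hp₀x : (p₀ : ℝ) ≤ p₀ * (x : ℝ) ^ δ := le_mul_of_one_le_right (Nat.cast_nonneg _) hxδ
  have hG' : ({p : ℕ | p.Prime ∧ p ≤ x ∧ ¬ GA P A η c p}.ncard : ℝ) ≤ C₁ * (x : ℝ) ^ δ := by
    refine (hG P x hx).trans (mul_le_mul_of_nonneg_left ?_ hC₁.le)
    exact Real.rpow_le_rpow_of_exponent_le hx1 (by rw [hδdef]; linarith)
  have hxpos : 0 < (x : ℝ) ^ δ := by linarith
  have hL3 := hL2 x hx
  have hsub : {p : ℕ | p.Prime ∧ p ≤ x ∧ ¬ GB P A C p} ⊆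
      ((Set.Iio p₀ : Set ℕ) ∪ {p : ℕ | p.Prime ∧ p ≤ x ∧ ¬ GA P A η c p}) ∪
        {p : ℕ | p ≤ x ∧ p.Prime ∧
        (({q : ℕ | q ∈ P ∧ Spl p q ∧ (q : ℝ) ≤ (Real.log p) ^ A}.ncard : ℕ) : ℝ) <
        ((Real.log p) ^ A) ^ (1 - η / 2)} := by
    intro p hp
    by_cases h1 : p < p₀
    · exact Or.inl (Or.inl h1)
    · by_cases h2 : GA P A η c p
      · by_cases h3 : (({q : ℕ | q ∈ P ∧ Spl p q ∧ (q : ℝ) ≤ (Real.log p) ^ A}.ncard : ℕ) : ℝ) <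
            ((Real.log p) ^ A) ^ (1 - η / 2)
        · exact Or.inr ⟨hp.2.1, hp.1, h3⟩
        · exfalso
          apply hp.2.2
          obtain ⟨g1, g2, g3⟩ := hp₀ p (not_lt.mp h1)
          refine gb_of hMIX hSPL (CH := CH) hp.1 hA0 hη hη1 (fun K _ _ hK => hH p K hp.1 hK) g2 g1
            g3 ?_ h2 (not_lt.mp h3)
          rw [hCdef]
          have : 0 ≤ (p₀ : ℝ) + C₁ + C₂ := by positivity
          linarith
      · exact Or.inl (Or.inr ⟨hp.1, hp.2.1, h2⟩)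
  have h1 := (Set.ncard_le_ncard hsub ((hfin0.union hfin1).union hfin2)).trans
    ((Set.ncard_union_le _ _).trans (Nat.add_le_add_right (Set.ncard_union_le _ _) _))
  rw [hcard0] at h1
  calc ({p : ℕ | p.Prime ∧ p ≤ x ∧ ¬ GB P A C p}.ncard : ℝ)
      ≤ (p₀ : ℝ) + ({p : ℕ | p.Prime ∧ p ≤ x ∧ ¬ GA P A η c p}.ncard : ℝ) +
        ({p : ℕ | p ≤ x ∧ p.Prime ∧
        (({q : ℕ | q ∈ P ∧ Spl p q ∧ (q : ℝ) ≤ (Real.log p) ^ A}.ncard : ℕ) : ℝ) <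
        ((Real.log p) ^ A) ^ (1 - η / 2)}.ncard : ℝ) := by exact_mod_cast h1
    _ ≤ p₀ * (x : ℝ) ^ δ + C₁ * (x : ℝ) ^ δ + C₂ * (x : ℝ) ^ δ :=
        add_le_add (add_le_add hp₀x hG') hL3
    _ ≤ C * (x : ℝ) ^ δ := by
        rw [hCdef]
        have h2 : 0 ≤ (8 / (A * η)) * (x : ℝ) ^ δ := by positivity
        linarith

end Pool.Agent.J4H78.GP
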