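import Pool.Agent.J4H78.GP.Stm3
import Pool.Agent.J4H57.GP.Gap

/-!
# Project GP (helper78): the part GAP3 (adapted from helper57's GAP)
-/

set_option autoImplicit false

open NumberField Filter Topology
open Pool.Agent.J4H57.GP (isCl_ext nonTriv2_ext sum_Sm gg_diff)
open Pool.Agent.J4H21.GP (ext)
open Pool.Agent.Y773 (VM cc)

namespace Pool.Agent.J4H78.GP

/-- the analytic part -/
theorem num3 {η e : ℝ} (he : 0 < e) (h1 : η + e < 1) {y : ℝ} (hy : 3 ^ (1 / e) ≤ y) :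
    (⌊y⌋₊ : ℝ) ^ (1 - (η + e)) + 2 ≤ y ^ (1 - η) := by
  have hy1 : (1 : ℝ) ≤ y := le_trans (Real.one_le_rpow (by norm_num) (by positivity)) hy
  have hy0 : 0 < y := by linarith
  have h2 : 3 ≤ y ^ e := by
    have h3 : (3 ^ (1 / e) : ℝ) ^ e ≤ y ^ e :=
      Real.rpow_le_rpow (by positivity) hy he.le
    rw [← Real.rpow_mul (by norm_num)] at h3
    have h4 : 1 / e * e = 1 := by field_simp
    rwa [h4, Real.rpow_one] at h3
  have h3 : (⌊y⌋₊ : ℝ) ^ (1 - (η + e)) ≤ y ^ (1 - (η + e)) :=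
    Real.rpow_le_rpow (Nat.cast_nonneg _) (Nat.floor_le hy0.le) (by linarith)
  have h4 : 1 ≤ y ^ (1 - (η + e)) := Real.one_le_rpow hy1 (by linarith)
  have h5 : y ^ (1 - η) = y ^ (1 - (η + e)) * y ^ e := by
    rw [← Real.rpow_add hy0]
    congr 1
    ring
  rw [h5]
  nlinarith

lemma exists_e {A η ε : ℝ} (hA : 1 < A) (hθ : 1 / A + 2 * η < 1) (hε : 0 < ε) :
    ∃ e : ℝ, 0 < e ∧ 1 < A - e ∧ 1 / (A - e) + 2 * (η + e) < 1 ∧
      ex (A - e) (η + e) ≤ ex A η + ε := by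
  have hA0 : 0 < A := by linarith
  have hd : ContinuousAt (fun e : ℝ => 1 / (A - e)) 0 := by
    refine ContinuousAt.div (by fun_prop) (by fun_prop) ?_
    simp only [sub_zero]
    exact hA0.ne'
  have h1 : ContinuousAt (fun e : ℝ => 1 / (A - e) + 2 * (η + e)) 0 :=
    hd.add (by fun_prop)
  have hc : ContinuousAt (fun e : ℝ => ex (A - e) (η + e)) 0 := by
    unfold ex
    refine ContinuousAt.div (continuousAt_const.mul h1) (continuousAt_const.sub h1) ?_
    simp only [sub_zero, add_zero]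
    linarith
  have g1 : ∀ᶠ e in 𝓝 (0 : ℝ), ex (A - e) (η + e) < ex A η + ε :=
    hc.eventually_lt continuousAt_const (by simp only [sub_zero, add_zero]; linarith)
  have g2 : ∀ᶠ e in 𝓝 (0 : ℝ), 1 / (A - e) + 2 * (η + e) < 1 :=
    h1.eventually_lt continuousAt_const (by simpa using hθ)
  have g3 : ∀ᶠ e in 𝓝 (0 : ℝ), 1 < A - e := by
    have h4 : ContinuousAt (fun e : ℝ => A - e) 0 := by fun_prop
    exact continuousAt_const.eventually_lt h4 (by simpa using hA)
  have h6 := ((g1.and (g2.and g3)).filter_mono nhdsWithin_le_nhds).and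
    (self_mem_nhdsWithin : Set.Ioi (0 : ℝ) ∈ 𝓝[>] (0 : ℝ))
  obtain ⟨e, ⟨k1, k2, k3⟩, k4⟩ := h6.exists
  exact ⟨e, k4, k3, k2, k1.le⟩

/-- **GAP3** -/
theorem t_GAP3 (hC : S_CNT3) (hODD : S_ODD) : S_GAP3 := by
  intro A η ε hA hη hθ hε
  obtain ⟨e, he, hAe, hθe, hex⟩ := exists_e hA hθ (half_pos hε)
  have hA0 : 0 < A := by linarith
  have hη2 : η + e < 1 := by
    have : 0 < 1 / (A - e) := by positivity
    linarith
  obtain ⟨c, C, hc, hc1, hC0, h⟩ := hC (A - e) (η + e) (ε / 2) hAe (by linarith) hθe (half_pos hε)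
  obtain ⟨p₀, hp₀⟩ : ∃ p₀ : ℕ, ∀ p : ℕ, p₀ ≤ p → 3 ^ (1 / e) ≤ Real.log p :=
    Filter.eventually_atTop.mp ((Real.tendsto_log_atTop.comp
      tendsto_natCast_atTop_atTop).eventually_ge_atTop (3 ^ (1 / e)))
  refine ⟨c, p₀ + C, hc, by positivity, ?_⟩
  intro P x hx
  classical
  set S : Set ℕ := {p : ℕ | p.Prime ∧ p ≤ x ∧ ¬ GA P A η c p} with hS
  have hSfin : S.Finite := (Set.finite_Iic x).subset fun p hp => hp.2.1
  have key : ∀ p ∈ S, p₀ ≤ p → Bad P (A - e) (η + e) c p := by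
    intro p hp hp0
    have hl := hp₀ p hp0
    have hp1 := hp.1
    have hG := hp.2.2
    unfold GA at hG
    push Not at hG
    obtain ⟨K, iF, iN, hK, χ, hχ, y, hy1, hy2, hy3⟩ := hG
    have h3 : (1 : ℝ) ≤ 3 ^ (1 / e) := Real.one_le_rpow (by norm_num) (by positivity)
    have hl1 : 1 ≤ Real.log p := by linarith
    have hl0 : 0 < Real.log p := by linarith
    have hly : Real.log p ≤ y := by
      calc Real.log p = (Real.log p) ^ (1 : ℝ) := (Real.rpow_one _).symm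
        _ ≤ (Real.log p) ^ A := Real.rpow_le_rpow_of_exponent_le hl1 hA.le
        _ ≤ y := hy1
    have hy0 : 0 < y := by linarith
    have hfl : (⌊y⌋₊ : ℝ) ≤ y := Nat.floor_le hy0.le
    have hpr : (1 : ℝ) < p := by exact_mod_cast hp1.one_lt
    have hlt : ⌊y⌋₊ < p := by
      have h4 : (p : ℝ) ^ c < p := by
        calc (p : ℝ) ^ c < (p : ℝ) ^ (1 : ℝ) := Real.rpow_lt_rpow_of_exponent_lt hpr hc1
          _ = p := Real.rpow_one _
      have h5 : (⌊y⌋₊ : ℝ) < p := by linarith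
      exact_mod_cast h5
    refine ⟨⌊y⌋₊, ?_, by linarith, K, iF, iN, hK, ext χ, isCl_ext χ,
      nonTriv2_ext (hODD p K hp1 hK) hχ, ?_⟩
    · have h4 : y < ⌊y⌋₊ + 1 := Nat.lt_floor_add_one y
      have h5 : (Real.log p) ^ A = (Real.log p) ^ (A - e) * (Real.log p) ^ e := by
        rw [← Real.rpow_add hl0]
        congr 1
        ring
      have h6 : 1 ≤ (Real.log p) ^ (A - e) := Real.one_le_rpow hl1 (by linarith)
      have h7 : 3 ≤ (Real.log p) ^ e := by
        have h8 : (3 ^ (1 / e) : ℝ) ^ e ≤ (Real.log p) ^ e :=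
          Real.rpow_le_rpow (by positivity) hl he.le
        rw [← Real.rpow_mul (by norm_num)] at h8
        have h9 : 1 / e * e = 1 := by field_simp
        rwa [h9, Real.rpow_one] at h8
      rw [h5] at hy1
      nlinarith
    · have h4 := num3 (η := η) he hη2 (y := y) (by linarith)
      rw [sum_Sm χ P hy0.le] at hy3
      have h5 := gg_diff hK.deg χ P hp1 hlt
      linarith
  have h1 : S ⊆ (Set.Iio p₀) ∪ {p ∈ S | Bad P (A - e) (η + e) c p} := by
    intro p hp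
    by_cases h2 : p₀ ≤ p
    · exact Or.inr ⟨hp, key p hp h2⟩
    · exact Or.inl (not_le.mp h2)
  have hfin2 : {p ∈ S | Bad P (A - e) (η + e) c p}.Finite := hSfin.subset fun p hp => hp.1
  have h2 : S.ncard ≤ p₀ + hfin2.toFinset.card := by
    calc S.ncard ≤ ((Set.Iio p₀) ∪ {p ∈ S | Bad P (A - e) (η + e) c p}).ncard :=
          Set.ncard_le_ncard h1 ((Set.finite_Iio p₀).union hfin2)
      _ ≤ (Set.Iio p₀).ncard + {p ∈ S | Bad P (A - e) (η + e) c p}.ncard :=
          Set.ncard_union_le _ _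
      _ = p₀ + hfin2.toFinset.card := by
          rw [Set.ncard_eq_toFinset_card _ hfin2]
          congr 1
          rw [← Nat.card_coe_set_eq]
          simp
  have h3 := h P x hx hfin2.toFinset (by
    intro p hp
    rw [Set.Finite.mem_toFinset] at hp
    exact ⟨hp.1.1, hp.1.2.1, hp.2⟩)
  have hx1' : (1 : ℝ) ≤ x := by exact_mod_cast hx
  have hexp : (x : ℝ) ^ (ex (A - e) (η + e) + ε / 2) ≤ (x : ℝ) ^ (ex A η + ε) :=
    Real.rpow_le_rpow_of_exponent_le hx1' (by linarith)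
  have hpos : 0 ≤ ex A η + ε := by
    unfold ex
    have h5 : 0 < 1 - (1 / A + 2 * η) := by linarith
    positivity
  have hx1 : 1 ≤ (x : ℝ) ^ (ex A η + ε) := Real.one_le_rpow hx1' hpos
  calc (S.ncard : ℝ) ≤ ((p₀ + hfin2.toFinset.card : ℕ) : ℝ) := by exact_mod_cast h2
    _ = p₀ + (hfin2.toFinset.card : ℝ) := by push_cast; rfl
    _ ≤ p₀ * (x : ℝ) ^ (ex A η + ε) + C * (x : ℝ) ^ (ex A η + ε) := by
        have h6 : (p₀ : ℝ) ≤ p₀ * (x : ℝ) ^ (ex A η + ε) :=
          le_mul_of_one_le_right (Nat.cast_nonneg _) hx1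
        have h7 := mul_le_mul_of_nonneg_left hexp hC0.le
        linarith
    _ = _ := by ring

end Pool.Agent.J4H78.GP
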