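import Pool.Agent.J4H78.GP.Pair

/-!
# Project GP (helper78): the part LOC
-/

set_option autoImplicit false

open NumberField

namespace Pool.Agent.J4H78.GP

open Pool.Agent.Y773 (VM cc)
open Pool.Agent.Y772.DK (below norm_over deg_pos pp_norm cc_mul NN NN_finite VM_pow VM_of_not)

section
variable {F : Type} [Field F] [NumberField F] {q r : ℕ} [hqf : Fact q.Prime]

lemma finite_hom : Finite (𝓞 F →+* GaloisField q r) := by
  refine Finite.of_injective
    (fun φ : 𝓞 F →+* GaloisField q r => fun i => φ (RingOfIntegers.basis F i)) ?_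
  intro φ ψ h
  have h1 : φ.toAddMonoidHom.toIntLinearMap = ψ.toAddMonoidHom.toIntLinearMap :=
    (RingOfIntegers.basis F).ext fun i => congrFun h i
  ext x
  exact LinearMap.congr_fun h1 x

lemma charP_quot {𝔔 : Ideal (𝓞 F)} (hne : 𝔔 ≠ ⊤) (h : ((q : ℕ) : 𝓞 F) ∈ 𝔔) : CharP (𝓞 F ⧸ 𝔔) q := by
  have : Nontrivial (𝓞 F ⧸ 𝔔) := Ideal.Quotient.nontrivial_iff.mpr hne
  refine (CharP.charP_iff_prime_eq_zero hqf.out).mpr ?_
  rw [← map_natCast (Ideal.Quotient.mk 𝔔), Ideal.Quotient.eq_zero_iff_mem]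
  exact h

/-- the ring homomorphisms with kernel `𝔔` -/
noncomputable def kerEquiv (𝔔 : Ideal (𝓞 F)) [𝔔.IsMaximal] :
    {φ : 𝓞 F →+* GaloisField q r // RingHom.ker φ = 𝔔} ≃ (𝓞 F ⧸ 𝔔 →+* GaloisField q r) where
  toFun φ := Ideal.Quotient.lift 𝔔 φ.1 (fun a ha => by
    have h := φ.2
    rw [← h] at ha
    exact ha)
  invFun g := ⟨g.comp (Ideal.Quotient.mk 𝔔), by
    letI := Ideal.Quotient.field 𝔔
    ext x
    rw [RingHom.mem_ker, RingHom.comp_apply, map_eq_zero_iff g g.injective,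
      Ideal.Quotient.eq_zero_iff_mem]⟩
  left_inv φ := by
    apply Subtype.ext
    ext x
    rfl
  right_inv g := by
    ext x
    rfl

lemma mem_ker_q (φ : 𝓞 F →+* GaloisField q r) : ((q : ℕ) : 𝓞 F) ∈ RingHom.ker φ := by
  rw [RingHom.mem_ker, map_natCast]
  exact CharP.cast_eq_zero _ q

lemma ker_ne_bot (φ : 𝓞 F →+* GaloisField q r) : RingHom.ker φ ≠ ⊥ := by
  intro h
  have h1 := mem_ker_q φ
  rw [h, Ideal.mem_bot] at h1
  exact (Nat.cast_ne_zero.mpr hqf.out.ne_zero) h1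

lemma ker_max (φ : 𝓞 F →+* GaloisField q r) : (RingHom.ker φ).IsMaximal :=
  (RingHom.ker_isPrime φ).isMaximal (ker_ne_bot φ)

/-- the number of the homomorphisms with kernel `𝔔` -/
lemma card_ker (hr : 1 ≤ r) {𝔔 : Ideal (𝓞 F)} (hmax : 𝔔.IsMaximal) (hq : ((q : ℕ) : 𝓞 F) ∈ 𝔔)
    {f : ℕ} (hf : Ideal.absNorm 𝔔 = q ^ f) :
    (Nonempty {φ : 𝓞 F →+* GaloisField q r // RingHom.ker φ = 𝔔} → f ∣ r) ∧
    (f ∣ r → Nat.card {φ : 𝓞 F →+* GaloisField q r // RingHom.ker φ = 𝔔} = f) := by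
  have hch : CharP (𝓞 F ⧸ 𝔔) q := charP_quot hmax.ne_top hq
  letI := Ideal.Quotient.field 𝔔
  letI : Algebra (ZMod q) (𝓞 F ⧸ 𝔔) := ZMod.algebra _ q
  have h𝔔0 : 𝔔 ≠ ⊥ := by
    rintro rfl
    rw [Ideal.mem_bot] at hq
    exact (Nat.cast_ne_zero.mpr hqf.out.ne_zero) hq
  have hfin : Finite (𝓞 F ⧸ 𝔔) := Ideal.finiteQuotientOfFreeOfNeBot 𝔔 h𝔔0
  have hcard : Nat.card (𝓞 F ⧸ 𝔔) = q ^ f := by
    rw [← hf]
    rfl
  have hfr : Module.finrank (ZMod q) (𝓞 F ⧸ 𝔔) = f := by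
    have h1 := FiniteField.pow_finrank_eq_natCard q (𝓞 F ⧸ 𝔔)
    rw [hcard] at h1
    exact Nat.pow_right_injective hqf.out.two_le h1
  have hkr : Module.finrank (ZMod q) (GaloisField q r) = r := GaloisField.finrank q (by omega)
  have e : {φ : 𝓞 F →+* GaloisField q r // RingHom.ker φ = 𝔔} ≃
      (𝓞 F ⧸ 𝔔 →ₐ[ZMod q] GaloisField q r) :=
    (kerEquiv 𝔔).trans
      { toFun := fun g => { g with commutes' := fun x => RingHom.congr_fun (Subsingleton.elim
          (g.comp (algebraMap (ZMod q) (𝓞 F ⧸ 𝔔))) (algebraMap (ZMod q) (GaloisField q r))) x }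
        invFun := fun g => g.toRingHom
        left_inv := fun g => rfl
        right_inv := fun g => rfl }
  constructor
  · rintro ⟨x⟩
    have h1 := FiniteField.nonempty_algHom_iff_finrank_dvd.mp ⟨e x⟩
    rwa [hfr, hkr] at h1
  · intro hdvd
    rw [Nat.card_congr e, FiniteField.natCard_algHom_of_finrank_dvd (by rw [hfr, hkr]; exact hdvd), hfr]

lemma prime_norm {𝔔 : Ideal (𝓞 F)} (h : Prime 𝔔) (hq : ((q : ℕ) : 𝓞 F) ∈ 𝔔) :
    ∃ f : ℕ, f ≠ 0 ∧ Ideal.absNorm 𝔔 = q ^ f := by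
  obtain ⟨p, hp, hP⟩ := below h
  have h1 := norm_over hp hP
  have h2 := deg_pos hp h hP
  have h3 : p = q := by
    have h4 : Ideal.absNorm 𝔔 ∣ Ideal.absNorm (Ideal.span {((q : ℕ) : 𝓞 F)}) :=
      Ideal.absNorm_dvd_absNorm_of_le ((Ideal.span_singleton_le_iff_mem _).mpr hq)
    rw [Ideal.absNorm_span_natCast] at h4
    have h5 : p ∣ q ^ (Module.finrank ℤ (𝓞 F)) := by
      refine dvd_trans ?_ h4
      rw [h1]
      exact dvd_pow_self p h2
    exact (Nat.prime_dvd_prime_iff_eq hp hqf.out).mp (hp.dvd_of_dvd_pow h5)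
  subst h3
  exact ⟨_, h2, h1⟩

lemma mem_of_norm {𝔔 : Ideal (𝓞 F)} (h : Prime 𝔔) {f : ℕ} (hf : f ≠ 0) (h1 : Ideal.absNorm 𝔔 = q ^ f) :
    ((q : ℕ) : 𝓞 F) ∈ 𝔔 := by
  have h2 := Ideal.absNorm_mem 𝔔
  rw [h1, Nat.cast_pow] at h2
  exact (Ideal.isPrime_of_prime h).mem_of_pow_mem _ h2

end

theorem t_LOC : S_LOC := by
  intro F _ _ η q r hqf hr
  classical
  have hfinite : Finite (𝓞 F →+* GaloisField q r) := finite_hom
  refine ⟨hfinite, ?_⟩
  have hq : q.Prime := hqf.out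
  letI : Fintype (𝓞 F →+* GaloisField q r) := Fintype.ofFinite _
  rw [finsum_eq_sum_of_fintype]
  set S : Finset (Ideal (𝓞 F)) := (NN_finite (K := F) (q ^ r)).toFinset.filter IsPrimePow with hS
  -- the kernel
  have hker : ∀ φ : 𝓞 F →+* GaloisField q r, Prime (RingHom.ker φ) ∧ ∃ f : ℕ, f ≠ 0 ∧
      Ideal.absNorm (RingHom.ker φ) = q ^ f ∧ f ∣ r := by
    intro φ
    have h1 : Prime (RingHom.ker φ) := Ideal.prime_of_isPrime (ker_ne_bot φ) (RingHom.ker_isPrime φ)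
    obtain ⟨f, hf, h2⟩ := prime_norm (q := q) h1 (mem_ker_q φ)
    exact ⟨h1, f, hf, h2, (card_ker hr (ker_max φ) (mem_ker_q φ) h2).1 ⟨⟨φ, rfl⟩⟩⟩
  set Φ : (𝓞 F →+* GaloisField q r) → Ideal (𝓞 F) :=
    fun φ => (RingHom.ker φ) ^ (r / Nat.log q (Ideal.absNorm (RingHom.ker φ))) with hΦ
  have hΦS : ∀ φ ∈ (Finset.univ : Finset (𝓞 F →+* GaloisField q r)), Φ φ ∈ S := by
    intro φ _
    obtain ⟨h1, f, hf, h2, h3⟩ := hker φ
    rw [hS, Finset.mem_filter, Set.Finite.mem_toFinset]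
    have h4 : r / Nat.log q (Ideal.absNorm (RingHom.ker φ)) = r / f := by
      rw [h2, Nat.log_pow hq.one_lt]
    have h5 : r / f ≠ 0 := by
      obtain ⟨c, rfl⟩ := h3
      rw [Nat.mul_div_cancel_left _ (Nat.pos_of_ne_zero hf)]
      rintro rfl
      omega
    constructor
    · show Ideal.absNorm (Φ φ) = q ^ r
      rw [hΦ]
      simp only
      rw [h4, map_pow, h2, ← pow_mul, Nat.mul_div_cancel' h3]
    · rw [hΦ]
      simp only
      rw [h4]
      exact h1.isPrimePow.pow h5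
  have hLHS : cc η (q ^ r) * (Real.log q : ℂ) = ∑ 𝔞 ∈ S, (VM 𝔞 : ℂ) * η 𝔞 := by
    have h1 := cc_mul η (q ^ r)
    rw [ArithmeticFunction.vonMangoldt_apply_pow (by omega : r ≠ 0),
      ArithmeticFunction.vonMangoldt_apply_prime hq] at h1
    rw [h1, finsum_mem_eq_finite_toFinset_sum _ (NN_finite (q ^ r)), hS, Finset.sum_filter]
    refine Finset.sum_congr rfl fun 𝔞 _ => ?_
    split_ifs with h2
    · rfl
    · rw [VM_of_not h2]
      simp
  have hlog : (Real.log q : ℂ) ≠ 0 := by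
    have : (1 : ℝ) < q := by exact_mod_cast hq.one_lt
    exact_mod_cast (Real.log_pos this).ne'
  refine mul_right_cancel₀ hlog ?_
  rw [hLHS, ← Finset.sum_fiberwise_of_maps_to hΦS, Finset.sum_mul]
  refine Finset.sum_congr rfl fun 𝔞 h𝔞 => ?_
  rw [hS, Finset.mem_filter, Set.Finite.mem_toFinset] at h𝔞
  obtain ⟨hn, P, k, hP, hk, rfl⟩ := h𝔞
  have hn' : Ideal.absNorm (P ^ k) = q ^ r := hn
  obtain ⟨h1, h2⟩ := pp_norm hq hP hk.ne' hn'
  have h3 := norm_over hq h1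
  have h4 := deg_pos hq hP h1
  set f := P.inertiaDeg ℤ with hf
  have hfr : f ∣ r := ⟨k, h2.symm⟩
  have hk2 : r / f = k := by
    rw [← h2, Nat.mul_div_cancel_left _ (Nat.pos_of_ne_zero h4)]
  have hqP : ((q : ℕ) : 𝓞 F) ∈ P := mem_of_norm hP h4 h3
  have hPmax : P.IsMaximal := (Ideal.isPrime_of_prime hP).isMaximal hP.ne_zero
  have hfib : ∀ φ : 𝓞 F →+* GaloisField q r, Φ φ = P ^ k ↔ RingHom.ker φ = P := by
    intro φ
    obtain ⟨g1, g, hg, g2, g3⟩ := hker φ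
    have g4 : r / Nat.log q (Ideal.absNorm (RingHom.ker φ)) = r / g := by
      rw [g2, Nat.log_pow hq.one_lt]
    constructor
    · intro h
      rw [hΦ] at h
      simp only at h
      have h5 := congrArg Ideal.radical h
      have h6 : r / g ≠ 0 := by
        obtain ⟨c, rfl⟩ := g3
        rw [Nat.mul_div_cancel_left _ (Nat.pos_of_ne_zero hg)]
        rintro rfl
        omega
      rw [g4, Ideal.radical_pow _ h6, Ideal.radical_pow _ hk.ne',
        (Ideal.isPrime_of_prime g1).radical, (Ideal.isPrime_of_prime hP).radical] at h5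
      exact h5
    · intro h
      rw [hΦ]
      simp only
      rw [h, h3, Nat.log_pow hq.one_lt, hk2]
  have hcard : (Finset.univ.filter fun φ : 𝓞 F →+* GaloisField q r => Φ φ = P ^ k).card = f := by
    have h5 := (card_ker hr hPmax hqP h3).2 hfr
    rw [← h5, Nat.card_eq_fintype_card, Fintype.card_subtype]
    congr 1
    ext φ
    rw [Finset.mem_filter, Finset.mem_filter, hfib φ]
  have hterm : ∀ φ ∈ Finset.univ.filter (fun φ : 𝓞 F →+* GaloisField q r => Φ φ = P ^ k),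
      η (RingHom.ker φ) ^ (r / Nat.log q (Ideal.absNorm (RingHom.ker φ))) = η P ^ k := by
    intro φ hφ
    rw [Finset.mem_filter] at hφ
    have h5 := (hfib φ).mp hφ.2
    rw [h5, h3, Nat.log_pow hq.one_lt, hk2]
  rw [Finset.sum_congr rfl hterm, Finset.sum_const, hcard, VM_pow hP hk.ne', h3, map_pow]
  push_cast
  rw [Real.log_pow]
  push_cast
  rw [nsmul_eq_mul]
  ring

end Pool.Agent.J4H78.GP
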