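import Pool.Agent.J4H78.GP.Stm3
import Pool.Agent.J4H2.GP.Low2

/-!
# Project GP (helper78): the part LOW3 (adapted from helper2's LOW2)
-/

set_option autoImplicit false
set_option linter.unusedVariables false

open Filter Topology
open Pool.Agent.H38R2.CG (PP IsFund)

namespace Pool.Agent.J4H78.GP

open Pool.Agent.J4H2.GP (params2)

/-- the eventual inequalities for the parameters -/
lemma params3 {A d e : ℝ} (hd : 0 < d) (he : 0 < e) (heA : e < A) :
    ∀ᶠ L : ℝ in atTop, 3 ≤ L ∧ 2 ≤ Real.log L ∧ 4 * Real.log 8 ≤ L ∧ Real.log 8 ≤ e / 2 * L ∧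
      (A - e) * Real.log L ≤ e * L ∧ 2 + 2 * e ≤ (A - e) * Real.log L ∧ Real.log 3 ≤ e * Real.log L ∧
      5 * L ≤ Real.exp (e * L) ∧ L ^ (A - e) ≤ (d * L) ^ A / 2 := by
  have hA0 : 0 < A := by linarith
  have hAe : 0 < A - e := by linarith
  have hdA : 0 < d ^ A := Real.rpow_pos_of_pos hd _
  have hlog := Real.tendsto_log_atTop
  have h1 := (Real.isLittleO_log_id_atTop).bound (show 0 < e / (A - e) by positivity)
  have h2 := (isLittleO_pow_exp_pos_mul_atTop 1 he).bound (show (0 : ℝ) < 1 / 5 by norm_num)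
  have h3 : Tendsto (fun L : ℝ => L ^ e) atTop atTop := tendsto_rpow_atTop he
  filter_upwards [eventually_ge_atTop 3, hlog.eventually_ge_atTop 2,
    eventually_ge_atTop (4 * Real.log 8), eventually_ge_atTop (Real.log 8 / (e / 2)), h1,
    hlog.eventually_ge_atTop ((2 + 2 * e) / (A - e)), hlog.eventually_ge_atTop (Real.log 3 / e), h2,
    h3.eventually_ge_atTop (2 / d ^ A)] with L e1 e2 e3 e4 e5 e6 e7 e8 e9
  have hL : 0 < L := by linarith
  have hl : 0 < Real.log L := by linarith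
  refine ⟨e1, e2, e3, ?_, ?_, ?_, ?_, ?_, ?_⟩
  · rw [div_le_iff₀ (by positivity)] at e4
    linarith
  · rw [Real.norm_eq_abs, id, Real.norm_eq_abs, abs_of_pos hl, abs_of_pos hL] at e5
    calc (A - e) * Real.log L ≤ (A - e) * (e / (A - e) * L) := mul_le_mul_of_nonneg_left e5 hAe.le
      _ = e * L := by field_simp
  · rw [div_le_iff₀ hAe] at e6
    linarith
  · rw [div_le_iff₀ he] at e7
    linarith
  · rw [Real.norm_eq_abs, Real.norm_eq_abs, pow_one, abs_of_pos hL, abs_of_pos (Real.exp_pos _)] at e8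
    linarith
  · rw [div_le_iff₀ hdA] at e9
    have e10 : L ^ A = L ^ (A - e) * L ^ e := by
      rw [← Real.rpow_add hL]
      congr 1
      ring
    rw [Real.mul_rpow hd.le hL.le, e10]
    have h0 : 0 < L ^ (A - e) := Real.rpow_pos_of_pos hL _
    have := mul_le_mul_of_nonneg_right e9 h0.le
    linarith

open Classical in
/-- the bound for large `x` -/
lemma main_le3 {d η κ A e : ℝ} (hd : 0 < d) (hd1 : d ≤ 1) (hη0 : 0 < η) (hη1 : η < 1) (hκη : κ < η) (hκ1 : κ < 1)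
    (hκ0 : 0 < κ) (hA1 : 1 ≤ A) (he : 0 < e)
    (heA : e < A) (hκe : κ * A ≤ e) {P : Set ℕ} (hP : Dense P κ) :
    ∃ C : ℝ, 0 < C ∧ ∃ x₀ : ℕ, ∀ x : ℕ, x₀ ≤ x → ∃ Q : Finset ℕ,
      (∀ q ∈ Q, q ∈ P ∧ (q : ℝ) ≤ (d * Real.log x) ^ A) ∧ 100 * ((Real.log x) ^ A) ^ (1 - η) ≤ (Q.card : ℝ) ∧
      (({p ∈ Finset.Icc 1 x | p.Prime ∧
        ((100 : ℝ) * ({q ∈ (Q : Set ℕ) | Spl p q}.ncard : ℝ) < Q.card)} : Finset ℕ).card : ℝ) ≤
        C * (x : ℝ) ^ ((2 + 2 * e) * (1 + 2 * e) / (A - e) + e) := by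
  obtain ⟨C₁, hC₁, y₁, hlow⟩ := Pool.Agent.N614.SP.t_LOW
  obtain ⟨y₂, hP2⟩ := hP
  have hA0 : 0 < A := by linarith
  have hlogN : Tendsto (fun x : ℕ => Real.log (x : ℝ)) atTop atTop :=
    Real.tendsto_log_atTop.comp tendsto_natCast_atTop_atTop
  have hyN : Tendsto (fun x : ℕ => (d * Real.log (x : ℝ)) ^ A / 2) atTop atTop :=
    ((tendsto_rpow_atTop hA0).comp (hlogN.const_mul_atTop hd)).atTop_div_const (by norm_num)
  have hyf : Tendsto (fun x : ℕ => ⌊(d * Real.log (x : ℝ)) ^ A / 2⌋₊) atTop atTop :=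
    tendsto_nat_floor_atTop.comp hyN
  have hev := (hlogN.eventually (params3 hd he heA)).and ((hyf.eventually (eventually_ge_atTop
    (max (max y₁ y₂) 2))).and ((hlogN.eventually (params2 (η := η) hA1 hd hκη)).and (eventually_ge_atTop 2)))
  obtain ⟨x₀, hx₀⟩ := eventually_atTop.mp hev
  refine ⟨C₁, hC₁, x₀, fun x hx => ?_⟩
  obtain ⟨⟨e3, e4, e5, k1, k2, k3, k4, k5, k6⟩, hy, ⟨f1, f2, f3⟩, hx2⟩ := hx₀ x hx
  obtain ⟨L, hL⟩ : ∃ L : ℝ, L = Real.log (x : ℝ) := ⟨_, rfl⟩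
  rw [← hL] at e3 e4 e5 k1 k2 k3 k4 k5 k6 hy f1 f2 f3 ⊢
  obtain ⟨y, hyy⟩ : ∃ y : ℕ, y = ⌊(d * L) ^ A / 2⌋₊ := ⟨_, rfl⟩
  rw [← hyy] at hy
  have hy1 : y₁ ≤ y := (le_max_left _ _).trans ((le_max_left _ _).trans hy)
  have hy2 : y₂ ≤ y := (le_max_right _ _).trans ((le_max_left _ _).trans hy)
  have hy3 : 2 ≤ y := (le_max_right _ _).trans hy
  have hL0 : 0 < L := by linarith
  have hAe : 0 < A - e := by linarith
  have hLA : 0 < L ^ A := Real.rpow_pos_of_pos hL0 _
  have hdL : (d * L) ^ A ≤ L ^ A := Real.rpow_le_rpow (by positivity) (by nlinarith) hA0.le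
  have hyle : (y : ℝ) ≤ (d * L) ^ A / 2 := by rw [hyy]; exact Nat.floor_le (by positivity)
  have hyge : (d * L) ^ A / 4 ≤ y := by
    have := Nat.lt_floor_add_one ((d * L) ^ A / 2)
    rw [← hyy] at this
    linarith
  have hy3' : (2 : ℝ) ≤ y := by exact_mod_cast hy3
  have hy0 : (0 : ℝ) < y := by linarith
  have hlogyle : Real.log y ≤ A * Real.log L := by
    rw [← Real.log_rpow hL0]
    exact Real.log_le_log (by linarith) (by linarith)
  obtain ⟨Q, hQ⟩ : ∃ Q : Finset ℕ, Q = {q ∈ Finset.Ioc y (2 * y) | q.Prime ∧ q ∈ P} := ⟨_, rfl⟩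
  have hQc : (y : ℝ) ^ (1 - κ) ≤ (Q.card : ℝ) := by
    rw [hQ]
    refine (hP2 y hy2).trans (le_of_eq ?_)
    congr!
  have hQmem : ∀ q ∈ Q, q.Prime ∧ q ∈ P ∧ y < q ∧ q ≤ 2 * y := by
    intro q hq
    rw [hQ, Finset.mem_filter, Finset.mem_Ioc] at hq
    exact ⟨hq.2.1, hq.2.2, hq.1⟩
  have hQsub : Q ⊆ PP y := by
    intro q hq
    obtain ⟨h1, -, h2, h3⟩ := hQmem q hq
    unfold Pool.Agent.H38R2.CG.PP
    rw [Finset.mem_filter, Finset.mem_Ioc]
    exact ⟨⟨h2, h3⟩, h1⟩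
  have hQ100 : 100 * (L ^ A) ^ (1 - η) ≤ (Q.card : ℝ) :=
    f2.trans ((Real.rpow_le_rpow (by positivity) hyge (by linarith)).trans hQc)
  have hone : (1 : ℝ) ≤ (L ^ A) ^ (1 - η) :=
    Real.one_le_rpow (Real.one_le_rpow (by linarith) hA0.le) (by linarith)
  have hQcard : (35 : ℝ) ≤ (Q.card : ℝ) := by linarith
  have hQpos : (0 : ℝ) < (Q.card : ℝ) := by linarith
  refine ⟨Q, ?_, hQ100, ?_⟩
  · intro q hq
    obtain ⟨-, h1, -, h3⟩ := hQmem q hq
    refine ⟨h1, ?_⟩
    have : (q : ℝ) ≤ 2 * y := by exact_mod_cast h3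
    linarith
  · -- the exceptional primes
    have hlog2y : (A - e) * Real.log L ≤ Real.log (2 * y) := by
      rw [← Real.log_rpow hL0]
      apply Real.log_le_log (Real.rpow_pos_of_pos hL0 _)
      linarith
    have hlL : 0 < Real.log L := by linarith
    have hlog2y0 : 0 < Real.log (2 * y) := lt_of_lt_of_le (by positivity) hlog2y
    obtain ⟨i, hi⟩ : ∃ i : ℕ, i = ⌈2 * Real.log (8 * x) / Real.log (2 * y)⌉₊ := ⟨_, rfl⟩
    have hx1 : (2 : ℝ) ≤ x := by exact_mod_cast hx2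
    have hlog8x : Real.log (8 * x) = Real.log 8 + L := by
      rw [Real.log_mul (by norm_num) (by linarith), hL]
    have hlog8 : 0 < Real.log 8 := Real.log_pos (by norm_num)
    have hi1 : 1 ≤ i := by
      rw [hi, Nat.one_le_ceil_iff, hlog8x]
      positivity
    have hile : (i : ℝ) ≤ (2 + 2 * e) * L / ((A - e) * Real.log L) := by
      have h1 := Nat.ceil_lt_add_one (a := 2 * Real.log (8 * x) / Real.log (2 * y)) (by
        rw [hlog8x]; positivity)
      rw [← hi] at h1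
      have h2 : 2 * Real.log (8 * x) / Real.log (2 * y) ≤ (2 + e) * L / ((A - e) * Real.log L) := by
        rw [hlog8x]
        exact div_le_div₀ (by positivity) (by linarith) (by positivity) hlog2y
      have h4 : 1 ≤ e * L / ((A - e) * Real.log L) := by
        rw [le_div_iff₀ (by positivity), one_mul]
        exact k2
      have h3 : (2 + 2 * e) * L / ((A - e) * Real.log L) =
          (2 + e) * L / ((A - e) * Real.log L) + e * L / ((A - e) * Real.log L) := by
        ring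
      linarith
    have hiL : (i : ℝ) ≤ L := by
      refine hile.trans ?_
      rw [div_le_iff₀ (by positivity)]
      nlinarith
    have hiA : (i : ℝ) * Real.log L ≤ (2 + 2 * e) * L / (A - e) := by
      have := mul_le_mul_of_nonneg_right hile hlL.le
      refine this.trans (le_of_eq ?_)
      field_simp
    have hcond : (8 * x : ℝ) ≤ ((2 * y : ℝ)) ^ ((i : ℝ) / 2) := by
      have h1 := Nat.le_ceil (2 * Real.log (8 * x) / Real.log (2 * y))
      rw [← hi, div_le_iff₀ hlog2y0] at h1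
      rw [← Real.log_le_log_iff (by positivity) (Real.rpow_pos_of_pos (by positivity) _),
        Real.log_rpow (by positivity)]
      linarith
    have hne : Q.Nonempty := by
      rw [← Finset.card_pos]
      exact_mod_cast hQpos
    have hmain := Pool.Agent.J4H21.GP.count_le (C := C₁) (y := y) (Q := Q) (i := i) (x := x) (by omega)
      (fun q hq => ⟨(hQmem q hq).1, by have := (hQmem q hq).2.2.1; omega⟩)
      (by exact_mod_cast hQcard)
      (fun X hX => hlow y hy1 Q hQsub hne i hi1 X hX) hcond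
    refine le_trans (le_trans (le_of_eq (by congr!)) hmain) ?_
    -- the size of the bound
    have hb1 : ((Nat.log 2 (4 * x) + 1 : ℕ) : ℝ) ≤ Real.exp (e * L) := by
      have h1 : ((Nat.log 2 (4 * x) : ℕ) : ℝ) * Real.log 2 ≤ Real.log (4 * x) := by
        have h2 : 2 ^ Nat.log 2 (4 * x) ≤ 4 * x := Nat.pow_log_le_self 2 (by omega)
        have h3 : ((2 : ℝ) ^ Nat.log 2 (4 * x)) ≤ 4 * x := by exact_mod_cast h2
        rw [← Real.log_pow]
        exact Real.log_le_log (by positivity) h3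
      have h4 : Real.log (4 * x) ≤ 2 * L := by
        rw [Real.log_mul (by norm_num) (by linarith), ← hL]
        have : Real.log 4 ≤ Real.log 8 := Real.log_le_log (by norm_num) (by norm_num)
        linarith
      have h5 := Real.log_two_gt_d9
      have h6 : ((Nat.log 2 (4 * x) : ℕ) : ℝ) ≤ 4 * L := by
        have h0 : (0 : ℝ) ≤ ((Nat.log 2 (4 * x) : ℕ) : ℝ) := Nat.cast_nonneg _
        nlinarith
      push_cast
      linarith
    have hb2 : (i.factorial : ℝ) ≤ Real.exp ((2 + 2 * e) * L / (A - e)) := by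
      have h1 : (i.factorial : ℝ) ≤ (i : ℝ) ^ i := by exact_mod_cast Nat.factorial_le_pow i
      have h2 : (i : ℝ) ^ i ≤ L ^ i := pow_le_pow_left₀ (Nat.cast_nonneg _) hiL i
      have h3 : L ^ i = Real.exp (i * Real.log L) := by
        rw [Real.exp_nat_mul, Real.exp_log hL0]
      exact h1.trans (h2.trans (by rw [h3]; exact Real.exp_le_exp.mpr hiA))
    have hb3 : ((3 * y / (Q.card : ℝ)) ^ i : ℝ) ≤ Real.exp ((2 + 2 * e) * L / (A - e) * (2 * e)) := by
      have h1 : 3 * (y : ℝ) / (Q.card : ℝ) ≤ Real.exp (2 * e * Real.log L) := by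
        rw [div_le_iff₀ hQpos]
        have h2 : (y : ℝ) = (y : ℝ) ^ κ * (y : ℝ) ^ (1 - κ) := by
          rw [← Real.rpow_add hy0]
          norm_num
        have h3 : (y : ℝ) ^ κ = Real.exp (κ * Real.log y) := by
          rw [Real.rpow_def_of_pos hy0, mul_comm]
        have h4 : (y : ℝ) ≤ Real.exp (κ * Real.log y) * (Q.card : ℝ) := by
          conv_lhs => rw [h2, h3]
          exact mul_le_mul_of_nonneg_left hQc (Real.exp_pos _).le
        have h5 : (3 : ℝ) ≤ Real.exp (e * Real.log L) := by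
          rw [← Real.exp_log (show (0 : ℝ) < 3 by norm_num)]
          exact Real.exp_le_exp.mpr k4
        have h6 : Real.exp (κ * Real.log y) ≤ Real.exp (e * Real.log L) := by
          rw [Real.exp_le_exp]
          calc κ * Real.log y ≤ κ * (A * Real.log L) := by gcongr
            _ = κ * A * Real.log L := by ring
            _ ≤ e * Real.log L := by gcongr
        calc 3 * (y : ℝ) ≤ Real.exp (e * Real.log L) *
              (Real.exp (e * Real.log L) * (Q.card : ℝ)) := by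
              exact mul_le_mul h5 (h4.trans (mul_le_mul_of_nonneg_right h6 (Nat.cast_nonneg _)))
                hy0.le (Real.exp_pos _).le
          _ = Real.exp (2 * e * Real.log L) * (Q.card : ℝ) := by
              rw [← mul_assoc, ← Real.exp_add]
              congr 2
              ring
      have h3 : (3 * (y : ℝ) / (Q.card : ℝ)) ^ i ≤ (Real.exp (2 * e * Real.log L)) ^ i :=
        pow_le_pow_left₀ (by positivity) h1 i
      refine h3.trans ?_
      rw [← Real.exp_nat_mul, Real.exp_le_exp]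
      calc (i : ℝ) * (2 * e * Real.log L) = (i * Real.log L) * (2 * e) := by ring
        _ ≤ _ := mul_le_mul_of_nonneg_right hiA (by positivity)
    set D : ℝ := (2 + 2 * e) * (1 + 2 * e) / (A - e) + e with hD
    have hxe : (x : ℝ) ^ D = Real.exp (D * L) := by
      rw [Real.rpow_def_of_pos (by linarith), ← hL, mul_comm]
    rw [hxe]
    have hexp : Real.exp (e * L) * (Real.exp ((2 + 2 * e) * L / (A - e)) *
        Real.exp ((2 + 2 * e) * L / (A - e) * (2 * e))) ≤ Real.exp (D * L) := by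
      rw [← Real.exp_add, ← Real.exp_add, Real.exp_le_exp, hD]
      exact le_of_eq (by ring)
    calc ((Nat.log 2 (4 * x) + 1 : ℕ) : ℝ) * (C₁ * (i.factorial : ℝ) *
          (3 * y / (Q.card : ℝ)) ^ i)
        ≤ Real.exp (e * L) * (C₁ * Real.exp ((2 + 2 * e) * L / (A - e)) *
            Real.exp ((2 + 2 * e) * L / (A - e) * (2 * e))) := by
          gcongr
      _ = C₁ * (Real.exp (e * L) * (Real.exp ((2 + 2 * e) * L / (A - e)) *
            Real.exp ((2 + 2 * e) * L / (A - e) * (2 * e)))) := by ring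
      _ ≤ C₁ * Real.exp (D * L) := mul_le_mul_of_nonneg_left hexp hC₁.le

lemma exists_e2 {A η ε : ℝ} (hA : 1 < A) (hη : 0 < η) (hε : 0 < ε) :
    ∃ e : ℝ, 0 < e ∧ e < A ∧ e < η ∧
      (2 + 2 * e) * (1 + 2 * e) / (A - e) + e ≤ 2 / (A - 1) + ε := by
  have hA0 : 0 < A := by linarith
  have hc : ContinuousAt (fun e : ℝ => (2 + 2 * e) * (1 + 2 * e) / (A - e) + e) 0 := by
    refine ContinuousAt.add (ContinuousAt.div (by fun_prop) (by fun_prop) ?_) continuousAt_id
    simp only [sub_zero]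
    exact hA0.ne'
  have h0 : (2 : ℝ) / A < 2 / (A - 1) + ε := by
    have h1 : 2 / A ≤ 2 / (A - 1) :=
      div_le_div_of_nonneg_left (by norm_num) (by linarith) (by linarith)
    linarith
  have g1 : ∀ᶠ e in 𝓝 (0 : ℝ), (2 + 2 * e) * (1 + 2 * e) / (A - e) + e < 2 / (A - 1) + ε :=
    hc.eventually_lt continuousAt_const (by simpa using h0)
  have g2 : ∀ᶠ e in 𝓝 (0 : ℝ), e < A := eventually_lt_nhds hA0
  have g3 : ∀ᶠ e in 𝓝 (0 : ℝ), e < η := eventually_lt_nhds hη
  have h6 := ((g1.and (g2.and g3)).filter_mono nhdsWithin_le_nhds).and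
    (self_mem_nhdsWithin : Set.Ioi (0 : ℝ) ∈ 𝓝[>] (0 : ℝ))
  obtain ⟨e, ⟨k1, k2, k3⟩, k4⟩ := h6.exists
  exact ⟨e, k4, k2, k3, k1.le⟩

theorem t_LOW3 : S_LOW3 := by
  classical
  intro A ε η hA hε hη0 hη1
  obtain ⟨e, he, heA, heη, hD⟩ := exists_e2 hA hη0 hε
  have hA1 : 1 ≤ A := hA.le
  have hA0 : 0 < A := by linarith
  obtain ⟨δ, hδdef⟩ : ∃ δ : ℝ, δ = 2 / (A - 1) + ε := ⟨_, rfl⟩
  have hδ : 0 < δ := by
    rw [hδdef]
    have : 0 < A - 1 := by linarith
    positivity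
  obtain ⟨d, hd, hd1, hdδ⟩ : ∃ d : ℝ, 0 < d ∧ d ≤ 1 ∧ d ≤ δ :=
    ⟨min δ 1, lt_min hδ one_pos, min_le_right _ _, min_le_left _ _⟩
  refine ⟨e / A, by positivity, fun P hP => ?_⟩
  obtain ⟨κ, hκ⟩ : ∃ κ : ℝ, κ = e / A := ⟨_, rfl⟩
  rw [← hκ] at hP
  have hκ0 : 0 < κ := by rw [hκ]; positivity
  have hκη : κ < η := by
    have : e / A ≤ e := div_le_self he.le hA1
    rw [hκ]
    linarith
  have hκ1 : κ < 1 := by linarith
  have hκe : κ * A ≤ e := by
    rw [hκ]
    exact le_of_eq (by field_simp)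
  obtain ⟨C₁, hC₁, x₀, hx₀⟩ := main_le3 hd hd1 hη0 hη1 hκη hκ1 hκ0 hA1 he heA hκe hP
  rw [← hδdef] at hD
  rw [← hδdef]
  refine ⟨C₁ + 2 + x₀ + 1, by positivity, fun x hx1 => ?_⟩
  have hx1' : (1 : ℝ) ≤ x := by exact_mod_cast hx1
  have hxδ : (1 : ℝ) ≤ (x : ℝ) ^ δ := Real.one_le_rpow hx1' hδ.le
  have hxdδ : (x : ℝ) ^ d ≤ (x : ℝ) ^ δ := Real.rpow_le_rpow_of_exponent_le hx1' hdδ
  obtain ⟨S, hS⟩ : ∃ S : Set ℕ, S = {p : ℕ | p ≤ x ∧ p.Prime ∧
      (({q : ℕ | q ∈ P ∧ Spl p q ∧ (q : ℝ) ≤ (Real.log p) ^ A}.ncard : ℕ) : ℝ) <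
      ((Real.log p) ^ A) ^ (1 - η)} := ⟨_, rfl⟩
  rw [← hS]
  rcases lt_or_ge x x₀ with hlt | hge
  · have h1 : S ⊆ ((Finset.range (x₀ + 1) : Finset ℕ) : Set ℕ) := by
      intro p hp
      rw [hS] at hp
      have := hp.1
      simp only [Finset.coe_range, Set.mem_Iio]
      omega
    have h2 := Set.ncard_le_ncard h1 (Finset.finite_toSet _)
    rw [Set.ncard_coe_finset, Finset.card_range] at h2
    have h3 : (S.ncard : ℝ) ≤ x₀ + 1 := by exact_mod_cast h2
    have h4 : (x₀ : ℝ) + 1 ≤ (C₁ + 2 + x₀ + 1) * 1 := by linarith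
    exact h3.trans (h4.trans (mul_le_mul_of_nonneg_left hxδ (by positivity)))
  · obtain ⟨Q, hQ1, hQ2, hQ3⟩ := hx₀ x hge
    obtain ⟨E, hE⟩ : ∃ E : Finset ℕ, E = {p ∈ Finset.Icc 1 x | p.Prime ∧
        ((100 : ℝ) * ({q ∈ (Q : Set ℕ) | Spl p q}.ncard : ℝ) < Q.card)} := ⟨_, rfl⟩
    have hE3 : (E.card : ℝ) ≤ C₁ * (x : ℝ) ^ δ := by
      rw [hE]
      refine le_trans (le_of_eq ?_) (hQ3.trans (mul_le_mul_of_nonneg_left
        (Real.rpow_le_rpow_of_exponent_le hx1' hD) hC₁.le))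
      congr!
    have h1 : S ⊆ ((Finset.range (⌊(x : ℝ) ^ d⌋₊ + 1) ∪ E : Finset ℕ) : Set ℕ) := by
      intro p hp
      rw [hS] at hp
      obtain ⟨hpx, hpp, hlt⟩ := hp
      rw [Finset.coe_union, Set.mem_union]
      by_cases hsm : p ≤ ⌊(x : ℝ) ^ d⌋₊
      · left
        simp only [Finset.coe_range, Set.mem_Iio]
        omega
      · right
        push Not at hsm
        have hp0 : (0 : ℝ) < p := by exact_mod_cast hpp.pos
        have hpd : (x : ℝ) ^ d < p := Nat.lt_of_floor_lt hsm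
        have hlogp : d * Real.log x ≤ Real.log p := by
          rw [← Real.log_rpow (by linarith)]
          exact Real.log_le_log (Real.rpow_pos_of_pos (by linarith) _) hpd.le
        have hlogp2 : Real.log p ≤ Real.log x := Real.log_le_log hp0 (by exact_mod_cast hpx)
        have hlogx0 : 0 ≤ Real.log x := Real.log_nonneg hx1'
        have hlogp0 : 0 ≤ Real.log p := le_trans (by positivity) hlogp
        rw [hE]
        simp only [Finset.coe_filter, Finset.mem_Icc, Set.mem_ofPred_eq]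
        refine ⟨⟨hpp.one_le, hpx⟩, hpp, ?_⟩
        have hfin : {q : ℕ | q ∈ P ∧ Spl p q ∧ (q : ℝ) ≤ (Real.log p) ^ A}.Finite := by
          apply (Finset.finite_toSet (Finset.range (⌊(Real.log p) ^ A⌋₊ + 1))).subset
          intro q hq
          simp only [Finset.coe_range, Set.mem_Iio]
          have := Nat.le_floor hq.2.2
          omega
        have hsub : {q ∈ (Q : Set ℕ) | Spl p q} ⊆ {q : ℕ | q ∈ P ∧ Spl p q ∧ (q : ℝ) ≤ (Real.log p) ^ A} := by
          intro q hq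
          obtain ⟨g1, g2⟩ := hQ1 q hq.1
          exact ⟨g1, hq.2, g2.trans (Real.rpow_le_rpow (by positivity) hlogp hA0.le)⟩
        have h2 : ({q ∈ (Q : Set ℕ) | Spl p q}.ncard : ℝ) ≤
            (({q : ℕ | q ∈ P ∧ Spl p q ∧ (q : ℝ) ≤ (Real.log p) ^ A}.ncard : ℕ) : ℝ) := by
          exact_mod_cast Set.ncard_le_ncard hsub hfin
        have h3 : ((Real.log p) ^ A) ^ (1 - η) ≤ ((Real.log x) ^ A) ^ (1 - η) :=
          Real.rpow_le_rpow (by positivity) (Real.rpow_le_rpow hlogp0 hlogp2 hA0.le) (by linarith)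
        linarith
    have h2 := Set.ncard_le_ncard h1 (Finset.finite_toSet _)
    rw [Set.ncard_coe_finset] at h2
    have h3 := h2.trans (Finset.card_union_le _ _)
    rw [Finset.card_range] at h3
    have h4 : (S.ncard : ℝ) ≤ (⌊(x : ℝ) ^ d⌋₊ : ℝ) + 1 + E.card := by exact_mod_cast h3
    have h5 : (⌊(x : ℝ) ^ d⌋₊ : ℝ) ≤ (x : ℝ) ^ d := Nat.floor_le (by positivity)
    have h7 : (0 : ℝ) ≤ (x₀ + 1 : ℝ) * (x : ℝ) ^ δ := by positivity
    nlinarith


end Pool.Agent.J4H78.GP
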