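import Pool.Agent.J4H78.GP.Stm2
import Pool.Agent.J4H78.GP.Dens

/-!
# Project GP (helper78): generation and the class number one criterion from equidistribution
-/

set_option autoImplicit false

open NumberField Filter Topology

namespace Pool.Agent.J4H78.GP

/-- equidistribution implies generation -/
lemma gen_of_GB {P : Set ℕ} {A C : ℝ} {p : ℕ} (hp : p.Prime) (h : GB P A C p)
    (K : Type) [Field K] [NumberField K] (hK : QD p K) :
    Subgroup.closure ((fun 𝔮 => ClassGroup.mk0 𝔮) '' Sm P K ((Real.log p) ^ A)) = ⊤ := by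
  obtain ⟨hN, hm⟩ := h K hK
  set B : ℝ := (Real.log p) ^ A with hB
  set N : ℕ := Nat.card (Sm P K B) with hNdef
  obtain ⟨m, hm0⟩ := exists_nat_ge (C * Real.log p / Real.log (Real.log p))
  rw [eq_top_iff]
  intro z _
  have h1 := hm m hm0 z
  have hN1 : (1 : ℝ) ≤ N := by exact_mod_cast hN
  have hNm : 0 < (N : ℝ) ^ m := by positivity
  have hp1 : (1 : ℝ) < p := by exact_mod_cast hp.one_lt
  have h2 : (N : ℝ) ^ m / p < (N : ℝ) ^ m := div_lt_self hNm hp1
  have h3 : Nat.card {f : Fin m → Sm P K B // ∏ j, ClassGroup.mk0 (f j).1 = z} ≠ 0 := by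
    intro h4
    rw [h4, Nat.cast_zero, mul_zero, zero_sub, abs_neg, abs_of_pos hNm] at h1
    linarith
  obtain ⟨f, hf⟩ : Nonempty {f : Fin m → Sm P K B // ∏ j, ClassGroup.mk0 (f j).1 = z} :=
    (Nat.card_ne_zero.mp h3).1
  rw [← hf]
  exact Subgroup.prod_mem _ fun j _ => Subgroup.subset_closure ⟨(f j).1, (f j).2, rfl⟩

lemma crit_of_gen {K : Type} [Field K] [NumberField K] {S : Set (nonZeroDivisors (Ideal (𝓞 K)))}
    (h : Subgroup.closure ((fun 𝔮 => ClassGroup.mk0 𝔮) '' S) = ⊤) :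
    classNumber K = 1 ↔ ∀ 𝔮 ∈ S, (𝔮 : Ideal (𝓞 K)).IsPrincipal := by
  constructor
  · intro hc 𝔮 _
    have hsub : Subsingleton (ClassGroup (𝓞 K)) := by
      rw [← Fintype.card_le_one_iff_subsingleton]
      exact hc.le
    exact (ClassGroup.mk0_eq_one_iff 𝔮.2).mp (Subsingleton.elim _ _)
  · intro hp
    have h3 : (⊤ : Subgroup (ClassGroup (𝓞 K))) ≤ ⊥ := by
      rw [← h, Subgroup.closure_le]
      rintro c ⟨𝔮, h4, rfl⟩
      exact (ClassGroup.mk0_eq_one_iff 𝔮.2).mpr (hp 𝔮 h4)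
    have h4 : Subsingleton (ClassGroup (𝓞 K)) := by
      refine ⟨fun a b => ?_⟩
      rw [Subgroup.mem_bot.mp (h3 (Subgroup.mem_top a)), Subgroup.mem_bot.mp (h3 (Subgroup.mem_top b))]
    exact Fintype.card_eq_one_iff_nonempty_unique.mpr ⟨⟨⟨1⟩, fun a => Subsingleton.elim _ _⟩⟩

end Pool.Agent.J4H78.GP
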