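import Pool.Agent.J4H78.GP.Stm3
import Pool.Agent.J4H78.GP.Pair

/-!
# Project GP (helper78): the part PAIR3
-/

set_option autoImplicit false

open NumberField Complex Filter Topology MeasureTheory
open Pool.Agent.Y773 (VM cc hf FT PIdl gen)

namespace Pool.Agent.J4H78.GP

theorem t_PAIR3 (hFLD : S_FLD) (hCH : S_CH) (hMULT : S_MULT) (hREC : S_REC) (hRES : S_RES3)
    (hEX : S_EX) (hW : S_W) (hZB : S_ZB) : S_PAIR3 := by
  intro ε hε
  obtain ⟨C, hC, hR⟩ := hRES (ε / 6) (by positivity)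
  refine ⟨C * (16 * 2 ^ (ε * 2)), by positivity, ?_⟩
  intro p p' K K' _ _ _ _ hp hp' hne hK hK' ψ ψ' hψ hψ' hnt a ha X hX1
  have hX : 0 < X := by linarith
  obtain ⟨L, _, _, _, _, hBQ, hTR, hdisc⟩ := hFLD p p' K K' hp hp' hne hK hK'
  have hη := hCH p p' K K' L hBQ ψ (cj ψ') hψ (isCl_cj hψ')
  set η := eta (L := L) ψ (cj ψ') with hηdef
  have hcl : IsCl L η := hη.1
  have hnt' : NonTriv η := hη.2 (nonTriv2_cj hnt)
  have hM : 1 ≤ 2 * p * p' := by
    have := hp.pos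
    have := hp'.pos
    exact Nat.succ_le_of_lt (by positivity)
  have hb := hREC L (res (2 * p * p') η)
  have hb' : IsCf (fun d => gg p ψ d * (starRingEnd ℂ) (gg p' ψ' d))
      (fun n => ∑ᶠ 𝔞 ∈ {𝔞 : Ideal (𝓞 L) | Ideal.absNorm 𝔞 = n}, res (2 * p * p') η 𝔞) := by
    refine isCf_congr (fun d hd => ?_) hb
    obtain ⟨q, r, hq, hr, rfl⟩ := hd
    have hq' : q.Prime := hq.nat_prime
    rw [cc_res]
    by_cases hdv : q ∣ 2 * p * p'
    · rw [if_neg]
      · have h1 : ¬ (q ^ r).Coprime (2 * p) ∨ ¬ (q ^ r).Coprime (2 * p') := by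
          rcases (hq'.dvd_mul.mp hdv) with h2 | h2
          · left
            rw [Nat.coprime_pow_left_iff hr, hq'.coprime_iff_not_dvd]
            exact fun h3 => h3 h2
          · right
            rw [Nat.coprime_pow_left_iff hr, hq'.coprime_iff_not_dvd]
            exact fun h3 => h3 (dvd_mul_of_dvd_right h2 2)
        rcases h1 with h2 | h2
        · simp only [gg]
          rw [if_neg h2, zero_mul]
        · simp only [gg]
          rw [if_neg h2, map_zero, mul_zero]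
      · rw [Nat.coprime_pow_left_iff hr, hq'.coprime_iff_not_dvd]
        exact fun h3 => h3 hdv
    · rw [if_pos]
      · have h1 : (q ^ r).Coprime (2 * p) := by
          rw [Nat.coprime_pow_left_iff hr, hq'.coprime_iff_not_dvd]
          exact fun h3 => hdv (dvd_mul_of_dvd_left h3 p')
        have h2 : (q ^ r).Coprime (2 * p') := by
          rw [Nat.coprime_pow_left_iff hr, hq'.coprime_iff_not_dvd]
          intro h3
          apply hdv
          rcases (hq'.dvd_mul.mp h3) with h4 | h4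
          · exact dvd_mul_of_dvd_left (dvd_mul_of_dvd_left h4 p) p'
          · exact dvd_mul_of_dvd_right h4 _
        simp only [gg]
        rw [if_pos h1, if_pos h2, ← cc_cj]
        exact hMULT p p' K K' L hBQ ψ (cj ψ') q r hq' hr hdv
      · rw [Nat.coprime_pow_left_iff hr, hq'.coprime_iff_not_dvd]
        exact hdv
  have hab : a = (fun n => ∑ᶠ 𝔞 ∈ {𝔞 : Ideal (𝓞 L) | Ideal.absNorm 𝔞 = n}, res (2 * p * p') η 𝔞) :=
    (hEX _).unique ha hb'
  have hsum := sum_ideal_W hW hZB hBQ.deg (res_norm (isCl_norm hcl) (2 * p * p')) hX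
  have hfib := tsum_fib (res (2 * p * p') η) (fun n => ((W ((n : ℝ) / X) : ℝ) : ℂ)) hsum
  rw [hab]
  rw [hfib.tsum_eq]
  have hcard : (2 * p * p').primeFactors.card ≤ 3 := by
    rw [Nat.primeFactors_mul (mul_ne_zero two_ne_zero hp.ne_zero) hp'.ne_zero,
      Nat.primeFactors_mul two_ne_zero hp.ne_zero, Nat.Prime.primeFactors Nat.prime_two,
      hp.primeFactors, hp'.primeFactors]
    refine (Finset.card_union_le _ _).trans ?_
    have := Finset.card_union_le {2} {p}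
    simp only [Finset.card_singleton] at this ⊢
    omega
  refine (hR L hBQ.deg η hcl hnt' (2 * p * p') hM hcard X hX1).trans ?_
  have hp1 : (1 : ℝ) ≤ p := by exact_mod_cast hp.one_lt.le
  have hp1' : (1 : ℝ) ≤ p' := by exact_mod_cast hp'.one_lt.le
  have hpp : (1 : ℝ) ≤ (p : ℝ) * p' := by nlinarith
  have hpp0 : (0 : ℝ) < (p : ℝ) * p' := by linarith
  have h1 : |(discr L : ℝ)| ^ (1 / 2 + ε / 6) ≤ (256 * ((p : ℝ) * p') ^ 2) ^ (1 / 2 + ε / 6) := by
    refine Real.rpow_le_rpow (abs_nonneg _) (hdisc.trans (le_of_eq ?_)) (by positivity)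
    ring
  have h2 : (256 * ((p : ℝ) * p') ^ 2) ^ (1 / 2 + ε / 6) =
      16 * 2 ^ (ε * (8 / 6)) * ((p : ℝ) * p') ^ (1 + ε / 3) := by
    rw [Real.mul_rpow (by norm_num) (by positivity), show (256 : ℝ) = 2 ^ (8 : ℝ) by norm_num,
      ← Real.rpow_mul (by norm_num), ← Real.rpow_natCast, ← Real.rpow_mul hpp0.le]
    have e1 : (8 : ℝ) * (1 / 2 + ε / 6) = 4 + ε * (8 / 6) := by ring
    have e2 : ((2 : ℕ) : ℝ) * (1 / 2 + ε / 6) = 1 + ε / 3 := by push_cast; ring
    rw [e1, e2, Real.rpow_add two_pos]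
    norm_num
  have h3 : (((2 * p * p' : ℕ) : ℝ)) ^ (4 * (ε / 6)) =
      2 ^ (ε * (4 / 6)) * ((p : ℝ) * p') ^ (ε * (2 / 3)) := by
    push_cast
    rw [mul_assoc, Real.mul_rpow two_pos.le hpp0.le]
    congr 1
    · congr 1
      ring
    · congr 1
      ring
  rw [h3]
  calc C * |(discr L : ℝ)| ^ (1 / 2 + ε / 6) * (2 ^ (ε * (4 / 6)) * ((p : ℝ) * p') ^ (ε * (2 / 3)))
      ≤ C * (16 * 2 ^ (ε * (8 / 6)) * ((p : ℝ) * p') ^ (1 + ε / 3)) *
          (2 ^ (ε * (4 / 6)) * ((p : ℝ) * p') ^ (ε * (2 / 3))) := by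
        rw [← h2]
        gcongr
    _ = C * (16 * (2 ^ (ε * (8 / 6)) * 2 ^ (ε * (4 / 6)))) *
          (((p : ℝ) * p') ^ (1 + ε / 3) * ((p : ℝ) * p') ^ (ε * (2 / 3))) := by ring
    _ = C * (16 * 2 ^ (ε * 2)) * ((p : ℝ) * p') ^ (1 + ε) := by
        rw [← Real.rpow_add two_pos, ← Real.rpow_add hpp0,
          show ε * (8 / 6) + ε * (4 / 6) = ε * 2 by ring,
          show 1 + ε / 3 + ε * (2 / 3) = 1 + ε by ring]

end Pool.Agent.J4H78.GP
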