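import Pool.Agent.J4H78.GP.Stm
import Pool.Agent.H419R2.A1

/-!
# Project GP (helper78): the part SPL
-/

set_option autoImplicit false

open NumberField

namespace Pool.Agent.J4H78.GP

theorem t_SPL : S_SPL := by
  intro p q K _ _ hp hK hs
  obtain ⟨hq, hq2, hsq⟩ := hs
  obtain ⟨s₀, hs₀⟩ := hK.root
  have hfact : Fact q.Prime := ⟨hq⟩
  have hns : ¬ ∃ x : ℚ, x ^ 2 = ((p : ℤ) : ℚ) :=
    H419R2.not_sq_of_squarefree (Int.squarefree_natCast.mpr hp.prime.squarefree)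
      (by exact_mod_cast hp.one_lt)
  have hs₀' : s₀ ^ 2 = (((p : ℤ)) : K) := by rw [hs₀, Int.cast_natCast]
  have hint : IsIntegral ℤ s₀ := by
    refine IsIntegral.of_pow (n := 2) two_pos ?_
    rw [hs₀']
    exact isIntegral_algebraMap (R := ℤ) (A := K) (x := (p : ℤ))
  set s : 𝓞 K := ⟨s₀, hint⟩ with hsdef
  have hs2 : s ^ 2 = ((p : ℕ) : 𝓞 K) := by
    apply RingOfIntegers.ext
    push_cast
    exact hs₀
  obtain ⟨r, hr⟩ : ∃ r : ℤ, (q : ℤ) ∣ r ^ 2 - p := by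
    obtain ⟨y, hy⟩ := hsq
    obtain ⟨r, rfl⟩ := ZMod.intCast_surjective y
    refine ⟨r, ?_⟩
    rw [← ZMod.intCast_zmod_eq_zero_iff_dvd]
    push_cast
    rw [hy]
    ring
  have hq0 : (q : K) ≠ 0 := Nat.cast_ne_zero.mpr hq.ne_zero
  -- `q` does not divide `s - r`
  have key : ∀ r : ℤ, (q : ℤ) ∣ r ^ 2 - p → s - (r : 𝓞 K) ∉ Ideal.span {((q : ℕ) : 𝓞 K)} := by
    intro r hr h
    rw [Ideal.mem_span_singleton] at h
    obtain ⟨t, ht⟩ := h
    have ht' : s₀ - (r : K) = (q : K) * (t : K) := by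
      have := congrArg (algebraMap (𝓞 K) K) ht
      rw [map_sub, map_intCast, map_mul, map_natCast] at this
      exact this
    have ht2 : (t : K) = (((-r / q : ℚ)) : K) + (((1 / q : ℚ)) : K) * s₀ := by
      push_cast
      field_simp
      linear_combination -ht'
    have hti : IsIntegral ℤ ((((-r / q : ℚ)) : K) + (((1 / q : ℚ)) : K) * s₀) := by
      rw [← ht2]
      exact t.isIntegral_coe
    obtain ⟨⟨a, ha⟩, -⟩ := H419R2.two_int_of_integral hns hs₀'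
      (by have : (q : ℚ) ≠ 0 := Nat.cast_ne_zero.mpr hq.ne_zero
          positivity) hti
    have hqQ : (q : ℚ) ≠ 0 := Nat.cast_ne_zero.mpr hq.ne_zero
    have h1 : (q : ℤ) * a = - (2 * r) := by
      have : (q : ℚ) * a = -(2 * r) := by
        rw [ha]
        field_simp
      exact_mod_cast this
    have h2 : (q : ℤ) ∣ 2 * r := by
      rw [← dvd_neg]
      exact ⟨a, h1.symm⟩
    have h3 : (q : ℤ) ∣ 4 * p := by
      have e : (4 : ℤ) * p = (2 * r) * (2 * r) - 4 * (r ^ 2 - p) := by ring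
      rw [e]
      exact dvd_sub (dvd_mul_of_dvd_left h2 _) (dvd_mul_of_dvd_right hr _)
    have h4 : q ∣ 2 * (2 * p) := by
      have : (q : ℤ) ∣ ((2 * (2 * p) : ℕ) : ℤ) := by
        push_cast
        convert h3 using 1
        ring
      exact_mod_cast this
    rcases hq.dvd_mul.mp h4 with h5 | h5
    · exact hq2 (dvd_mul_of_dvd_left h5 p)
    · exact hq2 h5
  have hnp : ¬ (Ideal.span {((q : ℕ) : 𝓞 K)}).IsPrime := by
    intro hP
    have h1 : (s - (r : 𝓞 K)) * (s - ((-r : ℤ) : 𝓞 K)) ∈ Ideal.span {((q : ℕ) : 𝓞 K)} := by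
      rw [Ideal.mem_span_singleton]
      obtain ⟨c, hc⟩ := hr
      refine ⟨-(c : 𝓞 K), ?_⟩
      have h2 : ((r : 𝓞 K)) ^ 2 - ((p : ℕ) : 𝓞 K) = ((q : ℕ) : 𝓞 K) * (c : 𝓞 K) := by
        exact_mod_cast congrArg (fun x : ℤ => (x : 𝓞 K)) hc
      push_cast
      linear_combination hs2 - h2
    rcases hP.mem_or_mem h1 with h2 | h2
    · exact key r hr h2
    · refine key (-r) ?_ h2
      rw [neg_sq]
      exact hr
  have hnorm : Ideal.absNorm (Ideal.span {((q : ℕ) : 𝓞 K)}) = q ^ 2 := by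
    rw [Ideal.absNorm_span_natCast, RingOfIntegers.rank, hK.deg]
  have hne : Ideal.span {((q : ℕ) : 𝓞 K)} ≠ ⊤ := by
    intro h
    rw [h, Ideal.absNorm_top] at hnorm
    have := hq.one_lt
    nlinarith
  obtain ⟨𝔮, h𝔮, hle⟩ := Ideal.exists_le_maximal _ hne
  obtain ⟨𝔟, h𝔟⟩ := Ideal.dvd_iff_le.mpr hle
  refine ⟨𝔮, ?_⟩
  have h1 : Ideal.absNorm 𝔮 * Ideal.absNorm 𝔟 = q ^ 2 := by
    rw [← map_mul, ← h𝔟, hnorm]
  have h2 : Ideal.absNorm 𝔮 ∣ q ^ 2 := ⟨_, h1.symm⟩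
  obtain ⟨k, hk, h3⟩ := (Nat.dvd_prime_pow hq).mp h2
  have hk0 : k ≠ 0 := by
    rintro rfl
    rw [pow_zero, Ideal.absNorm_eq_one_iff] at h3
    exact h𝔮.ne_top h3
  have hk2 : k ≠ 2 := by
    rintro rfl
    rw [h3] at h1
    have h4 : Ideal.absNorm 𝔟 = 1 := by
      have : 0 < q ^ 2 := by
        have := hq.pos
        positivity
      exact Nat.eq_of_mul_eq_mul_left this (by rw [h1, mul_one])
    rw [Ideal.absNorm_eq_one_iff] at h4
    rw [h4, Ideal.mul_top] at h𝔟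
    exact hnp (h𝔟 ▸ h𝔮.isPrime)
  have hk1 : k = 1 := by omega
  rw [h3, hk1, pow_one]

end Pool.Agent.J4H78.GP
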