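import Pool.Agent.J4H78.GP.Stm2
import Pool.Agent.J4H67.GP.Bas

/-!
# Project GP (helper78): the part BAS2
-/

set_option autoImplicit false

open NumberField Filter Topology
open Pool.Agent.Y773 (VM cc hf FT PIdl gen)

namespace Pool.Agent.J4H78.GP

open Pool.Agent.J4H67.GP (norm_le diag)

theorem t_BAS2 (hPAIR : S_PAIR) (hLS : S_LS2) (hBD : S_BD) (hW : S_W) (hEX : S_EX) : S_BAS2 := by
  intro ε hε
  obtain ⟨CP, hCP, hpair⟩ := hPAIR
  obtain ⟨C1, hC1, hdiag⟩ := diag hBD hW ε hε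
  obtain ⟨w₀, hw₀, hw⟩ := hW.2.2
  have hW0 := hW.1
  refine ⟨(C1 + CP) / w₀, by positivity, fun x k X B T Q E hX hT hQ hBX hE => ?_⟩
  have hX0 : 0 < X := by linarith
  -- the characters
  have hex : ∀ i : {p // p ∈ E}, ∃ g : ℕ → ℂ, (∀ d, ‖g d‖ ≤ 2) ∧
      T ≤ ‖∑ q ∈ Q, g q‖ ∧
      ∃ (K : Type) (_ : Field K) (_ : NumberField K), QD i.1 K ∧ ∃ ψ : Ideal (𝓞 K) →*₀ ℂ,
        IsCl K ψ ∧ NonTriv2 ψ ∧ g = gg i.1 ψ := by
    rintro ⟨p, hp⟩
    obtain ⟨hpp, -, ⟨K, fK, nK, hQD, ψ, hcl, hnt, h1⟩⟩ := hE p hp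
    refine ⟨gg p ψ, fun d => ?_, h1, K, fK, nK, hQD, ψ, hcl, hnt, rfl⟩
    unfold gg
    split_ifs
    · have := Pool.Agent.Y772.DK.norm_cc_le ψ (norm_le ψ hcl) d
      rw [hQD.deg] at this
      exact_mod_cast this
    · rw [norm_zero]
      norm_num
  choose g hg2 hgT hgK using hex
  -- the coefficients
  have hexa : ∀ i j : {p // p ∈ E}, ∃ a : ℕ → ℂ,
      IsCf (fun d => g i d * (starRingEnd ℂ) (g j d)) a := fun i j => (hEX _).exists
  choose a ha using hexa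
  have hG4 : ∀ i j : {p // p ∈ E}, ∀ d, ‖g i d * (starRingEnd ℂ) (g j d)‖ ≤ 4 := by
    intro i j d
    rw [norm_mul, RCLike.norm_conj]
    calc ‖g i d‖ * ‖g j d‖ ≤ 2 * 2 :=
          mul_le_mul (hg2 i d) (hg2 j d) (norm_nonneg _) (by norm_num)
      _ = 4 := by norm_num
  have hdg : ∀ i j, ‖∑' n : ℕ, ((W ((n : ℝ) / X) : ℝ) : ℂ) * a i j n‖ ≤ C1 * X ^ (1 + ε) :=
    fun i j => (hdiag _ _ (ha i j) (hG4 i j) X hX0).2
  have hoff : ∀ i j, i ≠ j → ‖∑' n : ℕ, ((W ((n : ℝ) / X) : ℝ) : ℂ) * a i j n‖ ≤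
      CP * (x : ℝ) ^ 24 / X := by
    intro i j hij
    obtain ⟨K, fK, nK, hQD, ψ, hcl, hnt, hgi⟩ := hgK i
    obtain ⟨K', fK', nK', hQD', ψ', hcl', hnt', hgj⟩ := hgK j
    obtain ⟨hpi, hpix, -⟩ := hE i.1 i.2
    obtain ⟨hpj, hpjx, -⟩ := hE j.1 j.2
    have hne : i.1 ≠ j.1 := fun h => hij (Subtype.ext h)
    have haij := ha i j
    rw [hgi, hgj] at haij
    have h3 := hpair i.1 j.1 K K' hpi hpj hne hQD hQD' ψ ψ' hcl hcl' hnt' (a i j) haij X hX0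
    refine h3.trans ?_
    have h4 : ((i.1 : ℝ) * (j.1 : ℝ)) ^ 12 ≤ (x : ℝ) ^ 24 := by
      have h5 : (i.1 : ℝ) * (j.1 : ℝ) ≤ (x : ℝ) * x := by
        have h6 : (i.1 : ℝ) ≤ x := by exact_mod_cast hpix
        have h7 : (j.1 : ℝ) ≤ x := by exact_mod_cast hpjx
        gcongr
      calc ((i.1 : ℝ) * (j.1 : ℝ)) ^ 12 ≤ ((x : ℝ) * x) ^ 12 :=
            pow_le_pow_left₀ (by positivity) h5 12
        _ = (x : ℝ) ^ 24 := by ring
    gcongr
  set D : ℝ := C1 * X ^ (1 + ε) + E.card * (CP * (x : ℝ) ^ 24 / X) with hD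
  have hrow : ∀ i : {p // p ∈ E}, ∑ j, ‖∑' n : ℕ, ((W ((n : ℝ) / X) : ℝ) : ℂ) * a i j n‖ ≤ D := by
    intro i
    classical
    rw [← Finset.add_sum_erase Finset.univ _ (Finset.mem_univ i)]
    refine add_le_add (hdg i i) ?_
    calc ∑ j ∈ Finset.univ.erase i, ‖∑' n : ℕ, ((W ((n : ℝ) / X) : ℝ) : ℂ) * a i j n‖
        ≤ ∑ j ∈ Finset.univ.erase i, (CP * (x : ℝ) ^ 24 / X) :=
          Finset.sum_le_sum fun j hj => hoff i j (Finset.ne_of_mem_erase hj).symm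
      _ ≤ ∑ j : {p // p ∈ E}, (CP * (x : ℝ) ^ 24 / X) :=
          Finset.sum_le_sum_of_subset_of_nonneg (Finset.erase_subset _ _)
            fun _ _ _ => by positivity
      _ = _ := by
          rw [Finset.sum_const, Finset.card_univ, Fintype.card_coe, nsmul_eq_mul]
  have hcol : ∀ j : {p // p ∈ E}, ∑ i, ‖∑' n : ℕ, ((W ((n : ℝ) / X) : ℝ) : ℂ) * a i j n‖ ≤ D := by
    intro j
    classical
    rw [← Finset.add_sum_erase Finset.univ _ (Finset.mem_univ j)]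
    refine add_le_add (hdg j j) ?_
    calc ∑ i ∈ Finset.univ.erase j, ‖∑' n : ℕ, ((W ((n : ℝ) / X) : ℝ) : ℂ) * a i j n‖
        ≤ ∑ i ∈ Finset.univ.erase j, (CP * (x : ℝ) ^ 24 / X) :=
          Finset.sum_le_sum fun i hi => hoff i j (Finset.ne_of_mem_erase hi)
      _ ≤ ∑ i : {p // p ∈ E}, (CP * (x : ℝ) ^ 24 / X) :=
          Finset.sum_le_sum_of_subset_of_nonneg (Finset.erase_subset _ _)
            fun _ _ _ => by positivity
      _ = _ := by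
          rw [Finset.sum_const, Finset.card_univ, Fintype.card_coe, nsmul_eq_mul]
  have hD0 : 0 ≤ D := by positivity
  have hSP : ∀ f : Fin k → ℕ, (∀ j, f j ∈ Q) → w₀ ≤ W (((∏ j, f j : ℕ) : ℝ) / X) := by
    intro f hf
    have h3 : 0 < ∏ j, f j := Finset.prod_pos fun j _ => (hQ _ (hf j)).1.pos
    have h4 : (0 : ℝ) < ((∏ j, f j : ℕ) : ℝ) := by exact_mod_cast h3
    refine hw _ (by positivity) ?_
    rw [div_le_one hX0]
    push_cast
    calc ∏ j, ((f j : ℕ) : ℝ) ≤ ∏ _j : Fin k, B :=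
          Finset.prod_le_prod (fun j _ => Nat.cast_nonneg _) fun j _ => (hQ _ (hf j)).2
      _ = B ^ k := by rw [Finset.prod_const, Finset.card_univ, Fintype.card_fin]
      _ ≤ X := hBX
  have hls := hLS {p // p ∈ E} g a ha (fun n => W ((n : ℝ) / X)) (fun n => hW0 _)
    (fun i j => (hdiag _ _ (ha i j) (hG4 i j) X hX0).1) D hD0 hrow hcol Q k w₀ hw₀
    (fun q hq => (hQ q hq).1) hSP
  have hfin : w₀ * ((E.card : ℝ) * T ^ (2 * k)) ≤ D * (k.factorial * (Q.card : ℝ) ^ k) := by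
    calc w₀ * ((E.card : ℝ) * T ^ (2 * k))
        = w₀ * ∑ i : {p // p ∈ E}, T ^ (2 * k) := by
          rw [Finset.sum_const, Finset.card_univ, Fintype.card_coe, nsmul_eq_mul]
      _ ≤ w₀ * ∑ i : {p // p ∈ E}, ‖∑ q ∈ Q, g i q‖ ^ (2 * k) := by
          gcongr with i _
          exact hgT i
      _ ≤ _ := hls
  have h9 : D ≤ (C1 + CP) * (X ^ (1 + ε) + E.card * (x : ℝ) ^ 24 / X) := by
    have h10 : 0 ≤ CP * X ^ (1 + ε) := by positivity
    have h11 : 0 ≤ C1 * (E.card * (x : ℝ) ^ 24 / X) := by positivity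
    have h12 : (C1 + CP) * (X ^ (1 + ε) + E.card * (x : ℝ) ^ 24 / X) =
      D + CP * X ^ (1 + ε) + C1 * (E.card * (x : ℝ) ^ 24 / X) := by
      rw [hD]
      ring
    linarith
  have h13 : w₀ * ((E.card : ℝ) * T ^ (2 * k)) ≤
      w₀ * ((C1 + CP) / w₀ * (X ^ (1 + ε) + E.card * (x : ℝ) ^ 24 / X) *
        (k.factorial * (Q.card : ℝ) ^ k)) := by
    refine hfin.trans ?_
    calc D * (k.factorial * (Q.card : ℝ) ^ k)
        ≤ ((C1 + CP) * (X ^ (1 + ε) + E.card * (x : ℝ) ^ 24 / X)) *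
          (k.factorial * (Q.card : ℝ) ^ k) := by
          gcongr
      _ = _ := by
          field_simp
  exact le_of_mul_le_mul_left h13 hw₀

end Pool.Agent.J4H78.GP
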