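import Pool.Agent.J4H78.GP.Stm

/-!
# Project GP (helper78): the part FIN
-/

set_option autoImplicit false

open NumberField Complex Filter Topology MeasureTheory

namespace Pool.Agent.J4H78.GP

lemma Exc.mono {p : ℕ} {B B' : ℝ} (h : Exc p B) (hB : B' ≤ B) : Exc p B' := by
  obtain ⟨K, i1, i2, hK, ψ, h1, h2, h3⟩ := h
  exact ⟨K, i1, i2, hK, ψ, h1, h2, fun 𝔮 h4 h5 => h3 𝔮 h4 (h5.trans hB)⟩

theorem t_FIN (hCNT : S_CNT) (hCHR : S_CHR) : S_FIN := by
  intro δ hδ
  obtain ⟨A, C, hA, hC, h⟩ := hCNT δ hδ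
  set x₀ : ℝ := Real.exp (1 / δ ^ 2) with hx₀
  refine ⟨2 * A, C + 1 + x₀, by positivity, by positivity, ?_⟩
  intro x hx
  set S : Set ℕ := {p : ℕ | p.Prime ∧ p ≤ x ∧ ¬ Gen p ((Real.log p) ^ (2 * A))} with hS
  have hfin : S.Finite := (Set.finite_Iic x).subset fun p hp => hp.2.1
  have hx1 : (1 : ℝ) ≤ x := by exact_mod_cast hx
  have hx0 : (0 : ℝ) < x := by linarith
  have hxδ : (1 : ℝ) ≤ (x : ℝ) ^ δ := Real.one_le_rpow hx1 hδ.le
  by_cases hbig : x₀ < (x : ℝ)
  · -- the small primes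
    classical
    set E : Finset ℕ := hfin.toFinset.filter (fun p => (x : ℝ) ^ δ < p) with hE
    have hsub : S ⊆ (E : Set ℕ) ∪ (Finset.Icc 1 ⌊(x : ℝ) ^ δ⌋₊ : Set ℕ) := by
      intro p hp
      by_cases h1 : (x : ℝ) ^ δ < p
      · left
        rw [hE, Finset.mem_coe, Finset.mem_filter, Set.Finite.mem_toFinset]
        exact ⟨hp, h1⟩
      · right
        rw [Finset.coe_Icc, Set.mem_Icc]
        exact ⟨hp.1.one_lt.le, Nat.le_floor (not_lt.mp h1)⟩
    have hcard : S.ncard ≤ E.card + ⌊(x : ℝ) ^ δ⌋₊ := by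
      refine (Set.ncard_le_ncard hsub ((Finset.finite_toSet _).union (Finset.finite_toSet _))).trans ?_
      refine (Set.ncard_union_le _ _).trans ?_
      rw [Set.ncard_coe_finset, Set.ncard_coe_finset, Nat.card_Icc, Nat.add_sub_cancel]
    have hlogx : 1 / δ ^ 2 < Real.log x := by
      rw [Real.lt_log_iff_exp_lt hx0]
      exact hbig
    have hlogpos : 0 < Real.log x := lt_trans (by positivity) hlogx
    have hx2 : 2 ≤ x := by
      by_contra h1
      have h2 : x = 1 := by omega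
      rw [h2, Nat.cast_one, Real.log_one] at hlogpos
      exact lt_irrefl _ hlogpos
    have hEc : (E.card : ℝ) ≤ C * (x : ℝ) ^ δ := by
      refine h x hx2 E fun p hp => ?_
      rw [hE, Finset.mem_filter, Set.Finite.mem_toFinset] at hp
      obtain ⟨⟨hp1, hp2, hp3⟩, hp4⟩ := hp
      refine ⟨hp1, hp2, (hCHR p _ hp1 hp3).mono ?_⟩
      have h1 : δ * Real.log x ≤ Real.log p := by
        rw [← Real.log_rpow hx0]
        exact Real.log_le_log (by positivity) hp4.le
      have h2 : Real.log x ≤ (Real.log p) ^ (2 : ℝ) := by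
        have h3 : 1 ≤ δ ^ 2 * Real.log x := by
          have h4 : 0 < δ ^ 2 := by positivity
          rw [div_lt_iff₀ h4] at hlogx
          linarith
        calc Real.log x = 1 * Real.log x := (one_mul _).symm
          _ ≤ δ ^ 2 * Real.log x * Real.log x := mul_le_mul_of_nonneg_right h3 hlogpos.le
          _ = (δ * Real.log x) ^ 2 := by ring
          _ ≤ (Real.log p) ^ 2 := pow_le_pow_left₀ (by positivity) h1 2
          _ = (Real.log p) ^ (2 : ℝ) := by norm_cast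
      calc (Real.log x) ^ A ≤ ((Real.log p) ^ (2 : ℝ)) ^ A :=
            Real.rpow_le_rpow hlogpos.le h2 hA.le
        _ = (Real.log p) ^ (2 * A) := by
            rw [← Real.rpow_mul]
            exact le_trans (by positivity) h1
    have hfl : (⌊(x : ℝ) ^ δ⌋₊ : ℝ) ≤ (x : ℝ) ^ δ := Nat.floor_le (by positivity)
    calc (S.ncard : ℝ) ≤ ((E.card + ⌊(x : ℝ) ^ δ⌋₊ : ℕ) : ℝ) := by exact_mod_cast hcard
      _ = (E.card : ℝ) + (⌊(x : ℝ) ^ δ⌋₊ : ℝ) := by push_cast; ring
      _ ≤ C * (x : ℝ) ^ δ + (x : ℝ) ^ δ := add_le_add hEc hfl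
      _ ≤ (C + 1 + x₀) * (x : ℝ) ^ δ := by
          have : 0 ≤ x₀ * (x : ℝ) ^ δ := by positivity
          nlinarith
  · have hcard : S.ncard ≤ x := by
      have h1 : S ⊆ (Finset.Icc 1 x : Set ℕ) := by
        intro p hp
        rw [Finset.coe_Icc, Set.mem_Icc]
        exact ⟨hp.1.one_lt.le, hp.2.1⟩
      refine (Set.ncard_le_ncard h1 (Finset.finite_toSet _)).trans ?_
      rw [Set.ncard_coe_finset, Nat.card_Icc, Nat.add_sub_cancel]
    calc (S.ncard : ℝ) ≤ x := by exact_mod_cast hcard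
      _ ≤ x₀ := not_lt.mp hbig
      _ = x₀ * 1 := (mul_one _).symm
      _ ≤ x₀ * (x : ℝ) ^ δ := mul_le_mul_of_nonneg_left hxδ (by positivity)
      _ ≤ (C + 1 + x₀) * (x : ℝ) ^ δ := by
          have : 0 ≤ C * (x : ℝ) ^ δ := by positivity
          nlinarith

end Pool.Agent.J4H78.GP
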