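import Pool.Agent.J4H78.GP.Pair
import Pool.Agent.Y772.DK.Vm

/-!
# Project GP (helper78): the part REC
-/

set_option autoImplicit false

open NumberField Complex Filter Topology MeasureTheory
open Pool.Agent.Y773 (VM cc hf FT PIdl gen)

namespace Pool.Agent.J4H78.GP

open Classical in
/-- the divisors of an ideal -/
noncomputable def Dv {F : Type} [Field F] [NumberField F] (𝔞 : Ideal (𝓞 F)) : Finset (Ideal (𝓞 F)) :=
  if h : 𝔞 ≠ 0 then (Pool.Agent.Y772.DK.finite_dvd h).toFinset else ∅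

lemma mem_Dv {F : Type} [Field F] [NumberField F] {𝔞 𝔡 : Ideal (𝓞 F)} (h : 𝔞 ≠ 0) :
    𝔡 ∈ Dv 𝔞 ↔ 𝔡 ∣ 𝔞 := by
  unfold Dv
  rw [dif_pos h, Set.Finite.mem_toFinset]
  rfl

lemma mem_fib {F : Type} [Field F] [NumberField F] {n : ℕ} {𝔞 : Ideal (𝓞 F)} :
    𝔞 ∈ (fib_finite F n).toFinset ↔ Ideal.absNorm 𝔞 = n := by
  rw [Set.Finite.mem_toFinset]
  rfl

lemma fib_ne {F : Type} [Field F] [NumberField F] {n : ℕ} (hn : 1 ≤ n) {𝔞 : Ideal (𝓞 F)}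
    (h : Ideal.absNorm 𝔞 = n) : 𝔞 ≠ 0 := by
  rintro rfl
  rw [map_zero] at h
  omega

theorem t_REC : S_REC := by
  intro F _ _ η
  have hb : ∀ n, ∑ᶠ 𝔞 ∈ {𝔞 : Ideal (𝓞 F) | Ideal.absNorm 𝔞 = n}, η 𝔞 =
      ∑ 𝔞 ∈ (fib_finite F n).toFinset, η 𝔞 :=
    fun n => finsum_mem_eq_finite_toFinset_sum _ (fib_finite F n)
  simp only [hb]
  refine ⟨?_, ?_, ?_⟩
  · refine Finset.sum_eq_zero fun 𝔞 h => ?_
    rw [mem_fib, Ideal.absNorm_eq_zero_iff] at h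
    rw [h, ← Ideal.zero_eq_bot, map_zero]
  · have h1 : (fib_finite F 1).toFinset = {1} := by
      ext 𝔞
      rw [mem_fib, Ideal.absNorm_eq_one_iff, Finset.mem_singleton, Ideal.one_eq_top]
    show ∑ 𝔞 ∈ (fib_finite F 1).toFinset, η 𝔞 = 1
    rw [h1, Finset.sum_singleton, map_one]
  · intro n hn
    have hL : (∑ 𝔞 ∈ (fib_finite F n).toFinset, η 𝔞) * (Real.log n : ℂ) =
        ∑ x ∈ (fib_finite F n).toFinset.sigma Dv, (VM x.2 : ℂ) * η x.1 := by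
      rw [Finset.sum_sigma, Finset.sum_mul]
      refine Finset.sum_congr rfl fun 𝔞 h => ?_
      rw [mem_fib] at h
      have h0 := fib_ne hn h
      have h2 := Pool.Agent.Y772.DK.sum_VM 𝔞 h0
      have h3 : ∑ᶠ 𝔡 ∈ {𝔡 : Ideal (𝓞 F) | 𝔡 ∣ 𝔞}, VM 𝔡 = ∑ 𝔡 ∈ Dv 𝔞, VM 𝔡 := by
        rw [finsum_mem_eq_finite_toFinset_sum _ (Pool.Agent.Y772.DK.finite_dvd h0)]
        unfold Dv
        rw [dif_pos h0]
      rw [h3, h] at h2
      rw [← h2]
      push_cast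
      rw [Finset.mul_sum]
      exact Finset.sum_congr rfl fun _ _ => mul_comm _ _
    have hR : ∑ d ∈ n.divisors, (ArithmeticFunction.vonMangoldt d : ℂ) * cc η d *
        ∑ 𝔞 ∈ (fib_finite F (n / d)).toFinset, η 𝔞 =
        ∑ x ∈ n.divisors.sigma (fun d => (fib_finite F d).toFinset ×ˢ (fib_finite F (n / d)).toFinset),
          (VM x.2.1 : ℂ) * (η x.2.1 * η x.2.2) := by
      rw [Finset.sum_sigma]
      refine Finset.sum_congr rfl fun d _ => ?_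
      have h1 := Pool.Agent.Y772.DK.cc_mul η d
      have h2 : ∑ᶠ 𝔞 ∈ Pool.Agent.Y772.DK.NN F d, (VM 𝔞 : ℂ) * η 𝔞 =
          ∑ 𝔞 ∈ (fib_finite F d).toFinset, (VM 𝔞 : ℂ) * η 𝔞 :=
        finsum_mem_eq_finite_toFinset_sum _ (fib_finite F d)
      rw [mul_comm ((ArithmeticFunction.vonMangoldt d : ℝ) : ℂ), h1, h2, Finset.sum_product,
        Finset.sum_mul_sum]
      refine Finset.sum_congr rfl fun 𝔡 _ => Finset.sum_congr rfl fun 𝔟 _ => ?_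
      ring
    rw [hL, hR]
    symm
    refine Finset.sum_bij (fun x _ => ⟨x.2.1 * x.2.2, x.2.1⟩) ?_ ?_ ?_ ?_
    · rintro ⟨d, 𝔡, 𝔟⟩ h
      rw [Finset.mem_sigma, Finset.mem_product, mem_fib, mem_fib] at h
      have h1 : Ideal.absNorm (𝔡 * 𝔟) = n := by
        rw [map_mul]
        rw [h.2.1, h.2.2]
        exact Nat.mul_div_cancel' (Nat.dvd_of_mem_divisors h.1)
      rw [Finset.mem_sigma, mem_fib, mem_Dv (fib_ne hn h1)]
      exact ⟨h1, dvd_mul_right _ _⟩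
    · rintro ⟨d, 𝔡, 𝔟⟩ h ⟨d', 𝔡', 𝔟'⟩ h' heq
      rw [Finset.mem_sigma, Finset.mem_product, mem_fib, mem_fib] at h h'
      simp only [Sigma.mk.injEq, heq_eq_eq] at heq
      obtain ⟨h1, h2⟩ := heq
      have hd : Ideal.absNorm 𝔡 = d := h.2.1
      have hd' : Ideal.absNorm 𝔡' = d' := h'.2.1
      subst h2
      have h3 : d = d' := by rw [← hd, ← hd']
      subst h3
      have h4 : 𝔡 ≠ 0 := fib_ne (Nat.pos_of_mem_divisors h.1) hd
      have h5 : 𝔟 = 𝔟' := mul_left_cancel₀ h4 h1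
      rw [h5]
    · rintro ⟨𝔞, 𝔡⟩ h
      rw [Finset.mem_sigma, mem_fib] at h
      have h0 := fib_ne hn h.1
      have h1 := (mem_Dv h0).mp h.2
      obtain ⟨𝔟, h2⟩ := h1
      have h2' : 𝔞 = 𝔡 * 𝔟 := h2
      have hN : Ideal.absNorm 𝔡 * Ideal.absNorm 𝔟 = n := by
        rw [← map_mul, ← h2']
        exact h.1
      refine ⟨⟨Ideal.absNorm 𝔡, 𝔡, 𝔟⟩, ?_, ?_⟩
      · rw [Finset.mem_sigma, Finset.mem_product, mem_fib, mem_fib, Nat.mem_divisors]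
        refine ⟨⟨⟨_, hN.symm⟩, by omega⟩, rfl, ?_⟩
        change Ideal.absNorm 𝔟 = n / Ideal.absNorm 𝔡
        rw [← hN, Nat.mul_div_cancel_left]
        rcases Nat.eq_zero_or_pos (Ideal.absNorm 𝔡) with h3 | h3
        · rw [h3, zero_mul] at hN
          omega
        · exact h3
      · rw [h2']
    · rintro ⟨d, 𝔡, 𝔟⟩ h
      rw [map_mul]

end Pool.Agent.J4H78.GP
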