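import Pool.Agent.J4H78.GP.Stm

/-!
# Project GP, second part (helper78), row MP_d0fd9b_nt: the spectral gap

THEOREM.  For every `δ > 0` there are `A, η, c, κ > 0` such that for every set `P` of primes and all but at most
`C x ^ δ` primes `p ≤ x`: `|∑_{N𝔮 ∈ P, N𝔮 ≤ y} χ(𝔮)| ≤ y ^ (1 - η)` for every character `χ ≠ 1` of the class group of
`ℚ(√p)` and all `(log p) ^ A ≤ y ≤ p ^ c`; and if `P` has `≥ y ^ (1 - κ)` elements in `(y, 2 y]` for all large `y`, the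
products of `m ≥ C log p / log log p` classes of prime ideals of norm in `P` and `≤ (log p) ^ A` are
equidistributed in the class group, up to a relative error `1 / p`.
-/

set_option autoImplicit false

open NumberField Complex Filter Topology MeasureTheory
open Pool.Agent.Y773 (VM cc)

namespace Pool.Agent.J4H78.GP

/-- there is a character `ψ` of the class group of `ℚ(√p)`, `ψ² ≠ 1`, with `T ≤ |∑_{q ∈ Q} g(q)|` -/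
def Big (p : ℕ) (Q : Finset ℕ) (T : ℝ) : Prop :=
  ∃ (K : Type) (_ : Field K) (_ : NumberField K), QD p K ∧ ∃ ψ : Ideal (𝓞 K) →*₀ ℂ,
    IsCl K ψ ∧ NonTriv2 ψ ∧ T ≤ ‖∑ q ∈ Q, gg p ψ q‖

open Classical in
/-- the primes of `P` up to `y` -/
noncomputable def PS (P : Set ℕ) (y : ℕ) : Finset ℕ := {q ∈ Finset.Icc 1 y | q.Prime ∧ q ∈ P}

/-- a character sum over the primes of `P` up to `y` is large, for some `y` with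
`(log p) ^ A ≤ y ≤ p ^ c` -/
def Bad (P : Set ℕ) (A η c : ℝ) (p : ℕ) : Prop :=
  ∃ y : ℕ, (Real.log p) ^ A ≤ y ∧ (y : ℝ) ≤ (p : ℝ) ^ c ∧ Big p (PS P y) ((y : ℝ) ^ (1 - η))

open Classical in
/-- `P` has at least `y ^ (1 - κ)` primes in `(y, 2 y]` for all large `y` -/
def Dense (P : Set ℕ) (κ : ℝ) : Prop := ∃ y₁ : ℕ, ∀ y : ℕ, y₁ ≤ y →
  (y : ℝ) ^ (1 - κ) ≤ (({q ∈ Finset.Ioc y (2 * y) | q.Prime ∧ q ∈ P} : Finset ℕ).card : ℝ)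

/-- the ideals whose norm is a prime number of `P` and `≤ B` -/
def Sm (P : Set ℕ) (K : Type) [Field K] [NumberField K] (B : ℝ) :
    Set (nonZeroDivisors (Ideal (𝓞 K))) :=
  {𝔮 | (Ideal.absNorm (𝔮 : Ideal (𝓞 K))).Prime ∧ Ideal.absNorm (𝔮 : Ideal (𝓞 K)) ∈ P ∧
    ((Ideal.absNorm (𝔮 : Ideal (𝓞 K)) : ℕ) : ℝ) ≤ B}

/-- the spectral gap -/
def GA (P : Set ℕ) (A η c : ℝ) (p : ℕ) : Prop :=
  ∀ (K : Type) [Field K] [NumberField K], QD p K → ∀ χ : ClassGroup (𝓞 K) →* ℂˣ, χ ≠ 1 →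
    ∀ y : ℝ, (Real.log p) ^ A ≤ y → y ≤ (p : ℝ) ^ c →
      ‖∑ᶠ 𝔮 ∈ Sm P K y, ((χ (ClassGroup.mk0 𝔮) : ℂˣ) : ℂ)‖ ≤ y ^ (1 - η)

/-- the equidistribution of the products of `m` classes of small prime ideals -/
def GB (P : Set ℕ) (A C : ℝ) (p : ℕ) : Prop :=
  ∀ (K : Type) [Field K] [NumberField K], QD p K →
    1 ≤ Nat.card (Sm P K ((Real.log p) ^ A)) ∧
    ∀ m : ℕ, C * Real.log p / Real.log (Real.log p) ≤ m → ∀ z : ClassGroup (𝓞 K),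
      |(Nat.card (ClassGroup (𝓞 K)) : ℝ) *
        (Nat.card {f : Fin m → Sm P K ((Real.log p) ^ A) // ∏ j, ClassGroup.mk0 (f j).1 = z} : ℝ) -
        (Nat.card (Sm P K ((Real.log p) ^ A)) : ℝ) ^ m| ≤
      (Nat.card (Sm P K ((Real.log p) ^ A)) : ℝ) ^ m / p

/-- **PS2**: as `S_PSD`.  Strong induction on `n`; let `b_ij(n)` be the product.  Then
`b n log n = ∑_{q ∣ n, q prime} log q G(q) b(n / q)`, so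
`(a - b)(n) log n = ∑_{q ∣ n prime} log q G(q) (a - b)(n / q) + ∑_{d ∣ n not prime} Λ(d) G(d) a(n / d)`, and all terms are
positive semidefinite (`S_PSD`, and with `(M_ij)` also `(g_i conj(g_j) M_ij)`). -/
def S_PS2 : Prop := ∀ (ι : Type) [Fintype ι] (g : ι → ℕ → ℂ) (a : ι → ι → ℕ → ℂ),
  (∀ i j, IsCf (fun d => g i d * (starRingEnd ℂ) (g j d)) (a i j)) →
    ∀ (u : ι → ℂ) (n : ℕ), 1 ≤ n →
    0 ≤ (∑ i, ∑ j, u i * (starRingEnd ℂ) (u j) * (a i j n - ∏ q ∈ n.primeFactors,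
      (g i q * (starRingEnd ℂ) (g j q)) ^ (n.factorization q) /
        ((n.factorization q).factorial : ℂ))).re

/-- **LS2** (from `S_PS2`): `P_i = ∑_{q ∈ Q} g_i(q)`, `u_i = conj(P_i) ^ k`, `Z = ∑ |P_i| ^ (2 k) = ∑_i u_i P_i ^ k`.
`P_i ^ k = ∑_{κ ∈ Q.sym k} M(κ) ∏_{q ∈ κ} g_i(q)` (`Finset.sum_pow`), `∑ M(κ) = #Q ^ k`, so by Cauchy and Schwarz
`Z² ≤ #Q ^ k ∑_κ M(κ) |∑_i u_i ∏_{q ∈ κ} g_i(q)|²`.  With `n = ∏ κ` (`κ ↦ n` is injective), `M(κ) = k! / ∏ v_q(n)!`, the last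
sum is `≤ k! ∑_n ∑_ij u_i conj(u_j) a_ij(n) ≤ k! w₀⁻¹ ∑_n w(n) ∑_ij ... ≤ k! w₀⁻¹ Δ Z` (as in `S_LS`). -/
def S_LS2 : Prop := ∀ (ι : Type) [Fintype ι] (g : ι → ℕ → ℂ) (a : ι → ι → ℕ → ℂ),
  (∀ i j, IsCf (fun d => g i d * (starRingEnd ℂ) (g j d)) (a i j)) →
  ∀ w : ℕ → ℝ, (∀ n, 0 ≤ w n) → (∀ i j, Summable fun n => ((w n : ℝ) : ℂ) * a i j n) →
  ∀ Δ : ℝ, 0 ≤ Δ → (∀ i, ∑ j, ‖∑' n, ((w n : ℝ) : ℂ) * a i j n‖ ≤ Δ) →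
  (∀ j, ∑ i, ‖∑' n, ((w n : ℝ) : ℂ) * a i j n‖ ≤ Δ) →
  ∀ (Q : Finset ℕ) (k : ℕ) (w₀ : ℝ), 0 < w₀ → (∀ q ∈ Q, q.Prime) →
    (∀ f : Fin k → ℕ, (∀ j, f j ∈ Q) → w₀ ≤ w (∏ j, f j)) →
    w₀ * ∑ i, ‖∑ q ∈ Q, g i q‖ ^ (2 * k) ≤ Δ * (k.factorial * (Q.card : ℝ) ^ k)

/-- **BAS2** (from `S_PAIR`, `S_LS2`, `S_BD`, `S_W`, `S_EX`): as `S_BAS`. -/
def S_BAS2 : Prop := ∀ ε : ℝ, 0 < ε → ∃ C : ℝ, 0 < C ∧ ∀ (x k : ℕ) (X B T : ℝ) (Q E : Finset ℕ),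
  1 ≤ X → 0 ≤ T → (∀ q ∈ Q, q.Prime ∧ (q : ℝ) ≤ B) → B ^ k ≤ X →
  (∀ p ∈ E, p.Prime ∧ p ≤ x ∧ Big p Q T) →
    (E.card : ℝ) * T ^ (2 * k) ≤
      C * (X ^ (1 + ε) + E.card * (x : ℝ) ^ 24 / X) * (k.factorial * (Q.card : ℝ) ^ k)

/-- **CNT2** (from `S_BAS2`): for `p > x ^ (δ/2)`, `y ≥ (δ/2 log x) ^ A ≥ (log x) ^ (A/2)`, `y ≤ x ^ c`; for each such `y` let
`k = ⌈25 log x / log y⌉`, `B = y`, `X = y ^ k`, `T = y ^ (1 - η)`; the number of the `p` is at most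
`2 C y ^ (k (ε + 2 η)) k ^ k`, with `y ^ k ≤ x ^ 26`, `k ^ k ≤ x ^ (200 / A)`; add over all `y ≤ x ^ c`
(`c = δ/4`, `ε = η = δ/400`, `A = 2000/δ + 1`). -/
def S_CNT2 : Prop := ∀ δ : ℝ, 0 < δ → ∃ A η c C : ℝ, 1 ≤ A ∧ 0 < η ∧ η < 1 ∧ 0 < c ∧ c < 1 ∧ 0 < C ∧
  ∀ (P : Set ℕ) (x : ℕ), 1 ≤ x → ∀ E : Finset ℕ,
    (∀ p ∈ E, p.Prime ∧ p ≤ x ∧ Bad P A η c p) → (E.card : ℝ) ≤ C * (x : ℝ) ^ δ

/-- **LOW2** (from `Pool.Agent.N614.SP.t_LOW : E_LOW`, more general than `S_LOW`): all but very few primes `p ≤ x` have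
many split primes of `P` up to `(log p) ^ A`.  For `p > x ^ (δ/2)` and large `x` the primes up to `(log x) ^ A'`,
`A' = A (1 - η/2)`, are `≤ (log p) ^ A`; `Q = ` the primes of `P` in `(y, 2 y]`, `y = ⌊(log x) ^ A' / 2⌋`, has
`≥ y ^ (1 - κ)` elements, and `C i! (3 y / #Q) ^ i ≤ x ^ (δ/2)` for `κ` small, `A` large. -/
def S_LOW2 : Prop := ∀ δ η : ℝ, 0 < δ → 0 < η → η < 1 → ∃ κ A₀ : ℝ, 0 < κ ∧ 1 ≤ A₀ ∧ ∀ A : ℝ, A₀ ≤ A →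
  ∀ P : Set ℕ, Dense P κ → ∃ C : ℝ, 0 < C ∧ ∀ x : ℕ, 1 ≤ x →
    ({p : ℕ | p ≤ x ∧ p.Prime ∧ (({q : ℕ | q ∈ P ∧ Spl p q ∧ (q : ℝ) ≤ (Real.log p) ^ A}.ncard : ℕ) : ℝ) <
      ((Real.log p) ^ A) ^ (1 - η)}.ncard : ℝ) ≤ C * (x : ℝ) ^ δ

/-- **HB**: a crude upper bound for the class number (Minkowski: every class contains an ideal of norm
`≤ √|discr|`; there are at most `n` ideals of norm `n`; `|discr| ≤ 4 p`). -/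
def S_HB : Prop := ∃ C : ℝ, 0 < C ∧ ∀ (p : ℕ) (K : Type) [Field K] [NumberField K], p.Prime → QD p K →
  (Nat.card (ClassGroup (𝓞 K)) : ℝ) ≤ C * (p : ℝ) ^ 2

/-- **MIX**: `#G · #{f : ∏ c (f j) = z} = ∑_χ conj(χ z) (∑_i χ(c i)) ^ m`. -/
def S_MIX : Prop := ∀ (G : Type) [CommGroup G] [Finite G] (I : Type) [Fintype I] (c : I → G) (T : ℝ),
  0 ≤ T → (∀ χ : G →* ℂˣ, χ ≠ 1 → ‖∑ i, ((χ (c i) : ℂˣ) : ℂ)‖ ≤ T) → ∀ (m : ℕ) (z : G),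
    |(Nat.card G : ℝ) * (Nat.card {f : Fin m → I // ∏ j, c (f j) = z} : ℝ) -
      (Fintype.card I : ℝ) ^ m| ≤ (Nat.card G : ℝ) * T ^ m

/-- **GAP** (from `S_CNT2`, `S_ODD`): a character `χ ≠ 1` of the class group gives `ψ` with `IsCl`, `NonTriv2`
(odd class number; compare `S_CHR`); the sum over the ideals in `Sm P K y` is `∑_{q ∈ PS P ⌊y⌋} gg p ψ q` plus at most
two terms of absolute value `1` (`q = 2`; `q = p` does not occur since `c < 1`), by `cc_prime`.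
(Take `A + 1` for `A` and `η / 2` for `η`; the finitely many small `p` go into `C`.) -/
def S_GAP : Prop := ∀ δ : ℝ, 0 < δ → ∃ A η c C : ℝ, 1 ≤ A ∧ 0 < η ∧ η < 1 ∧ 0 < c ∧ 0 < C ∧
  ∀ (P : Set ℕ) (x : ℕ), 1 ≤ x →
    ({p : ℕ | p.Prime ∧ p ≤ x ∧ ¬ GA P A η c p}.ncard : ℝ) ≤ C * (x : ℝ) ^ δ

/-- **FIN2** (from `S_GAP`, `S_LOW2`, `S_HB`, `S_MIX`): the theorem.  (`N = #Sm P K ((log p) ^ A) ≥ ((log p) ^ A) ^ (1 - η/2)`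
by `S_LOW2` and `S_SPL`, `T = ((log p) ^ A) ^ (1 - η)`, `(N / T) ^ m ≥ (log p) ^ (A η m / 2) ≥ h p` for
`m ≥ C log p / log log p`.)  -/
def S_FIN2 : Prop := ∀ δ : ℝ, 0 < δ → ∃ A η c κ : ℝ, 0 < A ∧ 0 < η ∧ 0 < c ∧ 0 < κ ∧
  ∀ P : Set ℕ, ∃ C : ℝ, 0 < C ∧ ∀ x : ℕ, 1 ≤ x →
    ({p : ℕ | p.Prime ∧ p ≤ x ∧ ¬ GA P A η c p}.ncard : ℝ) ≤ C * (x : ℝ) ^ δ ∧
    (Dense P κ → ({p : ℕ | p.Prime ∧ p ≤ x ∧ ¬ GB P A C p}.ncard : ℝ) ≤ C * (x : ℝ) ^ δ)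

end Pool.Agent.J4H78.GP
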